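import Pool.Agent.H355Z.ANSDefs

set_option autoImplicit false

namespace Pool.Agent.H355Z.ANS

variable {A : Type} [LinearOrder A]

lemma genLt_iff (u w : List A) :
    GenLt u w ↔ u.length < w.length ∨ (u.length = w.length ∧ u < w) :=
  Iff.rfl

lemma genLt_trans {u v w : List A} (h1 : GenLt u v) (h2 : GenLt v w) : GenLt u w := by
  rw [genLt_iff] at *
  rcases h1 with h1 | ⟨h1, h1'⟩ <;> rcases h2 with h2 | ⟨h2, h2'⟩
  · left; omega
  · left; omega
  · left; omega
  · right; exact ⟨by omega, lt_trans h1' h2'⟩

lemma genLt_irrefl (u : List A) : ¬ GenLt u u := by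
  rw [genLt_iff]; simp

lemma genLt_total (u w : List A) (h : u ≠ w) : GenLt u w ∨ GenLt w u := by
  rw [genLt_iff, genLt_iff]
  rcases lt_trichotomy u.length w.length with h1 | h1 | h1
  · left; left; exact h1
  · rcases lt_or_gt_of_ne h with h2 | h2
    · left; right; exact ⟨h1, h2⟩
    · right; right; exact ⟨h1.symm, h2⟩
  · right; left; exact h1

lemma genLt_length {u w : List A} (h : GenLt u w) : u.length ≤ w.length := by
  rcases h with h | h
  · exact h.le
  · exact h.1.le

lemma between_prefix (p s t u : List A) (h1 : ¬ u < p ++ s) (h2 : u < p ++ t) :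
    ∃ y, u = p ++ y := by
  induction p generalizing u with
  | nil => exact ⟨u, rfl⟩
  | cons a p ih =>
    cases u with
    | nil => exact absurd (List.nil_lt_cons _ _) h1
    | cons b u =>
      simp only [List.cons_append, List.cons_lt_cons_iff] at h1 h2
      push Not at h1
      rcases h2 with h2 | ⟨h2, h3⟩
      · exact absurd h2 (not_lt.mpr h1.1)
      · obtain ⟨y, rfl⟩ := ih u (not_lt.mpr (h1.2 h2)) h3
        exact ⟨y, by rw [h2]; rfl⟩

lemma append_lt (p s t : List A) (h : s < t) : p ++ s < p ++ t := by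
  induction p with
  | nil => exact h
  | cons a p ih => simp [ih]

variable [Fintype A]

lemma finite_below (L : Language A) (w : List A) : {u : List A | u ∈ L ∧ GenLt u w}.Finite :=
  (List.finite_length_le A w.length).subset fun _ hu => genLt_length hu.2

lemma val_lt {L : Language A} {u w : List A} (hu : u ∈ L) (h : GenLt u w) : val L u < val L w := by
  apply Set.ncard_lt_ncard _ (finite_below L w)
  constructor
  · intro x hx
    exact ⟨hx.1, genLt_trans hx.2 h⟩
  · intro hsub
    exact genLt_irrefl u (hsub ⟨hu, h⟩).2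

lemma val_inj {L : Language A} {u w : List A} (hu : u ∈ L) (hw : w ∈ L) (h : val L u = val L w) :
    u = w := by
  by_contra hne
  rcases genLt_total u w hne with h1 | h1
  · exact absurd (val_lt hu h1) (by omega)
  · exact absurd (val_lt hw h1) (by omega)

lemma val_append_le (L : Language A) (p s t : List A) (hst : s.length = t.length) :
    val L (p ++ t) ≤ val L (p ++ s) + {y : List A | y.length = s.length}.ncard := by
  have hsub : {u : List A | u ∈ L ∧ GenLt u (p ++ t)} ⊆
      {u : List A | u ∈ L ∧ GenLt u (p ++ s)} ∪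
        (fun y => p ++ y) '' {y : List A | y.length = s.length} := by
    rintro u ⟨hu, h⟩
    by_cases h1 : GenLt u (p ++ s)
    · exact Or.inl ⟨hu, h1⟩
    · right
      rw [genLt_iff] at h h1
      simp only [List.length_append] at h h1
      push Not at h1
      rcases h with h | ⟨h, h'⟩
      · omega
      · obtain ⟨y, rfl⟩ := between_prefix p s t u (not_lt.mpr (h1.2 (by omega))) h'
        refine ⟨y, ?_, rfl⟩
        simp only [List.length_append] at h
        change y.length = s.length
        omega
  have hf := List.finite_length_eq A s.length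
  calc val L (p ++ t) ≤ _ := Set.ncard_le_ncard hsub ((finite_below L _).union (hf.image _))
    _ ≤ _ := Set.ncard_union_le _ _
    _ ≤ _ := Nat.add_le_add_left (Set.ncard_image_le hf) _

/-- slenderness: if the gaps of `X` tend to infinity and `rep L X` is regular, then `rep L X`
has boundedly many words of each length -/
theorem slender (L : Language A) (X : Set ℕ) (hreg : (rep L X).IsRegular)
    (hgap : ∀ G : ℕ, {x | x ∈ X ∧ ∃ y ∈ X, x < y ∧ y ≤ x + G}.Finite) :
    ∃ K : ℕ, ∀ n, count (rep L X) n ≤ K := by
  set R := rep L X with hR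
  have hfin := hreg.finite_range_leftQuotient
  have hF : (⋃ c ∈ {c | c ∈ Set.range R.leftQuotient ∧ (R.leftQuotient ⁻¹' {c}).Finite},
      R.leftQuotient ⁻¹' {c}).Finite :=
    (hfin.subset fun c hc => hc.1).biUnion fun c hc => hc.2
  obtain ⟨N, hN⟩ := (hF.image List.length).bddAbove
  have hinf : ∀ p : List A, N < p.length → (R.leftQuotient ⁻¹' {R.leftQuotient p}).Infinite := by
    intro p hp hfp
    have : p.length ≤ N := hN ⟨p, by
      simp only [Set.mem_iUnion]
      exact ⟨R.leftQuotient p, ⟨⟨p, rfl⟩, hfp⟩, rfl⟩, rfl⟩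
    omega
  have key : ∀ p s t : List A, N < p.length → s.length = t.length → s < t → p ++ s ∈ R →
      p ++ t ∈ R → False := by
    intro p s t hp hst hlt hs ht
    apply hinf p hp
    have hG := hgap {y : List A | y.length = s.length}.ncard
    have hmem : ∀ q ∈ R.leftQuotient ⁻¹' {R.leftQuotient p}, q ++ s ∈ R ∧ q ++ t ∈ R := by
      intro q hq
      have hq' : R.leftQuotient q = R.leftQuotient p := hq
      rw [← Language.mem_leftQuotient, ← Language.mem_leftQuotient, hq']
      exact ⟨hs, ht⟩
    refine Set.Finite.of_finite_image (f := fun q => val L (q ++ s)) (hG.subset ?_) ?_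
    · rintro _ ⟨q, hq, rfl⟩
      obtain ⟨h1, h2⟩ := hmem q hq
      refine ⟨h1.2, val L (q ++ t), h2.2, val_lt h1.1 ?_, val_append_le L q s t hst⟩
      rw [genLt_iff]
      right
      exact ⟨by simp [hst], append_lt q s t hlt⟩
    · intro q hq q' hq' h
      exact List.append_cancel_right (val_inj (hmem q hq).1.1 (hmem q' hq').1.1 h)
  refine ⟨{l : List A | l.length ≤ N + 1}.ncard, fun n => ?_⟩
  refine Set.ncard_le_ncard_of_injOn (fun w => w.take (N + 1)) ?_ ?_ (List.finite_length_le A _)
  · intro w _
    simp only [Set.mem_ofPred_eq, List.length_take]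
    omega
  · rintro u ⟨hu, hun⟩ w ⟨hw, hwn⟩ h
    dsimp only at h
    by_contra hne
    by_cases hn : n ≤ N + 1
    · rw [List.take_of_length_le (by omega), List.take_of_length_le (by omega)] at h
      exact hne h
    · have e1 := List.take_append_drop (N + 1) u
      have e2 := List.take_append_drop (N + 1) w
      have hl : N < (u.take (N + 1)).length := by
        simp only [List.length_take]; omega
      have hne' : u.drop (N + 1) ≠ w.drop (N + 1) := by
        intro h'
        apply hne
        rw [← e1, ← e2, h, h']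
      have hlen : (u.drop (N + 1)).length = (w.drop (N + 1)).length := by
        simp only [List.length_drop]; omega
      rcases lt_or_gt_of_ne hne' with h1 | h1
      · exact key _ _ _ hl hlen h1 (by rw [e1]; exact hu) (by rw [h, e2]; exact hw)
      · exact key _ _ _ hl hlen.symm h1 (by rw [h, e2]; exact hw) (by rw [e1]; exact hu)

/-- the number of words of `L` of length less than `n` -/
noncomputable def cum (L : Language A) (n : ℕ) : ℕ := {w : List A | w ∈ L ∧ w.length < n}.ncard

omit [LinearOrder A] in
lemma cum_succ (L : Language A) (n : ℕ) : cum L (n + 1) = cum L n + count L n := by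
  unfold cum count
  rw [← Set.ncard_union_eq _ ((List.finite_length_lt A n).subset fun _ h => h.2)
    ((List.finite_length_eq A n).subset fun _ h => h.2)]
  · congr 1
    ext w
    simp only [Set.mem_ofPred_eq, Set.mem_union]
    constructor
    · rintro ⟨h1, h2⟩
      rcases Nat.lt_succ_iff_lt_or_eq.mp h2 with h | h
      · exact Or.inl ⟨h1, h⟩
      · exact Or.inr ⟨h1, h⟩
    · rintro (⟨h1, h2⟩ | ⟨h1, h2⟩) <;> exact ⟨h1, by omega⟩
  · rw [Set.disjoint_left]
    rintro w ⟨_, h1⟩ ⟨_, h2⟩
    omega

omit [LinearOrder A] [Fintype A] in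
lemma cum_zero (L : Language A) : cum L 0 = 0 := by simp [cum]

lemma val_lt_cum {L : Language A} {w : List A} (hw : w ∈ L) {n : ℕ} (h : w.length < n) :
    val L w < cum L n := by
  apply Set.ncard_lt_ncard _ ((List.finite_length_lt A n).subset fun _ h => h.2)
  constructor
  · intro x hx
    exact ⟨hx.1, lt_of_le_of_lt (genLt_length hx.2) h⟩
  · intro hsub
    exact genLt_irrefl w (hsub ⟨hw, h⟩).2

lemma cum_le_val (L : Language A) {w : List A} {n : ℕ} (h : n ≤ w.length) :
    cum L n ≤ val L w := by
  apply Set.ncard_le_ncard _ (finite_below L w)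
  intro x hx
  exact ⟨hx.1, Or.inl (lt_of_lt_of_le hx.2 h)⟩

lemma exists_val (L : Language A) (n x : ℕ) (hx : x < cum L n) :
    ∃ w ∈ L, w.length < n ∧ val L w = x := by
  have hf : {w : List A | w ∈ L ∧ w.length < n}.Finite :=
    (List.finite_length_lt A n).subset fun _ h => h.2
  have h1 : val L '' {w : List A | w ∈ L ∧ w.length < n} ⊆ Set.Iio (cum L n) := by
    rintro _ ⟨w, hw, rfl⟩
    exact val_lt_cum hw.1 hw.2
  have h2 : (val L '' {w : List A | w ∈ L ∧ w.length < n}).ncard = cum L n :=
    Set.InjOn.ncard_image fun u hu w hw h => val_inj hu.1 hw.1 h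
  have h3 := Set.eq_of_subset_of_ncard_le h1 (by rw [h2]; simp) (Set.finite_Iio _)
  have : x ∈ val L '' {w : List A | w ∈ L ∧ w.length < n} := by rw [h3]; exact hx
  obtain ⟨w, hw, rfl⟩ := this
  exact ⟨w, hw.1, hw.2, rfl⟩

/-- a strictly increasing run of elements of `X` inside the block of length `n` is short -/
lemma run_le (L : Language A) (X : Set ℕ) (n m : ℕ) (g : ℕ → ℕ) (hg : StrictMono g)
    (hX : ∀ i, g i ∈ X) (h0 : cum L n ≤ g 0) (h1 : g m < cum L (n + 1)) :
    m + 1 ≤ count (rep L X) n := by
  have hch : ∀ i : Fin (m + 1), ∃ w, (w ∈ rep L X ∧ w.length = n) ∧ val L w = g i := by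
    intro i
    obtain ⟨w, hw, hl, hv⟩ := exists_val L (n + 1) (g i)
      (lt_of_le_of_lt (hg.monotone (by omega)) h1)
    refine ⟨w, ⟨⟨hw, hv ▸ hX i⟩, ?_⟩, hv⟩
    by_contra hne
    have := val_lt_cum hw (show w.length < n by omega)
    have := hg.monotone (Nat.zero_le i)
    omega
  choose w hw hv using hch
  have hinj : Function.Injective w := by
    intro i j h
    apply Fin.ext
    apply hg.injective
    rw [← hv, ← hv, h]
  have := Set.ncard_le_ncard_of_injOn (s := (Set.univ : Set (Fin (m + 1))))
    (t := {w : List A | w ∈ rep L X ∧ w.length = n}) w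
    (fun i _ => hw i) hinj.injOn ((List.finite_length_eq A n).subset fun _ h => h.2)
  simpa [Set.ncard_univ, count] using this

theorem upper (L : Language A) (X : Set ℕ) (K : ℕ) (hK : ∀ n, count (rep L X) n ≤ K)
    (g : ℕ → ℕ) (hg : StrictMono g) (hX : ∀ i, g i ∈ X) (C e : ℕ)
    (hC : ∀ i, g (i + 1) ≤ g i + C * (i + 1) ^ e) :
    ∃ D : ℕ, ∀ n, count L n ≤ D * (n + 1) ^ e := by
  classical
  -- `cum L n ≤ g (K * n)`
  have hstep : ∀ n a, cum L n ≤ g a → cum L (n + 1) ≤ g (a + K) := by
    intro n a ha
    by_contra hlt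
    have := run_le L X n K (fun i => g (a + i)) (fun i j h => hg (by omega)) (fun i => hX _)
      ha (by omega)
    have := hK n
    omega
  have hcum : ∀ n, cum L n ≤ g (K * n) := by
    intro n
    induction n with
    | zero => simp [cum_zero]
    | succ n ih => exact hstep n _ ih
  have hgrow : ∀ a j, g (a + j) ≤ g a + j * (C * (a + j) ^ e) := by
    intro a j
    induction j with
    | zero => simp
    | succ j ih =>
      have h1 := hC (a + j)
      have h2 : (a + j) ^ e ≤ (a + j + 1) ^ e := Nat.pow_le_pow_left (by omega) e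
      have h3 : j * (C * (a + j) ^ e) ≤ j * (C * (a + j + 1) ^ e) :=
        Nat.mul_le_mul_left _ (Nat.mul_le_mul_left _ h2)
      rw [← add_assoc, add_mul, one_mul]
      omega
  refine ⟨g K + (K + 1) * (C * K ^ e), fun n => ?_⟩
  have hex : ∃ a, cum L n ≤ g a := ⟨_, hcum n⟩
  have ha := Nat.find_spec hex
  have ha' : Nat.find hex ≤ K * n := Nat.find_min' hex (hcum n)
  have hs := hstep n _ ha
  have hsucc := cum_succ L n
  have hpos : 1 ≤ (n + 1) ^ e := Nat.one_le_pow _ _ (by omega)
  rcases Nat.eq_zero_or_pos (Nat.find hex) with h0 | h0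
  · rw [h0, zero_add] at hs
    calc count L n ≤ g K := by omega
      _ ≤ (g K + (K + 1) * (C * K ^ e)) * 1 := by omega
      _ ≤ _ := Nat.mul_le_mul_left _ hpos
  · obtain ⟨b, hb⟩ : ∃ b, Nat.find hex = b + 1 := ⟨Nat.find hex - 1, by omega⟩
    have hmin : ¬ cum L n ≤ g b := Nat.find_min hex (by omega)
    have h1 := hgrow b (K + 1)
    rw [hb] at hs ha'
    have e1 : b + 1 + K = b + (K + 1) := by omega
    rw [e1] at hs
    have h2 : (b + (K + 1)) ^ e ≤ (K * (n + 1)) ^ e := by
      apply Nat.pow_le_pow_left
      rw [mul_add, mul_one]; omega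
    rw [mul_pow] at h2
    have h3 : (K + 1) * (C * (b + (K + 1)) ^ e) ≤ (K + 1) * (C * (K ^ e * (n + 1) ^ e)) :=
      Nat.mul_le_mul_left _ (Nat.mul_le_mul_left _ h2)
    calc count L n ≤ (K + 1) * (C * (K ^ e * (n + 1) ^ e)) := by omega
      _ = ((K + 1) * (C * K ^ e)) * (n + 1) ^ e := by ring
      _ ≤ _ := Nat.mul_le_mul_right _ (by omega)

/-- an infinite regular language of representations has linearly many words -/
theorem lower (L : Language A) (hL : Set.Infinite (L : Set (List A))) (f : ℕ → ℕ)
    (hf : (Set.range f).Infinite) (hreg : (rep L (Set.range f)).IsRegular) :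
    ∃ a b : ℕ, ∀ j, ∃ n, j ≤ n ∧ f n < cum L (a + b * j) := by
  classical
  obtain ⟨σ, _, M, hM⟩ := hreg
  have hcum : ∀ x, ∃ n, x < cum L n := by
    intro x
    obtain ⟨T, hT, hc⟩ := hL.exists_subset_card_eq (x + 1)
    obtain ⟨N, hN⟩ := (T.finite_toSet.image List.length).bddAbove
    refine ⟨N + 1, ?_⟩
    have : (T : Set (List A)).ncard ≤ cum L (N + 1) := by
      apply Set.ncard_le_ncard _ ((List.finite_length_lt A _).subset fun _ h => h.2)
      intro w hw
      exact ⟨hT hw, Nat.lt_succ_of_le (hN ⟨w, hw, rfl⟩)⟩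
    rw [Set.ncard_coe_finset, hc] at this
    omega
  obtain ⟨x, ⟨i, rfl⟩, hx⟩ := hf.exists_gt (cum L (Fintype.card σ))
  obtain ⟨n, hn⟩ := hcum (f i)
  obtain ⟨w, hw, -, hv⟩ := exists_val L n (f i) hn
  have hwl : Fintype.card σ ≤ w.length := by
    by_contra h
    have := val_lt_cum hw (show w.length < Fintype.card σ by omega)
    omega
  have hwM : w ∈ M.accepts := by
    rw [hM]; exact ⟨hw, i, hv.symm⟩
  obtain ⟨a, b, c, -, -, hb, hsub⟩ := M.pumping_lemma hwM hwl
  have hbl : 0 < b.length := List.length_pos_iff.mpr hb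
  let u : ℕ → List A := fun i => a ++ (List.replicate i b).flatten ++ c
  have hu : ∀ i, u i ∈ rep L (Set.range f) := by
    intro i
    rw [← hM]
    apply hsub
    refine Language.append_mem_mul (Language.append_mem_mul rfl ?_) rfl
    apply Language.join_mem_kstar
    intro y hy
    exact List.eq_of_mem_replicate hy
  have hul : ∀ i, (u i).length = a.length + i * b.length + c.length := by
    intro i
    simp [u, add_assoc]
  choose idx hidx using fun i => (hu i).2
  have hinj : Function.Injective idx := by
    intro i j h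
    have h1 : u i = u j := val_inj (hu i).1 (hu j).1 (by rw [← hidx, ← hidx, h])
    have h2 := congrArg List.length h1
    rw [hul, hul] at h2
    exact Nat.eq_of_mul_eq_mul_right hbl (by omega)
  refine ⟨a.length + c.length + 1, b.length, fun j => ?_⟩
  have : ∃ i ≤ j, j ≤ idx i := by
    by_contra h
    push Not at h
    have := Finset.card_le_card_of_injOn (s := Finset.range (j + 1)) (t := Finset.range j) idx
      (fun i hi => by
        simp only [Finset.coe_range, Set.mem_Iio] at hi ⊢
        exact h i (by omega)) hinj.injOn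
    simp at this
  obtain ⟨i, hi, hij⟩ := this
  refine ⟨idx i, hij, ?_⟩
  rw [hidx]
  apply val_lt_cum (hu i).1
  rw [hul]
  have : i * b.length ≤ b.length * j := by rw [mul_comm]; exact Nat.mul_le_mul_left _ hi
  omega

end Pool.Agent.H355Z.ANS
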