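import Mathlib

set_option autoImplicit false

namespace Pool.Agent.H355Z.ANS

/-- the genealogical (radix) order on words: shorter words first, words of equal length are
compared lexicographically -/
def GenLt {A : Type} [LinearOrder A] (u w : List A) : Prop :=
  u.length < w.length ∨ (u.length = w.length ∧ List.Lex (· < ·) u w)

/-- the value of a word: the number of words of `L` that come before it in the genealogical
order -/
noncomputable def val {A : Type} [LinearOrder A] (L : Language A) (w : List A) : ℕ :=
  {u : List A | u ∈ L ∧ GenLt u w}.ncard

/-- the language of the representations of the elements of `X` -/
def rep {A : Type} [LinearOrder A] (L : Language A) (X : Set ℕ) : Language A :=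
  {w : List A | w ∈ L ∧ val L w ∈ X}

/-- the number of words of length `n` in `L` -/
noncomputable def count {A : Type} (L : Language A) (n : ℕ) : ℕ :=
  {w : List A | w ∈ L ∧ w.length = n}.ncard

end Pool.Agent.H355Z.ANS
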