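import Pool.Agent.H355Z.ANSCore

set_option autoImplicit false

namespace Pool.Agent.H355Z.ANS

open Polynomial Filter Asymptotics

lemma abs_eval_le (Q : ℝ[X]) : ∃ C : ℝ, 0 ≤ C ∧ ∀ x : ℝ, 0 ≤ x →
    |Q.eval x| ≤ C * (x + 1) ^ Q.natDegree := by
  refine ⟨∑ i ∈ Finset.range (Q.natDegree + 1), |Q.coeff i|, by positivity, fun x hx => ?_⟩
  rw [eval_eq_sum_range, Finset.sum_mul]
  refine (Finset.abs_sum_le_sum_abs _ _).trans (Finset.sum_le_sum fun i hi => ?_)
  rw [abs_mul, abs_of_nonneg (pow_nonneg hx i)]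
  apply mul_le_mul_of_nonneg_left _ (abs_nonneg _)
  calc x ^ i ≤ (x + 1) ^ i := pow_le_pow_left₀ hx (by linarith) i
    _ ≤ (x + 1) ^ Q.natDegree :=
      pow_le_pow_right₀ (by linarith) (Nat.lt_succ_iff.mp (Finset.mem_range.mp hi))

lemma mvt (Q : ℝ[X]) (x : ℝ) : ∃ ξ ∈ Set.Ioo x (x + 1),
    Q.derivative.eval ξ = Q.eval (x + 1) - Q.eval x := by
  obtain ⟨ξ, hξ, h⟩ := exists_hasDerivAt_eq_slope (fun y => Q.eval y)
    (fun y => Q.derivative.eval y) (show x < x + 1 by linarith) Q.continuous.continuousOn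
    (fun y _ => Q.hasDerivAt y)
  exact ⟨ξ, hξ, by simpa using h⟩

lemma poly_facts (Q : ℝ[X]) (hd : 2 ≤ Q.natDegree) (f : ℕ → ℕ)
    (hf : ∀ n : ℕ, (f n : ℝ) = Q.eval (n : ℝ)) :
    (∀ G : ℕ, ∃ n0 : ℕ, ∀ n ≥ n0, f n + G < f (n + 1)) ∧
    (∃ C : ℕ, ∀ n, f (n + 1) ≤ f n + C * (n + 1) ^ (Q.natDegree - 1)) ∧
    (∃ c : ℝ, 0 < c ∧ ∀ᶠ n : ℕ in atTop, c * (n : ℝ) ^ Q.natDegree ≤ f n) := by
  have hQ : Q ≠ 0 := by rintro rfl; simp at hd
  have hdeg : 0 < Q.degree := natDegree_pos_iff_degree_pos.mp (by omega)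
  have hlc : 0 < Q.leadingCoeff := by
    by_contra h
    have h1 := (Q.tendsto_atBot_of_leadingCoeff_nonpos hdeg (not_lt.mp h)).comp
      tendsto_natCast_atTop_atTop
    obtain ⟨n, hn⟩ := (h1.eventually (eventually_lt_atBot 0)).exists
    simp only [Function.comp, ← hf] at hn
    exact absurd hn (not_lt.mpr (Nat.cast_nonneg _))
  have hdd : Q.derivative.natDegree = Q.natDegree - 1 :=
    natDegree_eq_of_degree_eq_some (degree_derivative (by omega))
  refine ⟨?_, ?_, ?_⟩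
  · intro G
    have hl : 0 ≤ Q.derivative.leadingCoeff := by
      rw [leadingCoeff, hdd, coeff_derivative, show Q.natDegree - 1 + 1 = Q.natDegree by omega]
      exact mul_nonneg hlc.le (by positivity)
    have h1 := Q.derivative.tendsto_atTop_of_leadingCoeff_nonneg
      (natDegree_pos_iff_degree_pos.mp (by omega)) hl
    obtain ⟨x0, hx0⟩ := eventually_atTop.mp (h1.eventually (eventually_gt_atTop (G : ℝ)))
    obtain ⟨n0, hn0⟩ := exists_nat_ge x0
    refine ⟨n0, fun n hn => ?_⟩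
    obtain ⟨ξ, hξ, h⟩ := mvt Q n
    have h2 := hx0 ξ (by
      have : (n0 : ℝ) ≤ n := by exact_mod_cast hn
      linarith [hξ.1])
    have h3 := hf (n + 1)
    push_cast at h3
    rw [h, ← h3, ← hf] at h2
    have : (f n : ℝ) + G < f (n + 1) := by linarith
    exact_mod_cast this
  · obtain ⟨C, hC0, hC⟩ := abs_eval_le Q.derivative
    obtain ⟨C', hC'⟩ := exists_nat_ge (C * 2 ^ (Q.natDegree - 1))
    refine ⟨C', fun n => ?_⟩
    obtain ⟨ξ, hξ, h⟩ := mvt Q n
    have hn : (0 : ℝ) ≤ n := Nat.cast_nonneg _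
    have h2 := hC ξ (by linarith [hξ.1])
    have h3 := hf (n + 1)
    push_cast at h3
    rw [h, ← h3, ← hf, hdd] at h2
    have h4 : (ξ + 1) ^ (Q.natDegree - 1) ≤ (2 * (n + 1)) ^ (Q.natDegree - 1) :=
      pow_le_pow_left₀ (by linarith [hξ.1]) (by linarith [hξ.2]) _
    rw [mul_pow] at h4
    have h5 : (0 : ℝ) ≤ ((n : ℝ) + 1) ^ (Q.natDegree - 1) := by positivity
    have : (f (n + 1) : ℝ) ≤ f n + C' * ((n : ℝ) + 1) ^ (Q.natDegree - 1) := by
      have h6 := le_abs_self ((f (n + 1) : ℝ) - f n)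
      have h7 := mul_le_mul_of_nonneg_left h4 hC0
      have h8 := mul_le_mul_of_nonneg_right hC' h5
      nlinarith
    exact_mod_cast this
  · refine ⟨Q.leadingCoeff / 2, by linarith, ?_⟩
    have h1 := Q.isEquivalent_atTop_lead
    have h2 := (h1.isLittleO.bound (show (0 : ℝ) < 1 / 2 by norm_num))
    have h3 := tendsto_natCast_atTop_atTop.eventually h2
    filter_upwards [h3] with n hn
    have h4 : (0 : ℝ) ≤ Q.leadingCoeff * (n : ℝ) ^ Q.natDegree := by positivity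
    simp only [Pi.sub_apply, Real.norm_eq_abs, abs_of_nonneg h4] at hn
    rw [hf]
    have := neg_abs_le (eval (n : ℝ) Q - Q.leadingCoeff * (n : ℝ) ^ Q.natDegree)
    linarith

lemma gaps (f : ℕ → ℕ) (h : ∀ G : ℕ, ∃ n0 : ℕ, ∀ n ≥ n0, f n + G < f (n + 1)) (G : ℕ) :
    {x | x ∈ Set.range f ∧ ∃ y ∈ Set.range f, x < y ∧ y ≤ x + G}.Finite := by
  obtain ⟨n0, hn0⟩ := h G
  have hmono : StrictMono fun i => f (n0 + i) :=
    strictMono_nat_of_lt_succ fun i => by
      have := hn0 (n0 + i) (by omega)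
      rw [← add_assoc]; omega
  obtain ⟨B, hB⟩ := ((Set.finite_Iic n0).image f).bddAbove
  refine (Set.finite_Iic B).subset ?_
  rintro _ ⟨⟨a, rfl⟩, _, ⟨b, rfl⟩, h1, h2⟩
  by_contra hx
  simp only [Set.mem_Iic, not_le] at hx
  have ha : n0 < a := by
    by_contra h'
    exact absurd (hB ⟨a, not_lt.mp h', rfl⟩) (by omega)
  have hb : n0 < b := by
    by_contra h'
    exact absurd (hB ⟨b, not_lt.mp h', rfl⟩) (by omega)
  obtain ⟨i, rfl⟩ := Nat.exists_eq_add_of_le ha.le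
  obtain ⟨j, rfl⟩ := Nat.exists_eq_add_of_le hb.le
  have hij : i < j := hmono.lt_iff_lt.mp h1
  have h3 : f (n0 + (i + 1)) ≤ f (n0 + j) := hmono.monotone hij
  have h4 := hn0 (n0 + i) (by omega)
  rw [← add_assoc] at h3
  omega

variable {A : Type} [LinearOrder A] [Fintype A]

omit [LinearOrder A] in
lemma cum_le_of_isBigO (L : Language A) (k : ℕ)
    (h : (fun n : ℕ => (count L n : ℝ)) =O[atTop] fun n : ℕ => (n : ℝ) ^ k) :
    ∃ D : ℝ, 0 ≤ D ∧ ∀ n : ℕ, (cum L n : ℝ) ≤ D * (n : ℝ) ^ (k + 1) := by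
  have h1 : (fun n : ℕ => (count L n : ℝ)) =O[atTop] fun n : ℕ => ((n : ℝ) + 1) ^ k := by
    refine h.trans (IsBigO.of_bound 1 (Eventually.of_forall fun n => ?_))
    have hn : (0 : ℝ) ≤ n := Nat.cast_nonneg _
    rw [one_mul, Real.norm_of_nonneg (by positivity), Real.norm_of_nonneg (by positivity)]
    exact pow_le_pow_left₀ hn (by linarith) k
  rw [← Nat.cofinite_eq_atTop] at h1
  obtain ⟨D, hD0, hD⟩ := bound_of_isBigO_cofinite h1
  refine ⟨D, hD0.le, fun n => ?_⟩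
  induction n with
  | zero => simp [cum_zero]
  | succ n ih =>
    have hn : (0 : ℝ) ≤ n := Nat.cast_nonneg _
    have h2 := hD (x := n) (by positivity)
    rw [Real.norm_of_nonneg (by positivity), Real.norm_of_nonneg (by positivity)] at h2
    rw [cum_succ]
    push_cast
    have h3 : (n : ℝ) ^ (k + 1) ≤ n * ((n : ℝ) + 1) ^ k := by
      rw [pow_succ, mul_comm]
      exact mul_le_mul_of_nonneg_left (pow_le_pow_left₀ hn (by linarith) k) hn
    have h4 := mul_le_mul_of_nonneg_left h3 hD0.le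
    rw [pow_succ ((n : ℝ) + 1)]
    nlinarith

theorem main (L : Language A) (hL : Set.Infinite (L : Set (List A))) (P : ℚ[X])
    (hP : ∀ n : ℕ, ∃ m : ℕ, P.eval (n : ℚ) = (m : ℚ)) (hd : 2 ≤ P.natDegree)
    (hreg : (rep L {m : ℕ | ∃ n : ℕ, P.eval (n : ℚ) = (m : ℚ)}).IsRegular) :
    IsLeast {k : ℕ | (fun n : ℕ => (count L n : ℝ)) =O[atTop] fun n : ℕ => (n : ℝ) ^ k}
      (P.natDegree - 1) := by
  choose f hf using hP
  have hX : {m : ℕ | ∃ n : ℕ, P.eval (n : ℚ) = (m : ℚ)} = Set.range f := by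
    ext m
    simp only [Set.mem_ofPred_eq, Set.mem_range, hf, Nat.cast_inj]
  rw [hX] at hreg
  set Q : ℝ[X] := P.map (algebraMap ℚ ℝ) with hQ
  have hQd : Q.natDegree = P.natDegree := natDegree_map _
  have hfQ : ∀ n : ℕ, (f n : ℝ) = Q.eval (n : ℝ) := by
    intro n
    have h1 : (n : ℝ) = algebraMap ℚ ℝ (n : ℚ) := by simp
    rw [hQ, h1, eval_map, eval₂_at_apply, hf]
    simp
  obtain ⟨h1, ⟨C, h2⟩, ⟨c, hc, h3⟩⟩ := poly_facts Q (by omega) f hfQ
  rw [hQd] at h2 h3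
  obtain ⟨n0, hn0⟩ := h1 0
  have hmono : StrictMono fun i => f (n0 + i) :=
    strictMono_nat_of_lt_succ fun i => by
      have := hn0 (n0 + i) (by omega)
      rw [← add_assoc]; omega
  constructor
  · obtain ⟨K, hK⟩ := slender L _ hreg (gaps f h1)
    obtain ⟨D, hD⟩ := upper L _ K hK (fun i => f (n0 + i)) hmono (fun i => ⟨_, rfl⟩)
      (C * (n0 + 1) ^ (P.natDegree - 1)) (P.natDegree - 1) (by
        intro i
        have h4 := h2 (n0 + i)
        have h5 : (n0 + i + 1) ^ (P.natDegree - 1) ≤ ((n0 + 1) * (i + 1)) ^ (P.natDegree - 1) :=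
          Nat.pow_le_pow_left (by nlinarith) _
        rw [mul_pow] at h5
        have h6 := Nat.mul_le_mul_left C h5
        rw [← mul_assoc] at h6
        rw [← add_assoc]
        omega)
    refine IsBigO.of_bound (D * 2 ^ (P.natDegree - 1)) ?_
    filter_upwards [eventually_ge_atTop 1] with n hn
    have hn' : (1 : ℝ) ≤ n := by exact_mod_cast hn
    rw [Real.norm_of_nonneg (by positivity), Real.norm_of_nonneg (by positivity), mul_assoc,
      ← mul_pow]
    have h4 : (count L n : ℝ) ≤ D * ((n : ℝ) + 1) ^ (P.natDegree - 1) := by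
      exact_mod_cast hD n
    refine h4.trans (mul_le_mul_of_nonneg_left ?_ (by positivity))
    exact pow_le_pow_left₀ (by positivity) (by linarith) _
  · intro k hk
    obtain ⟨D, hD0, hD⟩ := cum_le_of_isBigO L k hk
    have hinf : (Set.range f).Infinite :=
      (Set.infinite_range_of_injective hmono.injective).mono (by
        rintro _ ⟨i, rfl⟩; exact ⟨_, rfl⟩)
    obtain ⟨a, b, hab⟩ := lower L hL f hinf hreg
    by_contra hlt
    obtain ⟨N, hN⟩ := eventually_atTop.mp h3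
    obtain ⟨j0, hj0⟩ := exists_nat_gt (D * ((a : ℝ) + b) ^ (k + 1) / c)
    obtain ⟨j, hjN, hj1, hjj⟩ : ∃ j, N ≤ j ∧ 1 ≤ j ∧ j0 ≤ j := ⟨N + j0 + 1, by omega⟩
    obtain ⟨n, hn, hfn⟩ := hab j
    have hj1' : (1 : ℝ) ≤ j := by exact_mod_cast hj1
    have hjn : (j : ℝ) ≤ n := by exact_mod_cast hn
    have e1 := hN n (by omega)
    have e2 : (f n : ℝ) < cum L (a + b * j) := by exact_mod_cast hfn
    have e3 := hD (a + b * j)
    have e4 : (((a + b * j : ℕ) : ℝ)) ^ (k + 1) ≤ (((a : ℝ) + b) * j) ^ (k + 1) := by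
      apply pow_le_pow_left₀ (by positivity)
      push_cast
      have : (0 : ℝ) ≤ a := Nat.cast_nonneg _
      nlinarith
    rw [mul_pow] at e4
    have e5 : (j : ℝ) ^ (k + 1) * j ≤ (n : ℝ) ^ P.natDegree := by
      rw [← pow_succ]
      calc (j : ℝ) ^ (k + 1 + 1) ≤ (j : ℝ) ^ P.natDegree := pow_le_pow_right₀ hj1' (by omega)
        _ ≤ _ := pow_le_pow_left₀ (by positivity) hjn _
    have e6 : D * ((a : ℝ) + b) ^ (k + 1) < c * j := by
      rw [div_lt_iff₀ hc] at hj0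
      have : (j0 : ℝ) ≤ j := by exact_mod_cast hjj
      nlinarith
    have e7 : (0 : ℝ) < (j : ℝ) ^ (k + 1) := by positivity
    have e8 := mul_le_mul_of_nonneg_left e4 hD0
    have e9 := mul_le_mul_of_nonneg_left e5 hc.le
    have e10 := mul_lt_mul_of_pos_right e6 e7
    nlinarith

end Pool.Agent.H355Z.ANS
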