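import Mathlib

set_option autoImplicit false

namespace Pool.Agent.H355Z.Label

open Cardinal

/-- extension of a finite compatible injection to a permutation carrying `P` onto `Q` -/
lemma exists_perm {X J : Type} [Finite J] (P Q : Set X)
    (h1 : #P = #Q) (h2 : #(Pᶜ : Set X) = #(Qᶜ : Set X)) (a b : J → X)
    (ha : Function.Injective a) (hb : Function.Injective b) (hab : ∀ j, a j ∈ P ↔ b j ∈ Q) :
    ∃ π : Equiv.Perm X, (∀ x, x ∈ P ↔ π x ∈ Q) ∧ ∀ j, π (a j) = b j := by
  classical
  obtain ⟨e1⟩ := Cardinal.eq.mp h1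
  obtain ⟨e2⟩ := Cardinal.eq.mp h2
  obtain ⟨s1, hs1⟩ := Equiv.Perm.exists_extending_pair
    (fun j : {j // a j ∈ P} => e1 ⟨a j, j.2⟩) (fun j : {j // a j ∈ P} => (⟨b j, (hab j).mp j.2⟩ : Q))
    (fun j k h => Subtype.ext (ha (congrArg Subtype.val (e1.injective h))))
    (fun j k h => Subtype.ext (hb (congrArg Subtype.val h)))
  obtain ⟨s2, hs2⟩ := Equiv.Perm.exists_extending_pair
    (fun j : {j // a j ∉ P} => e2 ⟨a j, j.2⟩)
    (fun j : {j // a j ∉ P} => (⟨b j, fun h => j.2 ((hab j).mpr h)⟩ : (Qᶜ : Set X)))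
    (fun j k h => Subtype.ext (ha (congrArg Subtype.val (e2.injective h))))
    (fun j k h => Subtype.ext (hb (congrArg Subtype.val h)))
  let f1 : P ≃ Q := e1.trans s1
  let f2 : (Pᶜ : Set X) ≃ (Qᶜ : Set X) := e2.trans s2
  let π : X ≃ X := (Equiv.Set.sumCompl P).symm.trans ((f1.sumCongr f2).trans (Equiv.Set.sumCompl Q))
  have hP : ∀ x (hx : x ∈ P), π x = f1 ⟨x, hx⟩ := by
    intro x hx
    simp [π, Equiv.Set.sumCompl_symm_apply_of_mem hx]
  have hN : ∀ x (hx : x ∉ P), π x = f2 ⟨x, hx⟩ := by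
    intro x hx
    simp [π, Equiv.Set.sumCompl_symm_apply_of_notMem hx]
  refine ⟨π, fun x => ?_, fun j => ?_⟩
  · by_cases hx : x ∈ P
    · rw [hP x hx]; exact ⟨fun _ => (f1 ⟨x, hx⟩).2, fun _ => hx⟩
    · rw [hN x hx]; exact ⟨fun h => absurd h hx, fun h => absurd h (f2 ⟨x, hx⟩).2⟩
  · by_cases hx : a j ∈ P
    · rw [hP _ hx]
      exact congrArg Subtype.val (hs1 ⟨j, hx⟩)
    · rw [hN _ hx]
      exact congrArg Subtype.val (hs2 ⟨j, hx⟩)

/-- a set is proper: nonempty with nonempty complement -/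
def Proper {I : Type} (S : Set I) : Prop := S.Nonempty ∧ Sᶜ.Nonempty

lemma Proper.compl {I : Type} {S : Set I} (h : Proper S) : Proper Sᶜ := ⟨h.2, by simpa using h.1⟩

/-- the big set -/
abbrev Big (I : Type) : Type := I × (I × ℕ)

lemma card_fibre {I : Type} {S : Set I} (h : S.Nonempty) :
    #({x : Big I | x.1 ∈ S} : Set (Big I)) = #(I × ℕ) := by
  obtain ⟨s, hs⟩ := h
  have : Nonempty I := ⟨s⟩
  apply le_antisymm
  · calc #({x : Big I | x.1 ∈ S} : Set (Big I)) ≤ #(Big I) := Cardinal.mk_set_le _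
      _ = #I * #(I × ℕ) := by simp [Big]
      _ ≤ #(I × ℕ) * #(I × ℕ) := by
          gcongr
          exact Cardinal.mk_le_of_injective (f := fun i : I => (i, 0))
            (fun i j h => (Prod.ext_iff.mp h).1)
      _ = #(I × ℕ) := Cardinal.mul_eq_self (Cardinal.aleph0_le_mk _)
  · exact Cardinal.mk_le_of_injective
      (f := fun y : I × ℕ => (⟨(s, y), hs⟩ : ({x : Big I | x.1 ∈ S} : Set (Big I))))
      (fun i j h => (Prod.ext_iff.mp (congrArg Subtype.val h)).2)

/-- two proper sets realise both patterns of some bijection of truth values -/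
lemma exists_delta {I : Type} {S T : Set I} (hS : Proper S) (hT : Proper T) :
    ∃ δ : Prop, ∀ β : Prop, ∃ m : I, (m ∈ S ↔ β) ∧ (m ∈ T ↔ (β ↔ δ)) := by
  obtain ⟨⟨a, ha⟩, ⟨b, hb⟩⟩ := hS
  obtain ⟨⟨c, hc⟩, ⟨d, hd⟩⟩ := hT
  simp only [Set.mem_compl_iff] at hb hd
  by_cases h1 : (∃ m, m ∈ S ∧ m ∈ T) ∧ (∃ m, m ∉ S ∧ m ∉ T)
  · obtain ⟨⟨m1, p1, q1⟩, ⟨m2, p2, q2⟩⟩ := h1
    refine ⟨True, fun β => ?_⟩
    by_cases hβ : β
    · exact ⟨m1, by tauto, by tauto⟩
    · exact ⟨m2, by tauto, by tauto⟩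
  · have h2 : (∃ m, m ∈ S ∧ m ∉ T) ∧ (∃ m, m ∉ S ∧ m ∈ T) := by
      by_cases h3 : ∃ m, m ∈ S ∧ m ∈ T
      · have h4 : ¬ ∃ m, m ∉ S ∧ m ∉ T := fun h => h1 ⟨h3, h⟩
        push Not at h4
        exact ⟨⟨d, by_contra fun h => hd (h4 d h), hd⟩, ⟨b, hb, h4 b hb⟩⟩
      · push Not at h3
        exact ⟨⟨a, ha, h3 a ha⟩, ⟨c, fun h => h3 c h hc, hc⟩⟩
    obtain ⟨⟨m1, p1, q1⟩, ⟨m2, p2, q2⟩⟩ := h2
    refine ⟨False, fun β => ?_⟩
    by_cases hβ : β
    · exact ⟨m1, by tauto, by tauto⟩
    · exact ⟨m2, by tauto, by tauto⟩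

/-- two proper sets that are neither equal nor complementary meet every bijection pattern -/
lemma exists_close {I : Type} {S T : Set I} (h1 : S ≠ T) (h2 : S ≠ Tᶜ) (δ : Prop) :
    ∃ m : I, (m ∈ S ↔ (m ∈ T ↔ δ)) := by
  by_contra h
  push Not at h
  by_cases hδ : δ
  · apply h2
    ext m
    have := h m
    simp only [Set.mem_compl_iff]
    tauto
  · apply h1
    ext m
    have := h m
    tauto

/-- labels along a path -/
lemma exists_path {I : Type} (In Out : ℕ → Set I) (hIn : ∀ k, Proper (In k))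
    (hOut : ∀ k, Proper (Out k)) (n : ℕ) :
    ∃ δ : Prop, ∀ l0 l1 : I, (l0 ∈ Out 0 ↔ (l1 ∈ In n ↔ δ)) →
      ∃ l : ℕ → I, l 0 = l0 ∧ l (n + 1) = l1 ∧ ∀ k ≤ n, (l (k + 1) ∈ In k ↔ l k ∈ Out k) := by
  induction n with
  | zero =>
    refine ⟨True, fun l0 l1 h => ⟨fun k => if k = 0 then l0 else l1, by simp, by simp, ?_⟩⟩
    intro k hk
    obtain rfl : k = 0 := by omega
    simp only [zero_add, one_ne_zero, if_false, if_true]
    tauto
  | succ n ih =>
    obtain ⟨δ, hδ⟩ := ih
    obtain ⟨ε, hε⟩ := exists_delta (hOut (n + 1)) (hIn n)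
    refine ⟨(ε ↔ δ), fun l0 l1 h => ?_⟩
    obtain ⟨m, hm1, hm2⟩ := hε (l1 ∈ In (n + 1))
    obtain ⟨l, hl0, hl1, hl⟩ := hδ l0 m (by tauto)
    refine ⟨fun k => if k = n + 2 then l1 else l k, by simp [hl0], by simp, ?_⟩
    intro k hk
    by_cases hkn : k = n + 1
    · subst hkn
      simp only [if_true, show ¬ (n + 1 = n + 2) by omega, if_false, hl1]
      exact hm1.symm
    · simp only [show ¬ (k + 1 = n + 2) by omega, show ¬ (k = n + 2) by omega, if_false]
      exact hl k (by omega)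

/-- labels around a cycle with one flexible vertex -/
lemma exists_cycle {I : Type} (n : ℕ) (In Out : ZMod (n + 1) → Set I) (hIn : ∀ k, Proper (In k))
    (hOut : ∀ k, Proper (Out k)) (j0 : ZMod (n + 1)) (h1 : Out (j0 + 1) ≠ In j0)
    (h2 : Out (j0 + 1) ≠ (In j0)ᶜ) :
    ∃ l : ZMod (n + 1) → I, ∀ j, (l (j + 1) ∈ In j ↔ l j ∈ Out j) := by
  obtain ⟨δ, hδ⟩ := exists_path (fun k => In (j0 + 1 + k)) (fun k => Out (j0 + 1 + k))
    (fun k => hIn _) (fun k => hOut _) n
  obtain ⟨m, hm⟩ := exists_close h1 h2 δ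
  have hn : j0 + 1 + (n : ZMod (n + 1)) = j0 := by
    have : ((n + 1 : ℕ) : ZMod (n + 1)) = 0 := ZMod.natCast_self _
    push_cast at this
    linear_combination this
  obtain ⟨l, hl0, hl1, hl⟩ := hδ m m (by simpa [hn] using hm)
  refine ⟨fun j => l (j - (j0 + 1)).val, fun j => ?_⟩
  have hk : (j - (j0 + 1)).val < n + 1 := ZMod.val_lt _
  have h3 := hl (j - (j0 + 1)).val (by omega)
  simp only [ZMod.natCast_val, ZMod.cast_id', id_eq, add_sub_cancel] at h3
  have h4 : l (j + 1 - (j0 + 1)).val = l ((j - (j0 + 1)).val + 1) := by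
    have e : j + 1 - (j0 + 1) = (((j - (j0 + 1)).val + 1 : ℕ) : ZMod (n + 1)) := by
      push_cast
      simp only [ZMod.natCast_val, ZMod.cast_id', id_eq]
      ring
    rw [e, ZMod.val_natCast]
    by_cases h5 : (j - (j0 + 1)).val = n
    · rw [h5, Nat.mod_self, hl0, hl1]
    · rw [Nat.mod_eq_of_lt (by omega)]
  simp only [h4]
  exact h3

/-- validity of a labelled action: each generator carries `B` onto `τ v` -/
def Valid {I V X : Type} (B : Set I) (τ : V → Set I) (ρ : FreeGroup V →* Equiv.Perm X)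
    (lab : X → I) : Prop :=
  ∀ v x, lab x ∈ B ↔ lab (ρ (FreeGroup.of v) x) ∈ τ v

theorem exists_fix_cyc {I V : Type} (B : Set I) (τ : V → Set I) (hB : Proper B)
    (hτ : ∀ v, Proper (τ v)) (n : ℕ) (s : ZMod (n + 1) → V × Bool)
    (hs : ∀ j, (s j).1 = (s (j + 1)).1 → (s j).2 = (s (j + 1)).2)
    (j0 : ZMod (n + 1))
    (h1 : (if (s (j0 + 1)).2 then τ (s (j0 + 1)).1 else B) ≠
      (if (s j0).2 then B else τ (s j0).1))
    (h2 : (if (s (j0 + 1)).2 then τ (s (j0 + 1)).1 else B) ≠
      (if (s j0).2 then B else τ (s j0).1)ᶜ) :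
    ∃ (ρ : FreeGroup V →* Equiv.Perm (Big I)) (y : ZMod (n + 1) → Big I),
      Valid B τ ρ Prod.fst ∧ ∀ j, ρ (FreeGroup.mk [s j]) (y (j + 1)) = y j := by
  classical
  obtain ⟨l, hl⟩ := exists_cycle n (fun j => if (s j).2 then B else τ (s j).1)
    (fun j => if (s j).2 then τ (s j).1 else B)
    (fun j => by split_ifs; exacts [hB, hτ _])
    (fun j => by split_ifs; exacts [hτ _, hB]) j0 h1 h2
  let y : ZMod (n + 1) → Big I := fun j => (l j, (l 0, j.val))
  have hy : Function.Injective y := by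
    intro i j h
    have : i.val = j.val := (Prod.ext_iff.mp (Prod.ext_iff.mp h).2).2
    exact ZMod.val_injective _ this
  have key : ∀ v : V, ∃ π : Equiv.Perm (Big I), (∀ x : Big I, x.1 ∈ B ↔ (π x).1 ∈ τ v) ∧
      ∀ j : {j // (s j).1 = v}, π (y (if (s j).2 then j.1 + 1 else j.1)) =
        y (if (s j).2 then j.1 else j.1 + 1) := by
    intro v
    refine exists_perm {x : Big I | x.1 ∈ B} {x : Big I | x.1 ∈ τ v}
      ((card_fibre hB.1).trans (card_fibre (hτ v).1).symm)
      ((card_fibre hB.2).trans (card_fibre (hτ v).2).symm)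
      (fun j : {j // (s j).1 = v} => y (if (s j).2 then j.1 + 1 else j.1))
      (fun j : {j // (s j).1 = v} => y (if (s j).2 then j.1 else j.1 + 1)) ?_ ?_ ?_
    · rintro ⟨i, hi⟩ ⟨j, hj⟩ h
      have h := hy h
      apply Subtype.ext
      dsimp only at h ⊢
      split_ifs at h with a b b
      · exact add_right_cancel h
      · have := hs i (by rw [h, hi, hj])
        rw [h] at this
        exact absurd (this ▸ a) b
      · have := hs j (by rw [← h, hi, hj])
        rw [← h] at this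
        exact absurd (this ▸ b) a
      · exact h
    · rintro ⟨i, hi⟩ ⟨j, hj⟩ h
      have h := hy h
      apply Subtype.ext
      dsimp only at h ⊢
      split_ifs at h with a b b
      · exact h
      · have := hs j (by rw [← h, hi, hj])
        rw [← h] at this
        exact absurd (this ▸ a) b
      · have := hs i (by rw [h, hi, hj])
        rw [h] at this
        exact absurd (this ▸ b) a
      · exact add_right_cancel h
    · rintro ⟨j, hj⟩
      have := hl j
      simp only [Set.mem_ofPred_eq, y]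
      split_ifs at this ⊢ with a
      · rw [← hj]; exact this
      · rw [← hj]; exact this.symm
  choose π hπ1 hπ2 using key
  refine ⟨FreeGroup.lift π, y, ?_, ?_⟩
  · intro v x
    rw [FreeGroup.lift_apply_of]
    exact hπ1 v x
  · intro j
    have := hπ2 (s j).1 ⟨j, rfl⟩
    dsimp only at this
    rw [FreeGroup.lift_mk]
    cases hb : (s j).2
    · simp only [hb, Bool.false_eq_true, if_false] at this
      simp [hb, ← this]
    · simp only [hb, if_true] at this
      simp [hb, this]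

lemma exists_valid {I V : Type} (B : Set I) (τ : V → Set I) (hB : Proper B)
    (hτ : ∀ v, Proper (τ v)) :
    ∃ ρ : FreeGroup V →* Equiv.Perm (Big I), Valid B τ ρ Prod.fst := by
  have key : ∀ v : V, ∃ π : Equiv.Perm (Big I), (∀ x : Big I, x.1 ∈ B ↔ (π x).1 ∈ τ v) := by
    intro v
    obtain ⟨π, h, -⟩ := exists_perm {x : Big I | x.1 ∈ B} {x : Big I | x.1 ∈ τ v}
      ((card_fibre hB.1).trans (card_fibre (hτ v).1).symm)
      ((card_fibre hB.2).trans (card_fibre (hτ v).2).symm)
      (Empty.elim : Empty → Big I) Empty.elim (fun a => a.elim) (fun a => a.elim)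
      (fun a => a.elim)
    exact ⟨π, h⟩
  choose π hπ using key
  refine ⟨FreeGroup.lift π, fun v x => ?_⟩
  rw [FreeGroup.lift_apply_of]
  exact hπ v x

lemma mk_eq_zpow {V : Type} (v0 : V) (L : List (V × Bool)) (h : ∀ a ∈ L, a.1 = v0) :
    ∃ k : ℤ, FreeGroup.mk L = FreeGroup.of v0 ^ k := by
  induction L with
  | nil => exact ⟨0, by simp [FreeGroup.one_eq_mk]⟩
  | cons a L ih =>
    obtain ⟨k, hk⟩ := ih fun b hb => h b (List.mem_cons_of_mem _ hb)
    have ha := h a List.mem_cons_self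
    obtain ⟨v, b⟩ := a
    dsimp only at ha
    subst ha
    have e : FreeGroup.mk ((v, b) :: L) = FreeGroup.mk [(v, b)] * FreeGroup.mk L := by
      rw [FreeGroup.mul_mk]; rfl
    cases b
    · refine ⟨-1 + k, ?_⟩
      rw [e, hk, zpow_add, zpow_neg_one]
      rfl
    · refine ⟨1 + k, ?_⟩
      rw [e, hk, zpow_add, zpow_one]
      rfl

theorem exists_fix {I V : Type} (B : Set I) (τ : V → Set I) (hB : Proper B)
    (hτ : ∀ v, Proper (τ v)) (v0 : V) (h0 : τ v0 = Bᶜ)
    (hsep : ∀ v v', (τ v = τ v' ∨ τ v = (τ v')ᶜ) → v = v') (w : FreeGroup V) :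
    (∃ (u : FreeGroup V) (k : ℤ), k ≠ 0 ∧ w = u * FreeGroup.of v0 ^ k * u⁻¹) ∨
      ∃ (ρ : FreeGroup V →* Equiv.Perm (Big I)) (y : Big I),
        Valid B τ ρ Prod.fst ∧ ρ w y = y := by
  classical
  set L := FreeGroup.reduceCyclically w.toWord with hL
  set u := FreeGroup.mk (FreeGroup.reduceCyclically.conjugator w.toWord) with hu
  have hw : w = u * FreeGroup.mk L * u⁻¹ := by
    rw [hu, hL, FreeGroup.inv_mk, FreeGroup.mul_mk, FreeGroup.mul_mk,
      FreeGroup.reduceCyclically.conj_conjugator_reduceCyclically, FreeGroup.mk_toWord]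
  have hc : FreeGroup.IsCyclicallyReduced L :=
    FreeGroup.reduceCyclically.isCyclicallyReduced FreeGroup.isReduced_toWord
  clear_value L u
  by_cases hall : ∀ a ∈ L, a.1 = v0
  · obtain ⟨k, hk⟩ := mk_eq_zpow v0 L hall
    by_cases hk0 : k = 0
    · right
      obtain ⟨ρ, hρ⟩ := exists_valid B τ hB hτ
      obtain ⟨i, -⟩ := hB.1
      refine ⟨ρ, (i, (i, 0)), hρ, ?_⟩
      rw [hw, hk, hk0]
      simp
    · left
      exact ⟨u, k, hk0, by rw [hw, hk]⟩
  · right
    obtain ⟨n, hn⟩ : ∃ n, L.length = n + 1 := by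
      cases L with
      | nil => simp at hall
      | cons a L => exact ⟨L.length, rfl⟩
    let s : ZMod (n + 1) → V × Bool := fun j => L[j.val]'(by rw [hn]; exact ZMod.val_lt j)
    have hsn : ∀ (m : ℕ) (hm : m < L.length), s (m : ZMod (n + 1)) = L[m] := by
      intro m hm
      simp only [s, ZMod.val_natCast, Nat.mod_eq_of_lt (hn ▸ hm)]
    have hs : ∀ j, (s j).1 = (s (j + 1)).1 → (s j).2 = (s (j + 1)).2 := by
      intro j
      have hj : j.val < n + 1 := ZMod.val_lt j
      have e1 : s j = L[j.val]'(by omega) := rfl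
      have e2 : j + 1 = ((j.val + 1 : ℕ) : ZMod (n + 1)) := by
        push_cast
        simp
      by_cases hjn : j.val = n
      · have e3 : j + 1 = ((0 : ℕ) : ZMod (n + 1)) := by
          rw [e2, hjn, ZMod.natCast_self]; simp
        rw [e3, hsn 0 (by omega), e1]
        apply hc.2
        · rw [List.getLast?_eq_getElem?, Option.mem_def, List.getElem?_eq_some_iff]
          exact ⟨by omega, by simp only [hn, hjn, Nat.add_sub_cancel]⟩
        · rw [List.head?_eq_getElem?, Option.mem_def, List.getElem?_eq_some_iff]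
          exact ⟨by omega, rfl⟩
      · rw [e2, hsn _ (by omega), e1]
        exact List.isChain_iff_getElem.mp hc.1 j.val (by omega)
    have hspec : ∃ j0, (if (s (j0 + 1)).2 then (s (j0 + 1)).1 else v0) ≠
        (if (s j0).2 then v0 else (s j0).1) := by
      by_contra hcon
      push Not at hcon
      apply hall
      intro a ha
      obtain ⟨m, hm, rfl⟩ := List.getElem_of_mem ha
      rw [← hsn m hm]
      generalize (m : ZMod (n + 1)) = j
      by_contra hne
      cases hb : (s j).2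
      · have h1 := hcon j
        have h2 := hs j
        simp only [hb, Bool.false_eq_true, if_false] at h1 h2
        split_ifs at h1 with h3
        · rw [h3] at h2
          exact absurd (h2 h1.symm) (by simp)
        · exact hne h1.symm
      · have h1 := hcon (j - 1)
        have h2 := hs (j - 1)
        simp only [sub_add_cancel, hb, if_true] at h1 h2
        split_ifs at h1 with h3
        · exact hne h1
        · exact h3 (h2 h1.symm)
    obtain ⟨j0, hj0⟩ := hspec
    have hBc : B = (τ v0)ᶜ := by rw [h0, compl_compl]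
    obtain ⟨ρ, y, hρ, hy⟩ := exists_fix_cyc B τ hB hτ n s hs j0
      (by
        intro h
        apply hj0
        split_ifs at h ⊢ with a b b
        · exact hsep _ _ (Or.inr (h.trans hBc))
        · exact hsep _ _ (Or.inl h)
        · rfl
        · exact hsep _ _ (Or.inr (by rw [← h, h0]))) 
      (by
        intro h
        apply hj0
        split_ifs at h ⊢ with a b b
        · exact hsep _ _ (Or.inl (h.trans h0.symm))
        · exact hsep _ _ (Or.inr h)
        · rfl
        · exact hsep _ _ (Or.inl (by rw [h0, h, compl_compl])))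
    have hpath : ∀ m ≤ L.length, ρ (FreeGroup.mk (L.take m)) (y (m : ZMod (n + 1))) = y 0 := by
      intro m
      induction m with
      | zero => intro _; simp [← FreeGroup.one_eq_mk]
      | succ m ih =>
        intro hm
        have hm' : m < L.length := hm
        rw [List.take_succ_eq_append_getElem hm', ← FreeGroup.mul_mk, map_mul,
          Equiv.Perm.mul_apply, ← hsn m hm']
        push_cast
        rw [hy, ih hm'.le]
    have hfix := hpath L.length le_rfl
    rw [List.take_length, hn, ZMod.natCast_self] at hfix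
    refine ⟨ρ, ρ u (y 0), hρ, ?_⟩
    rw [← Equiv.Perm.mul_apply, ← map_mul, hw, inv_mul_cancel_right, map_mul,
      Equiv.Perm.mul_apply, hfix]

lemma cyclic_of_comm {V : Type} (S : Subgroup (FreeGroup V))
    (h : ∀ a ∈ S, ∀ b ∈ S, a * b = b * a) :
    ∃ w ∈ S, ∀ a ∈ S, ∃ k : ℤ, a = w ^ k := by
  classical
  have hsub : Subsingleton (IsFreeGroup.Generators S) := by
    refine ⟨fun a b => ?_⟩
    by_contra hab
    let f : IsFreeGroup.Generators S → Equiv.Perm (Fin 3) :=
      fun c => if c = a then Equiv.swap 0 1 else Equiv.swap 1 2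
    have h1 : IsFreeGroup.of a * IsFreeGroup.of b = IsFreeGroup.of b * IsFreeGroup.of a :=
      Subtype.ext (h _ (IsFreeGroup.of a).2 _ (IsFreeGroup.of b).2)
    have h2 := congrArg (IsFreeGroup.lift f) h1
    simp only [map_mul, IsFreeGroup.lift_of, f, if_true, if_neg (Ne.symm hab)] at h2
    revert h2
    decide
  have hcyc : IsCyclic S := by
    have : IsCyclic (FreeGroup (IsFreeGroup.Generators S)) := by
      rcases isEmpty_or_nonempty (IsFreeGroup.Generators S) with h1 | ⟨⟨a⟩⟩
      · infer_instance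
      · have : Unique (IsFreeGroup.Generators S) := uniqueOfSubsingleton a
        infer_instance
    exact (IsFreeGroup.mulEquiv S).isCyclic.mp this
  obtain ⟨w, hw⟩ := hcyc.exists_generator
  refine ⟨w, w.2, fun a ha => ?_⟩
  obtain ⟨k, hk⟩ := hw ⟨a, ha⟩
  exact ⟨k, by rw [← Subgroup.coe_zpow]; exact (congrArg Subtype.val hk).symm⟩

/-- The labelling theorem for a locally commutative action of a free group in which no nonzero
power of the complementing generator has a fixed point. -/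
theorem exists_label {I V Z : Type} (B : Set I) (τ : V → Set I) (hB : Proper B)
    (hτ : ∀ v, Proper (τ v)) (v0 : V) (h0 : τ v0 = Bᶜ)
    (hsep : ∀ v v', (τ v = τ v' ∨ τ v = (τ v')ᶜ) → v = v') [MulAction (FreeGroup V) Z]
    (hcomm : ∀ (z : Z) (a b : FreeGroup V), a • z = z → b • z = z → a * b = b * a)
    (hfree : ∀ (z : Z) (k : ℤ), k ≠ 0 → FreeGroup.of v0 ^ k • z ≠ z) :
    ∃ lab : Z → I, ∀ v z, lab z ∈ B ↔ lab (FreeGroup.of v • z) ∈ τ v := by
  have key : ∀ z : Z, ∃ (ρ : FreeGroup V →* Equiv.Perm (Big I)) (y : Big I),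
      Valid B τ ρ Prod.fst ∧ ∀ a : FreeGroup V, a • z = z → ρ a y = y := by
    intro z
    obtain ⟨w, hw, hgen⟩ := cyclic_of_comm (MulAction.stabilizer (FreeGroup V) z)
      (fun a ha b hb => hcomm z a b ha hb)
    rcases exists_fix B τ hB hτ v0 h0 hsep w with ⟨u, k, hk, h⟩ | ⟨ρ, y, hρ, hy⟩
    · exfalso
      apply hfree (u⁻¹ • z) k hk
      have hw' : w • z = z := hw
      rw [h, mul_smul, mul_smul] at hw'
      rw [← inv_smul_eq_iff.mpr hw'.symm]
    · refine ⟨ρ, y, hρ, fun a ha => ?_⟩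
      obtain ⟨k, rfl⟩ := hgen a ha
      rw [map_zpow]
      exact Equiv.Perm.zpow_apply_eq_self_of_apply_eq_self hy k
  choose ρ y hρ hy using key
  let r : Z → Z := fun z => (Quotient.mk (MulAction.orbitRel (FreeGroup V) Z) z).out
  have hr : ∀ z, ∃ u : FreeGroup V, u • r z = z := by
    intro z
    have : MulAction.orbitRel (FreeGroup V) Z z (r z) :=
      (MulAction.orbitRel (FreeGroup V) Z).symm
        (Quotient.mk_out (s := MulAction.orbitRel (FreeGroup V) Z) z)
    exact MulAction.orbitRel_apply.mp this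
  choose u hu using hr
  have hrg : ∀ (g : FreeGroup V) z, r (g • z) = r z := by
    intro g z
    have : Quotient.mk (MulAction.orbitRel (FreeGroup V) Z) (g • z) =
        Quotient.mk (MulAction.orbitRel (FreeGroup V) Z) z :=
      Quotient.sound (MulAction.orbitRel_apply.mpr (MulAction.mem_orbit z g))
    simp only [r, this]
  refine ⟨fun z => (ρ (r z) (u z) (y (r z))).1, fun v z => ?_⟩
  have h1 : ((u (FreeGroup.of v • z))⁻¹ * (FreeGroup.of v * u z)) • r z = r z := by
    rw [mul_smul, mul_smul, hu, inv_smul_eq_iff, ← hrg (FreeGroup.of v) z, hu]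
  have h2 := hy _ _ h1
  rw [map_mul, map_inv, Equiv.Perm.mul_apply, Equiv.Perm.inv_eq_iff_eq] at h2
  simp only [hrg]
  rw [← h2, map_mul, Equiv.Perm.mul_apply]
  exact hρ (r z) v _

end Pool.Agent.H355Z.Label
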