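import Pool.Agent.H355Z.FreeSL2
import Pool.Agent.H355Z.Label

set_option autoImplicit false

namespace Pool.Agent.H355Z.Congr

open Cardinal Pool.Agent.H355Z.FreeSL2 Pool.Agent.H355Z.Label
open scoped MatrixGroups UpperHalfPlane

/-- all members of a family of at most continuum many proper sets can be made congruent -/
theorem exists_lab {I K : Type} (hK : #K ≤ continuum) (i0 i1 : I) (hi : i1 ≠ i0) (S : K → Set I)
    (hS : ∀ k, Proper (S k)) :
    ∃ lab : ℍ → I, ∀ k k', ∃ g : SL(2, ℝ), ∀ z, lab z ∈ S k ↔ lab (g • z) ∈ S k' := by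
  classical
  let N : Option (Option K) → Set I := fun o =>
    match o with
    | none => {i0}
    | some none => {i1}ᶜ
    | some (some k) => if i0 ∈ S k then S k else (S k)ᶜ
  have hN0 : ∀ o, i0 ∈ N o := by
    rintro (_ | _ | k)
    · simp [N]
    · simp [N, hi.symm]
    · simp only [N]
      split_ifs with h
      · exact h
      · exact h
  have hNp : ∀ o, Proper (N o) := by
    rintro (_ | _ | k)
    · exact ⟨⟨i0, by simp [N]⟩, ⟨i1, by simp [N, hi]⟩⟩
    · exact ⟨⟨i0, by simp [N, hi.symm]⟩, ⟨i1, by simp [N]⟩⟩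
    · simp only [N]
      split_ifs with h
      · exact hS k
      · exact (hS k).compl
  -- generators: the sets in the range of `N`; one dummy copy of the base set is added
  let V : Type := Option (Set.range N)
  let v0 : V := some ⟨N none, none, rfl⟩
  have : Nontrivial V := ⟨⟨none, v0, by simp [v0]⟩⟩
  have hV : #V ≤ continuum := by
    have h1 : #(Set.range N) ≤ #(Option (Option K)) := Cardinal.mk_range_le
    have h2 : ∀ c : Cardinal, c ≤ continuum → c + 1 ≤ continuum := by
      intro c hc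
      calc c + 1 ≤ continuum + continuum :=
            add_le_add hc (le_trans Cardinal.one_le_aleph0 aleph0_le_continuum)
        _ = continuum := Cardinal.add_eq_self aleph0_le_continuum
    rw [Cardinal.mk_option, Cardinal.mk_option] at h1
    change #(Option (Set.range N)) ≤ _
    rw [Cardinal.mk_option]
    exact h2 _ (h1.trans (h2 _ (h2 _ hK)))
  obtain ⟨ρ, hρ, hpar⟩ := exists_free V hV
  let W : Type := Set.range N
  let w0 : W := ⟨N none, none, rfl⟩
  let ρ' : FreeGroup W →* SL(2, ℝ) := ρ.comp (FreeGroup.map some)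
  have hρ' : Function.Injective ρ' :=
    hρ.comp (FreeGroup.map_injective (Option.some_injective _))
  letI : MulAction (FreeGroup W) ℍ := MulAction.compHom ℍ ρ'
  have hsm : ∀ (a : FreeGroup W) (z : ℍ), a • z = ρ' a • z := fun _ _ => rfl
  let τ : W → Set I := fun w => if w = w0 then (N none)ᶜ else w.1
  have hWp : ∀ w : W, Proper w.1 := by
    rintro ⟨_, o, rfl⟩; exact hNp o
  have hW0 : ∀ w : W, i0 ∈ w.1 := by
    rintro ⟨_, o, rfl⟩; exact hN0 o
  obtain ⟨lab, hlab⟩ := exists_label (Z := ℍ) (N none) τ (hNp none)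
    (by
      intro w
      simp only [τ]
      split_ifs
      · exact (hNp none).compl
      · exact hWp w) w0 (by simp [τ])
    (by
      intro w w' h
      simp only [τ] at h
      split_ifs at h with a b b
      · rw [a, b]
      · rcases h with h | h
        · exact absurd (h ▸ hW0 w' : i0 ∈ (N none)ᶜ) (not_not.mpr (hN0 none))
        · exact absurd (Subtype.ext (compl_injective h).symm) b
      · rcases h with h | h
        · exact absurd (h ▸ hW0 w : i0 ∈ (N none)ᶜ) (not_not.mpr (hN0 none))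
        · rw [compl_compl] at h
          exact absurd (Subtype.ext h) a
      · rcases h with h | h
        · exact Subtype.ext h
        · exact absurd (h ▸ hW0 w : i0 ∈ (w'.1)ᶜ) (not_not.mpr (hW0 w')))
    (by
      intro z a b ha hb
      apply hρ'
      rw [map_mul, map_mul]
      exact comm_of_fix _ _ z ha hb)
    (by
      intro z k hk
      obtain ⟨t, c, hc, h⟩ := hpar (some w0)
      have e : ρ' (FreeGroup.of w0) = par t c := by
        rw [← h]; simp [ρ']
      rw [hsm, map_zpow, e, par_zpow]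
      exact par_no_fix _ _ (mul_ne_zero (by exact_mod_cast hk) hc) z)
  let C : Set I → Set I → Prop := fun A B => ∃ g : SL(2, ℝ), ∀ z, lab z ∈ A ↔ lab (g • z) ∈ B
  have Csymm : ∀ A B, C A B → C B A := by
    rintro A B ⟨g, hg⟩
    exact ⟨g⁻¹, fun z => by rw [hg, smul_inv_smul]⟩
  have Ctrans : ∀ A B D, C A B → C B D → C A D := by
    rintro A B D ⟨g, hg⟩ ⟨h, hh⟩
    exact ⟨h * g, fun z => by rw [hg, hh, mul_smul]⟩
  have Ccompl : ∀ A B, C A B → C Aᶜ Bᶜ := by
    rintro A B ⟨g, hg⟩
    exact ⟨g, fun z => by simp only [Set.mem_compl_iff, hg]⟩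
  have C0 : C (N none) (N none)ᶜ := ⟨ρ' (FreeGroup.of w0), fun z => by
    have := hlab w0 z
    simpa [τ, hsm] using this⟩
  have C1 : ∀ o, C (N none) (N o) := by
    intro o
    by_cases h : (⟨N o, o, rfl⟩ : W) = w0
    · have : N o = N none := congrArg Subtype.val h
      rw [this]
      exact ⟨1, fun z => by rw [one_smul]⟩
    · refine ⟨ρ' (FreeGroup.of ⟨N o, o, rfl⟩), fun z => ?_⟩
      have := hlab ⟨N o, o, rfl⟩ z
      simpa [τ, hsm, h] using this
  have C2 : ∀ k, C (N none) (S k) := by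
    intro k
    have h := C1 (some (some k))
    by_cases hk : i0 ∈ S k
    · simpa [N, hk] using h
    · have h' : C (N none) (S k)ᶜ := by simpa [N, hk] using h
      have := Ccompl _ _ h'
      rw [compl_compl] at this
      exact Ctrans _ _ _ C0 this
  exact ⟨lab, fun k k' => Ctrans _ _ _ (Csymm _ _ (C2 k)) (C2 k')⟩

theorem main (I M : Type) (L R : M → Set I) (hI : Nonempty I) (hM : #M ≤ continuum)
    (h : ∀ i, (L i).Nonempty ∧ L i ≠ Set.univ ∧ (R i).Nonempty ∧ R i ≠ Set.univ) :
    ∃ A : I → Set ℍ, Pairwise (fun j k => Disjoint (A j) (A k)) ∧ (⋃ j, A j) = Set.univ ∧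
      ∀ i, ∃ g : IsometryEquiv ℍ ℍ, g '' (⋃ j ∈ L i, A j) = ⋃ j ∈ R i, A j := by
  have key : ∃ lab : ℍ → I, ∀ i, ∃ g : SL(2, ℝ), ∀ z, lab z ∈ L i ↔ lab (g • z) ∈ R i := by
    rcases isEmpty_or_nonempty M with hM0 | ⟨⟨m⟩⟩
    · obtain ⟨i⟩ := hI
      exact ⟨fun _ => i, fun i => hM0.elim i⟩
    · obtain ⟨i0, hi0⟩ := (h m).1
      obtain ⟨i1, hi1⟩ := Set.nonempty_compl.mpr (h m).2.1
      have hK : #(M ⊕ M) ≤ continuum := by
        rw [Cardinal.mk_sum]
        simp only [Cardinal.lift_id]
        calc #M + #M ≤ continuum + continuum := add_le_add hM hM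
          _ = continuum := Cardinal.add_eq_self aleph0_le_continuum
      obtain ⟨lab, hlab⟩ := exists_lab hK i0 i1 (fun e => hi1 (e ▸ hi0)) (Sum.elim L R) (by
        rintro (i | i)
        · exact ⟨(h i).1, Set.nonempty_compl.mpr (h i).2.1⟩
        · exact ⟨(h i).2.2.1, Set.nonempty_compl.mpr (h i).2.2.2⟩)
      exact ⟨lab, fun i => hlab (Sum.inl i) (Sum.inr i)⟩
  obtain ⟨lab, hlab⟩ := key
  have hU : ∀ T : Set I, (⋃ j ∈ T, lab ⁻¹' {j}) = lab ⁻¹' T := by
    intro T
    ext z
    simp
  refine ⟨fun j => lab ⁻¹' {j}, ?_, ?_, ?_⟩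
  · intro j k hjk
    exact Disjoint.preimage lab (Set.disjoint_singleton.mpr hjk)
  · ext z
    simp
  · intro i
    obtain ⟨g, hg⟩ := hlab i
    refine ⟨IsometryEquiv.constSMul g, ?_⟩
    rw [hU, hU]
    ext z
    constructor
    · rintro ⟨x, hx, rfl⟩
      exact (hg x).mp hx
    · intro hz
      refine ⟨g⁻¹ • z, ?_, ?_⟩
      · apply (hg _).mpr
        rw [smul_inv_smul]
        exact hz
      · exact smul_inv_smul g z

end Pool.Agent.H355Z.Congr
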