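import Pool.Agent.H445Z.CubSt

/-! Schur test and elementary sums for the step `S_l2`. -/

namespace Pool.Agent.H355Z.CubL2

open Pool.Agent.H445Z.Cub Finset

noncomputable section

/-- Bound for the square of the operator norm. -/
def Bd {ι : Type} [Fintype ι] (A : Matrix ι ι ℝ) (κ : ℝ) : Prop :=
  ∀ f : ι → ℝ, ∑ x, (A.mulVec f x) ^ 2 ≤ κ * ∑ x, f x ^ 2

lemma schur {ι : Type} [Fintype ι] (A : Matrix ι ι ℝ) (R R' : ℝ) (hR : 0 ≤ R)
    (h1 : ∀ x, ∑ y, |A x y| ≤ R) (h2 : ∀ y, ∑ x, |A x y| ≤ R') : Bd A (R * R') := by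
  intro f
  have e1 : ∀ x, (A.mulVec f x) ^ 2 ≤ R * ∑ y, |A x y| * f y ^ 2 := by
    intro x
    have h : (∑ y, A x y * f y) ^ 2 ≤ (∑ y, |A x y|) * ∑ y, |A x y| * f y ^ 2 :=
      Finset.sum_sq_le_sum_mul_sum_of_sq_le_mul univ (fun y _ => abs_nonneg _)
        (fun y _ => by positivity) (fun y _ => le_of_eq (by
          rw [mul_pow, ← sq_abs (A x y)]; ring))
    refine le_trans h ?_
    exact mul_le_mul_of_nonneg_right (h1 x) (sum_nonneg fun y _ => by positivity)
  calc ∑ x, (A.mulVec f x) ^ 2 ≤ ∑ x, R * ∑ y, |A x y| * f y ^ 2 := sum_le_sum fun x _ => e1 x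
    _ = R * ∑ y, (∑ x, |A x y|) * f y ^ 2 := by
        rw [← mul_sum, sum_comm]; simp_rw [sum_mul]
    _ ≤ R * ∑ y, R' * f y ^ 2 := by
        refine mul_le_mul_of_nonneg_left (sum_le_sum fun y _ => ?_) hR
        exact mul_le_mul_of_nonneg_right (h2 y) (by positivity)
    _ = R * R' * ∑ y, f y ^ 2 := by rw [← mul_sum]; ring

lemma Bd.mul {ι : Type} [Fintype ι] {A B : Matrix ι ι ℝ} {κ κ' : ℝ} (hκ : 0 ≤ κ) (hA : Bd A κ)
    (hB : Bd B κ') : Bd (A * B) (κ * κ') := by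
  intro f
  rw [← Matrix.mulVec_mulVec]
  refine le_trans (hA _) ?_
  rw [mul_assoc]
  exact mul_le_mul_of_nonneg_left (hB f) hκ

lemma Bd.sub {ι : Type} [Fintype ι] {A B : Matrix ι ι ℝ} {κ κ' : ℝ} (hA : Bd A κ)
    (hB : Bd B κ') : Bd (A - B) (2 * κ + 2 * κ') := by
  intro f
  rw [Matrix.sub_mulVec]
  have h1 := hA f
  have h2 := hB f
  calc ∑ x, ((A.mulVec f - B.mulVec f) x) ^ 2
      ≤ ∑ x, (2 * (A.mulVec f x) ^ 2 + 2 * (B.mulVec f x) ^ 2) := by
        refine sum_le_sum fun x _ => ?_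
        rw [Pi.sub_apply]
        nlinarith [sq_nonneg (A.mulVec f x + B.mulVec f x)]
    _ = 2 * ∑ x, (A.mulVec f x) ^ 2 + 2 * ∑ x, (B.mulVec f x) ^ 2 := by
        rw [sum_add_distrib, mul_sum, mul_sum]
    _ ≤ _ := by nlinarith

lemma Bd.mono {ι : Type} [Fintype ι] {A : Matrix ι ι ℝ} {κ κ' : ℝ} (hA : Bd A κ) (h : κ ≤ κ') :
    Bd A κ' := fun f =>
  le_trans (hA f) (mul_le_mul_of_nonneg_right h (sum_nonneg fun x _ => by positivity))

lemma Bd.zero {ι : Type} [Fintype ι] {κ : ℝ} (h : 0 ≤ κ) : Bd (0 : Matrix ι ι ℝ) κ := by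
  intro f
  simp only [Matrix.zero_mulVec, Pi.zero_apply]
  have : 0 ≤ ∑ x, f x ^ 2 := sum_nonneg fun x _ => by positivity
  simp
  positivity

/-- Cyclic distance. -/
def cd (A c c' : ℕ) : ℕ := min (c - c' + (c' - c)) (A - (c - c' + (c' - c)))

lemma cd_comm (A c c' : ℕ) : cd A c c' = cd A c' c := by unfold cd; omega

lemma sum_cd (A c : ℕ) (hc : c < A) (φ : ℕ → ℝ) (hφ : ∀ n, 0 ≤ φ n) :
    ∑ c' ∈ range A, φ (cd A c c') ≤ 4 * ∑ n ∈ range (A + 1), φ n := by
  have hm : ∀ c' ∈ range A, cd A c c' ∈ range (A + 1) := by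
    intro c' hc'
    rw [mem_range] at *
    unfold cd; omega
  rw [← sum_fiberwise_of_maps_to hm, mul_sum]
  refine sum_le_sum fun n hn => ?_
  rw [sum_congr rfl (g := fun _ => φ n) (fun i hi => by rw [(mem_filter.1 hi).2]), sum_const,
    nsmul_eq_mul]
  refine mul_le_mul_of_nonneg_right ?_ (hφ n)
  have hsub : (range A).filter (fun c' => cd A c c' = n) ⊆
      ({c + n, c - n, c + (A - n), c - (A - n)} : Finset ℕ) := by
    intro c' hc'
    rw [mem_filter, mem_range] at hc'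
    obtain ⟨h1, h2⟩ := hc'
    unfold cd at h2
    simp only [mem_insert, mem_singleton]
    omega
  have := le_trans (card_le_card hsub) Finset.card_le_four
  exact_mod_cast this

lemma interp {x p q β : ℝ} (hx : 0 ≤ x) (hp : x ≤ p) (hq : x ≤ q) (h0 : 0 ≤ β) (h1 : β ≤ 1) :
    x ≤ p ^ β * q ^ (1 - β) := by
  have : x = x ^ β * x ^ (1 - β) := by
    rw [← Real.rpow_add' hx (by simp)]; simp
  rw [this]
  exact mul_le_mul (Real.rpow_le_rpow hx hp h0) (Real.rpow_le_rpow hx hq (by linarith))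
    (by positivity) (Real.rpow_nonneg (le_trans hx hp) _)

/-- The weight `(1 + n) ^ (-1 - r)`. -/
def wt (r : ℝ) (n : ℕ) : ℝ := (1 + (n : ℝ)) ^ (-1 - r)

lemma wt_nonneg (r : ℝ) (n : ℕ) : 0 ≤ wt r n := by unfold wt; positivity

lemma wt_anti {r r' : ℝ} (h : r' ≤ r) (n : ℕ) : wt r n ≤ wt r' n := by
  unfold wt
  refine Real.rpow_le_rpow_of_exponent_le ?_ (by linarith)
  have : (0 : ℝ) ≤ n := by positivity
  linarith

lemma exists_S {r : ℝ} (hr : 0 < r) : ∃ S : ℝ, 0 < S ∧ ∀ N, ∑ n ∈ range N, wt r n ≤ S := by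
  have hs : Summable (wt r) := by
    have h1 : Summable fun n : ℕ => (n : ℝ) ^ (-1 - r) :=
      Real.summable_nat_rpow.mpr (by linarith)
    have h2 := (summable_nat_add_iff 1).2 h1
    refine h2.congr fun n => ?_
    unfold wt
    push_cast
    rw [add_comm]
  refine ⟨∑' n, wt r n + 1, ?_, fun N => ?_⟩
  · have : 0 ≤ ∑' n, wt r n := tsum_nonneg (wt_nonneg r)
    linarith
  · have := hs.sum_le_tsum (range N) (fun n _ => wt_nonneg r n)
    linarith

/-- Interaction between an interval of cells and its complement. -/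
lemma sum_bdry {r S : ℝ} (hr : 0 < r) (hr1 : r ≤ 1) (hS : ∀ N, ∑ n ∈ range N, wt (r / 2) n ≤ S)
    (A lo Λ : ℕ) (hA : lo + Λ ≤ A) :
    ∑ c ∈ Ico lo (lo + Λ), ∑ c' ∈ range A, (if c' ∈ Ico lo (lo + Λ) then 0 else wt r (cd A c c')) ≤
      8 * S * (Λ : ℝ) ^ (1 - r / 2) := by
  have e1 : ∀ c ∈ Ico lo (lo + Λ),
      ∑ c' ∈ range A, (if c' ∈ Ico lo (lo + Λ) then 0 else wt r (cd A c c')) ≤
        4 * ∑ n ∈ range (A + 1), (if min (c - lo + 1) (lo + Λ - c) ≤ n then wt r n else 0) := by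
    intro c hc
    rw [mem_Ico] at hc
    refine le_trans ?_ (sum_cd A c (by omega)
      (fun n => if min (c - lo + 1) (lo + Λ - c) ≤ n then wt r n else 0) (fun n => ?_))
    · refine sum_le_sum fun c' hc' => ?_
      rw [mem_range] at hc'
      by_cases h : c' ∈ Ico lo (lo + Λ)
      · rw [if_pos h]
        split_ifs
        · exact wt_nonneg _ _
        · exact le_rfl
      · rw [if_neg h, if_pos]
        rw [mem_Ico] at h
        unfold cd; omega
    · split_ifs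
      · exact wt_nonneg _ _
      · exact le_rfl
  refine le_trans (sum_le_sum e1) ?_
  rw [← mul_sum, sum_comm]
  have e2 : ∀ n ∈ range (A + 1),
      ∑ c ∈ Ico lo (lo + Λ), (if min (c - lo + 1) (lo + Λ - c) ≤ n then wt r n else 0) ≤
        2 * (Λ : ℝ) ^ (1 - r / 2) * wt (r / 2) n := by
    intro n _
    rw [← sum_filter, sum_const, nsmul_eq_mul]
    set k := ((Ico lo (lo + Λ)).filter fun c => min (c - lo + 1) (lo + Λ - c) ≤ n).card with hk
    have hk1 : k ≤ Λ := by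
      have := card_filter_le (Ico lo (lo + Λ)) fun c => min (c - lo + 1) (lo + Λ - c) ≤ n
      rw [Nat.card_Ico] at this
      omega
    have hk2 : k ≤ 2 * n := by
      have hsub : ((Ico lo (lo + Λ)).filter fun c => min (c - lo + 1) (lo + Λ - c) ≤ n) ⊆
          Ico lo (lo + n) ∪ Ico (lo + Λ - n) (lo + Λ) := by
        intro c hc
        rw [mem_filter, mem_Ico] at hc
        rw [mem_union, mem_Ico, mem_Ico]
        omega
      have h1 := le_trans (card_le_card hsub) (card_union_le _ _)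
      rw [Nat.card_Ico, Nat.card_Ico] at h1
      omega
    have hn : (0 : ℝ) ≤ n := by positivity
    have h3 : (k : ℝ) ≤ (2 * (1 + (n : ℝ))) ^ (r / 2) * (Λ : ℝ) ^ (1 - r / 2) := by
      refine interp (by positivity) ?_ (by exact_mod_cast hk1) (by linarith) (by linarith)
      have : (k : ℝ) ≤ 2 * n := by exact_mod_cast hk2
      linarith
    have h4 : (2 * (1 + (n : ℝ))) ^ (r / 2) ≤ 2 * (1 + (n : ℝ)) ^ (r / 2) := by
      rw [Real.mul_rpow (by norm_num) (by positivity)]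
      refine mul_le_mul_of_nonneg_right ?_ (by positivity)
      calc (2 : ℝ) ^ (r / 2) ≤ 2 ^ (1 : ℝ) :=
            Real.rpow_le_rpow_of_exponent_le (by norm_num) (by linarith)
        _ = 2 := by simp
    have h5 : (1 + (n : ℝ)) ^ (r / 2) * wt r n = wt (r / 2) n := by
      unfold wt
      rw [← Real.rpow_add (by positivity)]
      congr 1; ring
    have h6 := wt_nonneg r n
    calc (k : ℝ) * wt r n ≤ (2 * (1 + (n : ℝ)) ^ (r / 2) * (Λ : ℝ) ^ (1 - r / 2)) * wt r n := by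
          refine mul_le_mul_of_nonneg_right (le_trans h3 ?_) h6
          exact mul_le_mul_of_nonneg_right h4 (by positivity)
      _ = _ := by rw [← h5]; ring
  have e3 := sum_le_sum e2
  rw [← mul_sum] at e3
  have e4 := hS (A + 1)
  have e5 : (0 : ℝ) ≤ (Λ : ℝ) ^ (1 - r / 2) := by positivity
  nlinarith

end

end Pool.Agent.H355Z.CubL2
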