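import Pool.Agent.H355Z.CubL2A

/-! Dominated matrices on the dyadic grid. -/

namespace Pool.Agent.H355Z.CubL2

open Pool.Agent.H445Z.Cub Finset

noncomputable section

/-- Domination by the cyclic weight at level `a`. -/
def Dom (M a : ℕ) (B : Mat M) (γ r : ℝ) : Prop :=
  ∀ x y, |B x y| ≤ γ * ((2 : ℝ) ^ (M - a))⁻¹ * wt r (cd (2 ^ a) (cell M a x) (cell M a y))

lemma cell_lt {M a : ℕ} (h : a ≤ M) (x : Gr M) : cell M a x < 2 ^ a := by
  unfold cell
  refine Nat.div_lt_of_lt_mul ?_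
  rw [← pow_add, Nat.sub_add_cancel h]
  exact ZMod.val_lt x

lemma Dom.transpose {M a : ℕ} {B : Mat M} {γ r : ℝ} (h : Dom M a B γ r) :
    Dom M a B.transpose γ r := by
  intro x y
  rw [Matrix.transpose_apply, cd_comm]
  exact h y x

lemma Dom.anti {M a : ℕ} {B : Mat M} {γ r r' : ℝ} (h : Dom M a B γ r) (hγ : 0 ≤ γ) (hr : r' ≤ r) :
    Dom M a B γ r' := fun x y =>
  le_trans (h x y) (mul_le_mul_of_nonneg_left (wt_anti hr _) (by positivity))

lemma Dom.row (hG : S_grid) {M a : ℕ} (ha : a ≤ M) {B : Mat M} {γ r S : ℝ} (h : Dom M a B γ r)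
    (hγ : 0 ≤ γ) (hS : ∀ N, ∑ n ∈ range N, wt r n ≤ S) (x : Gr M) : ∑ y, |B x y| ≤ 4 * S * γ := by
  refine le_trans (sum_le_sum fun y _ => h x y) ?_
  rw [(hG M).2.2.2.2.2.2 a ha
    (fun c => γ * ((2 : ℝ) ^ (M - a))⁻¹ * wt r (cd (2 ^ a) (cell M a x) c)), ← mul_sum]
  have h1 := sum_cd (2 ^ a) (cell M a x) (cell_lt ha x) (wt r) (wt_nonneg r)
  have h2 := hS (2 ^ a + 1)
  have h3 : (2 : ℝ) ^ (M - a) ≠ 0 := by positivity
  rw [← mul_assoc, show (2 : ℝ) ^ (M - a) * (γ * ((2 : ℝ) ^ (M - a))⁻¹) = γ by field_simp]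
  nlinarith

lemma Dom.bd (hG : S_grid) {M a : ℕ} (ha : a ≤ M) {B : Mat M} {γ r S : ℝ} (h : Dom M a B γ r)
    (hγ : 0 ≤ γ) (hS0 : 0 ≤ S) (hS : ∀ N, ∑ n ∈ range N, wt r n ≤ S) :
    Bd B ((4 * S * γ) * (4 * S * γ)) :=
  schur B _ _ (by positivity) (h.row hG ha hγ hS) (h.transpose.row hG ha hγ hS)

lemma eM_symm (M t : ℕ) (x y : Gr M) : eM M t x y = eM M t y x := by
  unfold eM
  simp only [eq_comm]

lemma eM_nonneg (M t : ℕ) (x y : Gr M) : 0 ≤ eM M t x y := by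
  unfold eM
  split_ifs
  · positivity
  · exact le_rfl

lemma eM_transpose (M t : ℕ) : (eM M t).transpose = eM M t := by
  ext x y
  exact eM_symm M t y x

lemma eM_bd (hG : S_grid) (M t : ℕ) : Bd (eM M t) 1 := by
  have h : ∀ x, ∑ y, |eM M t x y| ≤ 1 := by
    intro x
    simp_rw [abs_of_nonneg (eM_nonneg M t x _)]
    exact le_of_eq ((hG M).2.1 t x)
  have := schur (eM M t) 1 1 zero_le_one h (fun y => by
    simp_rw [eM_symm M t _ y]; exact h y)
  simpa using this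

lemma dM_bd (hG : S_grid) (M : ℕ) (b : ℤ) : Bd (dM M b) 4 := by
  unfold dM
  split_ifs
  · exact (eM_bd hG M 0).mono (by norm_num)
  · exact ((eM_bd hG M _).sub (eM_bd hG M _)).mono (by norm_num)
  · exact Bd.zero (by norm_num)

lemma row_mul_eM (hG : S_grid) {M t : ℕ} {B : Mat M} {R : ℝ} (x : Gr M)
    (h : ∑ y, |B x y| ≤ R) : ∑ y, |(B * eM M t) x y| ≤ R := by
  calc ∑ y, |(B * eM M t) x y| ≤ ∑ y, ∑ z, |B x z| * eM M t z y := by
        refine sum_le_sum fun y _ => ?_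
        rw [Matrix.mul_apply]
        refine le_trans (abs_sum_le_sum_abs _ _) (le_of_eq ?_)
        refine sum_congr rfl fun z _ => ?_
        rw [abs_mul, abs_of_nonneg (eM_nonneg M t z y)]
    _ = ∑ z, |B x z| := by
        rw [sum_comm]
        refine sum_congr rfl fun z _ => ?_
        rw [← mul_sum, (hG M).2.1 t z, mul_one]
    _ ≤ R := h

lemma cell_div {M a t : ℕ} (ht : t ≤ a) (ha : a ≤ M) (z : Gr M) :
    cell M t z = cell M a z / 2 ^ (a - t) := by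
  unfold cell
  rw [Nat.div_div_eq_div_mul, ← pow_add]
  congr 2
  omega

lemma div_eq_iff_Ico (c k Λ : ℕ) (hΛ : 0 < Λ) : c / Λ = k ↔ c ∈ Ico (k * Λ) (k * Λ + Λ) := by
  rw [mem_Ico, Nat.div_eq_iff hΛ]
  omega

lemma col_mul_eM (hG : S_grid) {M a t : ℕ} (ht : t ≤ a) (ha : a ≤ M) {B : Mat M} {γ r S : ℝ}
    (hr : 0 < r) (hr1 : r ≤ 1) (h : Dom M a B γ r) (hγ : 0 ≤ γ)
    (hS : ∀ N, ∑ n ∈ range N, wt (r / 2) n ≤ S) (hrow : ∀ x, ∑ z, B x z = 1) (y : Gr M) :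
    ∑ x, |(B * eM M t) x y| ≤ 1 + 16 * S * γ * ((2 : ℝ) ^ (a - t)) ^ (-r / 2) := by
  classical
  set Λ : ℕ := 2 ^ (a - t) with hΛ
  have hΛ0 : 0 < Λ := by positivity
  set lo : ℕ := cell M t y * Λ with hlo
  set s : ℝ := (2 : ℝ) ^ (M - a) with hs
  have hs0 : 0 < s := by positivity
  set e : ℝ := ((2 : ℝ) ^ (M - t))⁻¹ with he
  have he0 : 0 ≤ e := by positivity
  have hE : ∀ z, eM M t z y = if cell M a z ∈ Ico lo (lo + Λ) then e else 0 := by
    intro z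
    unfold eM
    have : cell M t z = cell M t y ↔ cell M a z ∈ Ico lo (lo + Λ) := by
      rw [cell_div ht ha z]
      exact div_eq_iff_Ico _ _ _ hΛ0
    simp only [this, he]
  set F : ℕ → ℕ → ℝ := fun c c' => if c ∈ Ico lo (lo + Λ) then
    (if c' ∈ Ico lo (lo + Λ) then 0 else wt r (cd (2 ^ a) c c')) else 0 with hF
  have e1 : ∀ x, |(B * eM M t) x y| ≤ eM M t x y +
      ∑ z, e * (γ * s⁻¹) * (F (cell M a x) (cell M a z) + F (cell M a z) (cell M a x)) := by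
    intro x
    have e2 : (B * eM M t) x y = eM M t x y + ∑ z, B x z * (eM M t z y - eM M t x y) := by
      rw [Matrix.mul_apply]
      simp_rw [mul_sub]
      rw [sum_sub_distrib, ← sum_mul, hrow x]
      ring
    rw [e2]
    refine le_trans (abs_add_le _ _) (add_le_add (le_of_eq (abs_of_nonneg (eM_nonneg _ _ _ _))) ?_)
    refine le_trans (abs_sum_le_sum_abs _ _) (sum_le_sum fun z _ => ?_)
    rw [abs_mul, hE z, hE x]
    have h1 := h x z
    rw [← hs] at h1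
    have h2 := wt_nonneg r (cd (2 ^ a) (cell M a x) (cell M a z))
    have h3 : 0 ≤ γ * s⁻¹ := by positivity
    simp only [hF]
    rw [cd_comm (2 ^ a) (cell M a z)]
    by_cases hx : cell M a x ∈ Ico lo (lo + Λ) <;> by_cases hz : cell M a z ∈ Ico lo (lo + Λ) <;>
      simp only [hx, hz, if_true, if_false, sub_self, abs_zero, mul_zero, add_zero, zero_add,
        le_refl, sub_zero, zero_sub, abs_neg, abs_of_nonneg he0]
    · nlinarith
    · nlinarith
  refine le_trans (sum_le_sum fun x _ => e1 x) ?_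
  rw [sum_add_distrib]
  refine add_le_add (le_of_eq ?_) ?_
  · simp_rw [eM_symm M t _ y]
    exact (hG M).2.1 t y
  have e3 : ∑ x : Gr M, ∑ z : Gr M, F (cell M a x) (cell M a z) =
      s * s * ∑ c ∈ range (2 ^ a), ∑ c' ∈ range (2 ^ a), F c c' := by
    have e4 : ∀ x : Gr M, ∑ z : Gr M, F (cell M a x) (cell M a z) =
        s * ∑ c' ∈ range (2 ^ a), F (cell M a x) c' := fun x =>
      (hG M).2.2.2.2.2.2 a ha (fun c' => F (cell M a x) c')
    simp_rw [e4]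
    rw [← mul_sum, (hG M).2.2.2.2.2.2 a ha (fun c => ∑ c' ∈ range (2 ^ a), F c c'), mul_assoc]
  have hA : lo + Λ ≤ 2 ^ a := by
    have h1 := cell_lt (le_trans ht ha) y
    have h2 : 2 ^ a = 2 ^ t * Λ := by
      rw [hΛ, ← pow_add]; congr 1; omega
    rw [h2, hlo, ← Nat.succ_mul]
    exact Nat.mul_le_mul_right _ h1
  have e5 : ∑ c ∈ range (2 ^ a), ∑ c' ∈ range (2 ^ a), F c c' ≤ 8 * S * (Λ : ℝ) ^ (1 - r / 2) := by
    refine le_trans (le_of_eq ?_) (sum_bdry hr hr1 hS (2 ^ a) lo Λ hA)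
    have hsub : Ico lo (lo + Λ) ⊆ range (2 ^ a) := by
      intro c hc
      rw [mem_Ico] at hc
      rw [mem_range]; omega
    rw [← sum_subset hsub]
    · refine sum_congr rfl fun c hc => sum_congr rfl fun c' _ => ?_
      simp only [hF, hc, if_true]
    · intro c _ hc
      refine sum_eq_zero fun c' _ => ?_
      simp only [hF, hc, if_false]
  have e6 : ∑ x : Gr M, ∑ z : Gr M,
      e * (γ * s⁻¹) * (F (cell M a x) (cell M a z) + F (cell M a z) (cell M a x)) =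
      e * (γ * s⁻¹) * (2 * (s * s * ∑ c ∈ range (2 ^ a), ∑ c' ∈ range (2 ^ a), F c c')) := by
    simp_rw [← mul_sum, sum_add_distrib]
    rw [sum_comm (f := fun x z => F (cell M a z) (cell M a x)), e3]
    ring
  rw [e6]
  have hΛR : (Λ : ℝ) = (2 : ℝ) ^ (a - t) := by rw [hΛ]; push_cast; rfl
  have hΛp : (0 : ℝ) < Λ := by exact_mod_cast hΛ0
  have e7 : e = s⁻¹ * (Λ : ℝ)⁻¹ := by
    rw [he, hs, hΛR, ← mul_inv, ← pow_add]
    congr 2; omega
  have e8 : (Λ : ℝ) ^ (1 - r / 2) = Λ * (Λ : ℝ) ^ (-r / 2) := by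
    rw [show 1 - r / 2 = 1 + -r / 2 by ring, Real.rpow_add hΛp, Real.rpow_one]
  rw [← hΛR]
  calc e * (γ * s⁻¹) * (2 * (s * s * ∑ c ∈ range (2 ^ a), ∑ c' ∈ range (2 ^ a), F c c'))
      ≤ e * (γ * s⁻¹) * (2 * (s * s * (8 * S * (Λ : ℝ) ^ (1 - r / 2)))) := by gcongr
    _ = _ := by rw [e7, e8]; field_simp; ring

end

end Pool.Agent.H355Z.CubL2
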