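import Pool.Agent.H355Z.CubL2B

/-! The sampled kernel and the step `S_l2`. -/

namespace Pool.Agent.H355Z.CubL2

open Pool.Agent.H445Z.Cub Finset

noncomputable section

lemma dl_pos (a : ℕ) : 0 < dl a := by unfold dl; have := Real.pi_pos; positivity

lemma dl_eq {M a : ℕ} (ha : a ≤ M) : dl a = 2 ^ (M - a) * dl M := by
  unfold dl
  have : (2 : ℝ) ^ M = 2 ^ (M - a) * 2 ^ a := by rw [← pow_add, Nat.sub_add_cancel ha]
  rw [this]
  field_simp

lemma dl_mul (a : ℕ) : 2 ^ a * dl a = 2 * Real.pi := by unfold dl; field_simp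

lemma exists_j (A c c' : ℕ) (hc : c < A) (hc' : c' < A) :
    ∃ j m : ℤ, (c' : ℤ) - c = j + m * A ∧ |j| = (cd A c c' : ℕ) ∧ 2 * |j| ≤ A := by
  unfold cd
  by_cases h : 2 * (c - c' + (c' - c)) ≤ A
  · refine ⟨c' - c, 0, by ring, ?_, ?_⟩ <;> rcases abs_cases ((c' : ℤ) - c) with h1 | h1 <;> omega
  · by_cases h2 : c ≤ c'
    · refine ⟨c' - c - A, 1, by ring, ?_, ?_⟩ <;>
        rcases abs_cases ((c' : ℤ) - c - A) with h1 | h1 <;> omega
    · refine ⟨c' - c + A, -1, by ring, ?_, ?_⟩ <;>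
        rcases abs_cases ((c' : ℤ) - c + A) with h1 | h1 <;> omega

lemma k_dom {r C : ℝ} {M a : ℕ} {η : ℝ → ℝ} {h : ℝ} (ha : a ≤ M) (hη : EtaHyp r C a η)
    (h0 : 0 ≤ h) (h1 : h < dl M) : Dom M a (kM M a η h) (C * 2 ^ (r * a)) r := by
  intro x y
  obtain ⟨j, m, hj, hj1, hj2⟩ := exists_j (2 ^ a) _ _ (cell_lt ha x) (cell_lt ha y)
  set ρ : ℕ := x.val % 2 ^ (M - a) with hρ
  have hx : (x.val : ℝ) = 2 ^ (M - a) * cell M a x + ρ := by
    have := Nat.div_add_mod x.val (2 ^ (M - a))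
    unfold cell
    exact_mod_cast this.symm
  have hρ1 : (ρ : ℝ) + 1 ≤ 2 ^ (M - a) := by
    have : ρ < 2 ^ (M - a) := Nat.mod_lt _ (by positivity)
    exact_mod_cast this
  have hM := dl_pos M
  have hjR : (cell M a y : ℝ) - cell M a x = j + m * 2 ^ a := by exact_mod_cast hj
  have harg : h + x.val * dl M - cell M a y * dl a =
      (h + ρ * dl M - j * dl a) - m * (2 * Real.pi) := by
    have e : (cell M a y : ℝ) = cell M a x + j + m * 2 ^ a := by linarith
    rw [← dl_mul a, hx, e, dl_eq ha]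
    ring
  have hb := hη.2.2.1 (h + ρ * dl M) j (by positivity) (by rw [dl_eq ha]; nlinarith)
    (by exact_mod_cast hj2)
  have hjabs : |(j : ℝ)| = (cd (2 ^ a) (cell M a x) (cell M a y) : ℕ) := by
    rw [← Int.cast_abs, hj1]; simp
  unfold kM wt
  rw [harg, hη.1.sub_int_mul_eq m, abs_mul, abs_of_nonneg (by positivity), ← hjabs]
  calc ((2 : ℝ) ^ (M - a))⁻¹ * |η (h + ρ * dl M - j * dl a)|
      ≤ ((2 : ℝ) ^ (M - a))⁻¹ * (C * 2 ^ (r * a) * (1 + |(j : ℝ)|) ^ (-1 - r)) := by gcongr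
    _ = _ := by ring

lemma k_row (hG : S_grid) {r C : ℝ} {M a : ℕ} {η : ℝ → ℝ} (h : ℝ) (ha : a ≤ M)
    (hη : EtaHyp r C a η) (x : Gr M) : ∑ y, kM M a η h x y = 1 := by
  unfold kM
  rw [(hG M).2.2.2.2.2.2 a ha
    (fun c => ((2 : ℝ) ^ (M - a))⁻¹ * η (h + x.val * dl M - c * dl a)), ← mul_sum, hη.2.1]
  field_simp

lemma sum_val (N : ℕ) [NeZero N] (F : ℕ → ℝ) : ∑ x : ZMod N, F x.val = ∑ n ∈ range N, F n := by
  refine sum_nbij (fun x => x.val) (fun x _ => mem_range.2 (ZMod.val_lt x))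
    (fun x _ y _ h => ZMod.val_injective N h) (fun n hn => ?_) (fun _ _ => rfl)
  exact ⟨(n : ZMod N), by simp, ZMod.val_cast_of_lt (by simpa using hn)⟩

lemma sum_range_mul' (s A : ℕ) (F : ℕ → ℝ) :
    ∑ n ∈ range (s * A), F n = ∑ k ∈ range A, ∑ ρ ∈ range s, F (s * k + ρ) := by
  induction A with
  | zero => simp
  | succ A ih => rw [Nat.mul_succ, sum_range_add, ih, sum_range_succ]

lemma k_col {r C : ℝ} {M a : ℕ} {η : ℝ → ℝ} (h : ℝ) (ha : a ≤ M)
    (hη : EtaHyp r C a η) (y : Gr M) : ∑ x, kM M a η h x y = 1 := by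
  unfold kM
  rw [← mul_sum, sum_val (2 ^ M) (fun n => η (h + n * dl M - cell M a y * dl a))]
  have e : 2 ^ M = 2 ^ (M - a) * 2 ^ a := by rw [← pow_add, Nat.sub_add_cancel ha]
  rw [e, sum_range_mul', sum_comm]
  have e2 : ∀ ρ ∈ range (2 ^ (M - a)), ∑ k ∈ range (2 ^ a),
      η (h + ((2 ^ (M - a) * k + ρ : ℕ) : ℝ) * dl M - cell M a y * dl a) = 1 := by
    intro ρ _
    rw [← hη.2.1 (h + ρ * dl M - cell M a y * dl a + ((2 ^ a - 1 : ℕ) : ℝ) * dl a),
      ← sum_range_reflect]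
    refine sum_congr rfl fun k hk => ?_
    rw [mem_range] at hk
    congr 1
    push_cast [Nat.cast_sub (show k ≤ 2 ^ a - 1 by omega)]
    rw [dl_eq ha]
    ring
  rw [sum_congr rfl e2]
  simp

lemma val_close {M b : ℕ} {x z : Gr M} (h : cell M b x = cell M b z) :
    |(z.val : ℝ) - x.val| ≤ 2 ^ (M - b) := by
  unfold cell at h
  have h1 := Nat.div_add_mod x.val (2 ^ (M - b))
  have h2 := Nat.div_add_mod z.val (2 ^ (M - b))
  have h3 : x.val % 2 ^ (M - b) < 2 ^ (M - b) := Nat.mod_lt _ (by positivity)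
  have h4 : z.val % 2 ^ (M - b) < 2 ^ (M - b) := Nat.mod_lt _ (by positivity)
  rw [h] at h1
  have h5 : z.val ≤ x.val + 2 ^ (M - b) := by omega
  have h6 : x.val ≤ z.val + 2 ^ (M - b) := by omega
  have h7 : (z.val : ℝ) ≤ x.val + 2 ^ (M - b) := by exact_mod_cast h5
  have h8 : (x.val : ℝ) ≤ z.val + 2 ^ (M - b) := by exact_mod_cast h6
  rw [abs_le]
  constructor <;> linarith

/-- The gain factor. -/
def th (r : ℝ) : ℝ := (2 : ℝ) ^ (-r / 16)

lemma th_pos (r : ℝ) : 0 < th r := by unfold th; positivity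

lemma th_pow (r : ℝ) (n : ℕ) : th r ^ n = ((2 : ℝ) ^ n) ^ (-r / 16) :=
  Real.rpow_pow_comm (by norm_num) _ _

lemma th_le {r : ℝ} (hr : 0 < r) : th r ≤ 1 :=
  Real.rpow_le_one_of_one_le_of_nonpos (by norm_num) (by linarith)

lemma th_ge {r : ℝ} (hr : r ≤ 1) : 1 ≤ 2 * th r := by
  unfold th
  have : (2 : ℝ) * 2 ^ (-r / 16) = 2 ^ (1 + -r / 16) := by
    rw [Real.rpow_add (by norm_num), Real.rpow_one]
  rw [this]
  exact Real.one_le_rpow (by norm_num) (by linarith)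

lemma k_osc (hG : S_grid) {r C : ℝ} (hr : 0 < r) (hr1 : r ≤ 1) (hC : 0 < C) {M a n : ℕ}
    {η : ℝ → ℝ} {h : ℝ} (ha : a + n ≤ M) (hη : EtaHyp r C a η) (h0 : 0 ≤ h) (h1 : h < dl M)
    {x z : Gr M} (hz : cell M (a + n) x = cell M (a + n) z) (y : Gr M) :
    |kM M a η h z y - kM M a η h x y| ≤ 2 * (C * 2 ^ (r * a) * th r ^ n) * ((2 : ℝ) ^ (M - a))⁻¹ *
      wt (r / 2) (cd (2 ^ a) (cell M a x) (cell M a y)) := by
  have haM : a ≤ M := by omega
  set γ : ℝ := C * 2 ^ (r * a) * ((2 : ℝ) ^ (M - a))⁻¹ with hγ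
  have hγ0 : 0 < γ := by positivity
  set d := cd (2 ^ a) (cell M a x) (cell M a y) with hd
  have hc : cell M a x = cell M a z := (hG M).2.2.1 a (a + n) (by omega) x z hz
  have b1 : |kM M a η h z y - kM M a η h x y| ≤ γ * (2 * wt r d) := by
    have e1 := k_dom haM hη h0 h1 x y
    have e2 := k_dom haM hη h0 h1 z y
    rw [← hc] at e2
    have e3 := abs_sub (kM M a η h z y) (kM M a η h x y)
    rw [← hγ, ← hd] at e1 e2
    linarith
  have b2 : |kM M a η h z y - kM M a η h x y| ≤ γ * ((2 : ℝ) ^ n) ^ (-(1 / 4) : ℝ) := by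
    unfold kM
    rw [← mul_sub, abs_mul, abs_of_nonneg (by positivity)]
    have e1 := hη.2.2.2 (h + z.val * dl M - cell M a y * dl a) (h + x.val * dl M - cell M a y * dl a)
    have hM := dl_pos M
    have e2 : |h + z.val * dl M - cell M a y * dl a - (h + x.val * dl M - cell M a y * dl a)| / dl a
        ≤ ((2 : ℝ) ^ n)⁻¹ := by
      rw [show h + z.val * dl M - cell M a y * dl a - (h + x.val * dl M - cell M a y * dl a) =
        ((z.val : ℝ) - x.val) * dl M by ring, abs_mul, abs_of_pos hM, div_le_iff₀ (dl_pos a),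
        dl_eq haM]
      have e3 := val_close hz
      have e4 : (2 : ℝ) ^ (M - a) = 2 ^ n * 2 ^ (M - (a + n)) := by
        rw [← pow_add]; congr 1; omega
      rw [e4, ← mul_assoc, ← mul_assoc, inv_mul_cancel₀ (by positivity), one_mul]
      gcongr
    have e5 := Real.rpow_le_rpow (div_nonneg (abs_nonneg _) (dl_pos a).le) e2
      (show (0 : ℝ) ≤ 1 / 4 by norm_num)
    rw [Real.inv_rpow (by positivity), ← Real.rpow_neg (by positivity)] at e5
    calc ((2 : ℝ) ^ (M - a))⁻¹ * |η (h + z.val * dl M - cell M a y * dl a) -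
          η (h + x.val * dl M - cell M a y * dl a)|
        ≤ ((2 : ℝ) ^ (M - a))⁻¹ * (C * 2 ^ (r * a) * ((2 : ℝ) ^ n) ^ (-(1 / 4) : ℝ)) := by
          refine mul_le_mul_of_nonneg_left (le_trans e1 ?_) (by positivity)
          gcongr
      _ = _ := by rw [hγ]; ring
  rw [← div_le_iff₀' hγ0] at b1 b2
  have b3 := interp (β := r / 4) (by positivity) b2 b1 (by linarith) (by linarith)
  rw [div_le_iff₀' hγ0] at b3
  refine le_trans b3 ?_
  have e1 : (((2 : ℝ) ^ n) ^ (-(1 / 4) : ℝ)) ^ (r / 4) = th r ^ n := by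
    rw [th_pow, ← Real.rpow_mul (by positivity)]
    congr 1; ring
  have e2 : (2 * wt r d) ^ (1 - r / 4) ≤ 2 * wt (r / 2) d := by
    rw [Real.mul_rpow (by norm_num) (wt_nonneg _ _)]
    refine mul_le_mul ?_ ?_ (Real.rpow_nonneg (wt_nonneg _ _) _) (by norm_num)
    · calc (2 : ℝ) ^ (1 - r / 4) ≤ 2 ^ (1 : ℝ) :=
            Real.rpow_le_rpow_of_exponent_le (by norm_num) (by linarith)
        _ = 2 := by simp
    · unfold wt
      rw [← Real.rpow_mul (by positivity)]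
      refine Real.rpow_le_rpow_of_exponent_le ?_ (by nlinarith)
      have : (0 : ℝ) ≤ d := by positivity
      linarith
  rw [e1]
  have := th_pos r
  calc γ * (th r ^ n * (2 * wt r d) ^ (1 - r / 4)) ≤ γ * (th r ^ n * (2 * wt (r / 2) d)) := by
        gcongr
    _ = _ := by rw [hγ]; ring

lemma diff_dom (hG : S_grid) {r C : ℝ} (hr : 0 < r) (hr1 : r ≤ 1) (hC : 0 < C) {M a n : ℕ}
    {η : ℝ → ℝ} {h : ℝ} (ha : a + n ≤ M) (hη : EtaHyp r C a η) (h0 : 0 ≤ h) (h1 : h < dl M) :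
    Dom M a ((eM M (a + n + 1) - eM M (a + n)) * kM M a η h)
      (4 * (C * 2 ^ (r * a) * th r ^ n)) (r / 2) := by
  intro x y
  set B := 2 * (C * 2 ^ (r * a) * th r ^ n) * ((2 : ℝ) ^ (M - a))⁻¹ *
      wt (r / 2) (cd (2 ^ a) (cell M a x) (cell M a y)) with hB
  have e1 : ((eM M (a + n + 1) - eM M (a + n)) * kM M a η h) x y =
      ∑ z, (eM M (a + n + 1) x z - eM M (a + n) x z) * (kM M a η h z y - kM M a η h x y) := by
    rw [Matrix.mul_apply]
    simp_rw [mul_sub (eM M (a + n + 1) x _ - eM M (a + n) x _)]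
    rw [sum_sub_distrib, ← sum_mul, sum_sub_distrib, (hG M).2.1, (hG M).2.1]
    simp
  have e2 : ∀ b, a + n ≤ b → ∀ z, eM M b x z * |kM M a η h z y - kM M a η h x y| ≤
      eM M b x z * B := by
    intro b hb z
    by_cases hz : cell M b x = cell M b z
    · exact mul_le_mul_of_nonneg_left (k_osc hG hr hr1 hC ha hη h0 h1
        ((hG M).2.2.1 _ _ hb x z hz) y) (eM_nonneg _ _ _ _)
    · unfold eM
      simp [hz]
  rw [e1]
  refine le_trans (abs_sum_le_sum_abs _ _) ?_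
  calc ∑ z, |(eM M (a + n + 1) x z - eM M (a + n) x z) * (kM M a η h z y - kM M a η h x y)|
      ≤ ∑ z, (eM M (a + n + 1) x z * B + eM M (a + n) x z * B) := by
        refine sum_le_sum fun z _ => ?_
        rw [abs_mul]
        have e3 := abs_sub (eM M (a + n + 1) x z) (eM M (a + n) x z)
        rw [abs_of_nonneg (eM_nonneg M (a + n + 1) x z), abs_of_nonneg (eM_nonneg M (a + n) x z)]
          at e3
        have e4 := e2 (a + n + 1) (by omega) z
        have e5 := e2 (a + n) le_rfl z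
        have e6 := abs_nonneg (kM M a η h z y - kM M a η h x y)
        nlinarith
    _ = _ := by
        rw [sum_add_distrib, ← sum_mul, ← sum_mul, (hG M).2.1, (hG M).2.1, hB]
        ring

/-- The two Schur sums of `B * eM t`. -/
lemma low_sums (hG : S_grid) {r C S : ℝ} (hr : 0 < r) (hr1 : r ≤ 1) (hC : 0 < C) (hS0 : 0 < S)
    (hS : ∀ N, ∑ n ∈ range N, wt (r / 2) n ≤ S) {M a t : ℕ} (ht : t ≤ a) (ha : a ≤ M) {B : Mat M}
    (hB : Dom M a B (C * 2 ^ (r * a)) r) (hrow : ∀ x, ∑ z, B x z = 1) :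
    (∀ x, ∑ y, |(B * eM M t) x y| ≤ 4 * S * (C * 2 ^ (r * a))) ∧
    (∀ y, ∑ x, |(B * eM M t) x y| ≤ (1 + 16 * S * C) * 2 ^ (r * a) * th r ^ (a - t)) := by
  have hγ : 0 ≤ C * 2 ^ (r * a) := by positivity
  refine ⟨fun x => row_mul_eM hG x ((hB.anti hγ (by linarith)).row hG ha hγ hS x), fun y => ?_⟩
  refine le_trans (col_mul_eM hG ht ha hr hr1 hB hγ hS hrow y) ?_
  have h1 : (1 : ℝ) ≤ 2 ^ (a - t) := one_le_pow₀ (by norm_num)
  have e1 : ((2 : ℝ) ^ (a - t)) ^ (-r / 2) ≤ th r ^ (a - t) := by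
    rw [th_pow]
    exact Real.rpow_le_rpow_of_exponent_le h1 (by linarith)
  have e2 : (1 : ℝ) ≤ 2 ^ (r * a) * th r ^ (a - t) := by
    unfold th
    rw [← Real.rpow_natCast, ← Real.rpow_mul (by norm_num), ← Real.rpow_add (by norm_num)]
    refine Real.one_le_rpow (by norm_num) ?_
    have h2 : ((a - t : ℕ) : ℝ) ≤ a := by exact_mod_cast Nat.sub_le a t
    have h3 : (0 : ℝ) ≤ ((a - t : ℕ) : ℝ) := by positivity
    nlinarith
  have e3 : 16 * S * (C * 2 ^ (r * a)) * ((2 : ℝ) ^ (a - t)) ^ (-r / 2) ≤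
      16 * S * (C * 2 ^ (r * a)) * th r ^ (a - t) := by gcongr
  nlinarith

theorem thm_l2 : S_grid → S_l2 := by
  intro hG r C hr hr2 hC
  have hr1 : r ≤ 1 := by linarith
  obtain ⟨S, hS0, hS⟩ := exists_S (show 0 < r / 2 by linarith)
  set c1 : ℝ := 4 * S * C * (1 + 16 * S * C) with hc1
  have hc10 : 0 < c1 := by positivity
  set c2 : ℝ := 4 * c1 + 2 * (16 * S * C) ^ 2 with hc2
  have hc20 : 0 < c2 := by positivity
  have hθ := th_pos r
  have hθ1 := th_le hr
  refine ⟨√c2, (2 : ℝ) ^ (-r / 64), Real.sqrt_pos.2 hc20, by positivity,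
    Real.rpow_lt_one_of_one_lt_of_neg (by norm_num) (by linarith), ?_⟩
  intro M a η h ha hη h0 h1 b t ht
  set G : ℝ := (2 : ℝ) ^ (r * a) with hGdef
  have hG0 : 0 < G := by positivity
  have hK := k_dom ha hη h0 h1
  have hβ : ∀ t ≤ a, Bd (kM M a η h * eM M t) (c1 * G ^ 2 * th r ^ (a - t)) := by
    intro t ht
    obtain ⟨e1, e2⟩ := low_sums hG hr hr1 hC hS0 hS ht ha hK (k_row hG h ha hη)
    refine (schur _ _ _ (by positivity) e1 e2).mono (le_of_eq ?_)
    rw [hc1]; ring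
  have hγ : ∀ t ≤ a, Bd (eM M t * kM M a η h) (c1 * G ^ 2 * th r ^ (a - t)) := by
    intro t ht
    obtain ⟨e1, e2⟩ := low_sums hG hr hr1 hC hS0 hS ht ha hK.transpose (k_col h ha hη)
    have e3 : ∀ x y, (eM M t * kM M a η h) x y = ((kM M a η h).transpose * eM M t) y x := by
      intro x y
      rw [← Matrix.transpose_apply (eM M t * kM M a η h), Matrix.transpose_mul, eM_transpose]
    refine (schur _ ((1 + 16 * S * C) * 2 ^ (r * a) * th r ^ (a - t)) (4 * S * (C * 2 ^ (r * a)))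
      (by positivity) (fun x => by simp_rw [e3]; exact e2 x)
      (fun x => by simp_rw [e3]; exact e1 x)).mono (le_of_eq ?_)
    rw [hc1]; ring
  have N1 : Bd (dM M b * kM M a η h * eM M t) (c2 * G ^ 2 * th r ^ (a - t)) := by
    rw [Matrix.mul_assoc]
    refine (Bd.mul (by norm_num) (dM_bd hG M b) (hβ t ht)).mono ?_
    have : 0 ≤ 2 * (16 * S * C) ^ 2 * G ^ 2 * th r ^ (a - t) := by positivity
    rw [hc2]; nlinarith
  have N2 : Bd (dM M b * kM M a η h) (c2 * G ^ 2 * th r ^ (b - a).natAbs) := by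
    unfold dM
    split_ifs with hb0 hb
    · refine (hγ 0 (Nat.zero_le a)).mono ?_
      have e : (b - a).natAbs = a - 0 := by omega
      rw [e]
      have : 0 ≤ (3 * c1 + 2 * (16 * S * C) ^ 2) * G ^ 2 * th r ^ (a - 0) := by positivity
      rw [hc2]; nlinarith
    · by_cases hba : b ≤ a
      · rw [Matrix.sub_mul]
        refine ((hγ b.toNat (by omega)).sub (hγ (b.toNat - 1) (by omega))).mono ?_
        have e : (b - a).natAbs = a - b.toNat := by omega
        have e' : th r ^ (a - (b.toNat - 1)) ≤ th r ^ (a - b.toNat) :=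
          pow_le_pow_of_le_one hθ.le hθ1 (by omega)
        rw [e]
        have e1 : 0 ≤ 2 * (16 * S * C) ^ 2 * G ^ 2 * th r ^ (a - b.toNat) := by positivity
        have e2 : c1 * G ^ 2 * th r ^ (a - (b.toNat - 1)) ≤ c1 * G ^ 2 * th r ^ (a - b.toNat) := by
          gcongr
        rw [hc2]; nlinarith
      · obtain ⟨n, hn⟩ : ∃ n : ℕ, b.toNat = a + n + 1 := ⟨b.toNat - a - 1, by omega⟩
        have e : (b - a).natAbs = n + 1 := by omega
        rw [e, hn, Nat.add_sub_cancel]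
        have hD := diff_dom hG hr hr1 hC (show a + n ≤ M by omega) hη h0 h1
        refine (hD.bd hG ha (by positivity) hS0.le hS).mono ?_
        have e1 : th r ^ n * th r ^ n ≤ 2 * th r ^ (n + 1) := by
          have e2 : th r ^ n ≤ 1 := pow_le_one₀ hθ.le hθ1
          have e3 := th_ge hr1
          have e4 : 0 < th r ^ n := by positivity
          rw [pow_succ]; nlinarith
        have e5 : (16 * S * C) ^ 2 * G ^ 2 * (th r ^ n * th r ^ n) ≤
            (16 * S * C) ^ 2 * G ^ 2 * (2 * th r ^ (n + 1)) := by gcongr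
        have e6 : 0 ≤ 4 * c1 * G ^ 2 * th r ^ (n + 1) := by positivity
        rw [hc2, ← hGdef]; nlinarith
    · rw [Matrix.zero_mul]
      exact Bd.zero (by positivity)
  have N3 : Bd (dM M b * kM M a η h * eM M t) (c2 * G ^ 2 * th r ^ (b - a).natAbs) := by
    have := Bd.mul (by positivity) N2 (eM_bd hG M t)
    rwa [mul_one] at this
  set ρ : ℝ := (2 : ℝ) ^ (-r / 64) with hρ
  have hρ0 : 0 < ρ := by positivity
  have hρ1 : ρ ≤ 1 := Real.rpow_le_one_of_one_le_of_nonpos (by norm_num) (by linarith)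
  have hρ4 : th r = ρ ^ 4 := by
    unfold th
    rw [hρ, ← Real.rpow_natCast, ← Real.rpow_mul (by norm_num)]
    congr 1; push_cast; ring
  have key : ∀ n : ℕ, (b - a).natAbs ≤ n → a - t ≤ n →
      c2 * G ^ 2 * th r ^ n ≤ (√c2 * G * ρ ^ ((b - a).natAbs + (a - t))) ^ 2 := by
    intro n h1 h2
    rw [mul_pow, mul_pow, Real.sq_sqrt hc20.le, hρ4, ← pow_mul, ← pow_mul]
    exact mul_le_mul_of_nonneg_left (pow_le_pow_of_le_one hρ0.le hρ1 (by omega)) (by positivity)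
  rcases le_total (b - a).natAbs (a - t) with hle | hle
  · exact N1.mono (key _ hle le_rfl)
  · exact N3.mono (key _ le_rfl hle)

end

end Pool.Agent.H355Z.CubL2
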