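import Mathlib

set_option autoImplicit false

namespace Pool.Agent.H355Z.FreeSL2

open Matrix Polynomial Cardinal
open scoped MatrixGroups Pointwise Function

/-- the unipotent matrix `1 + c N` with `N = !![t, -t^2; 1, -t]` -/
def par {P : Type} [CommRing P] (t c : P) : SL(2, P) :=
  ⟨!![1 + c * t, -(c * t ^ 2); c, 1 - c * t], by
    rw [Matrix.det_fin_two_of]; ring⟩

lemma par_mul {P : Type} [CommRing P] (t c c' : P) :
    par t c * par t c' = par t (c + c') := by
  apply Subtype.ext
  change (par t c).1 * (par t c').1 = (par t (c + c')).1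
  ext i j
  fin_cases i <;> fin_cases j <;> simp [par, Matrix.mul_apply, Fin.sum_univ_two] <;> ring

lemma par_zero {P : Type} [CommRing P] (t : P) : par t 0 = 1 := by
  apply Subtype.ext
  ext i j
  fin_cases i <;> fin_cases j <;> simp [par]

/-- `c ↦ par t c` as a homomorphism -/
def parHom {P : Type} [CommRing P] (t : P) : Multiplicative P →* SL(2, P) where
  toFun c := par t c.toAdd
  map_one' := par_zero t
  map_mul' a b := (par_mul t a.toAdd b.toAdd).symm

lemma par_zpow {P : Type} [CommRing P] (t c : P) (n : ℤ) :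
    par t c ^ n = par t (n * c) := by
  have h := map_zpow (parHom t) (Multiplicative.ofAdd c) n
  have h1 : parHom t (Multiplicative.ofAdd c) = par t c := rfl
  rw [h1] at h
  rw [← h]
  change par t _ = _
  simp

lemma par_map {P Q : Type} [CommRing P] [CommRing Q] (φ : P →+* Q) (t c : P) :
    SpecialLinearGroup.map φ (par t c) = par (φ t) (φ c) := by
  apply Subtype.ext
  change φ.mapMatrix (par t c).1 = (par (φ t) (φ c)).1
  ext i j
  fin_cases i <;> fin_cases j <;> simp [par]

lemma par_smul {P : Type} [CommRing P] (t c : P) (v : Fin 2 → P) :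
    (par t c • v) 0 = v 0 + c * t * (v 0 - t * v 1) ∧
      (par t c • v) 1 = v 1 + c * (v 0 - t * v 1) := by
  change ((par t c).1 *ᵥ v) 0 = _ ∧ ((par t c).1 *ᵥ v) 1 = _
  constructor <;> simp [par, Matrix.mulVec, dotProduct, Fin.sum_univ_two] <;> ring

theorem injective_poly {D : Type} [CommRing D] [IsDomain D] [CharZero D] {V : Type} [Nontrivial V]
    (t : V → D) (ht : Function.Injective t) :
    Function.Injective
      (FreeGroup.lift fun v : V => (par (C (t v)) (X : D[X]) : SL(2, D[X]))) := by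
  set a : V → SL(2, D[X]) := fun v : V => (par (C (t v)) (X : D[X]) : SL(2, D[X])) with ha
  have : FreeGroup.lift a =
      (Monoid.CoprodI.lift fun i => FreeGroup.lift fun _ => a i).comp
        (@freeGroupEquivCoprodI V).toMonoidHom := by
    ext i
    simp
  rw [this, MonoidHom.coe_comp]
  clear this
  refine Function.Injective.comp ?_ (MulEquiv.injective freeGroupEquivCoprodI)
  let H : V → Type _ := fun _i => FreeGroup Unit
  let f : ∀ i, H i →* SL(2, D[X]) := fun i => FreeGroup.lift fun _ => a i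
  let Y : V → Set (Fin 2 → D[X]) := fun i => {v | (v 0 - C (t i) * v 1).degree < (v 1).degree}
  have hdeg : ∀ i j, i ≠ j → ∀ v ∈ Y j, (v 0 - C (t i) * v 1).degree = (v 1).degree := by
    intro i j hij v hv
    have hne : t j - t i ≠ 0 := sub_ne_zero.mpr fun h => hij (ht h).symm
    have e : v 0 - C (t i) * v 1 = (v 0 - C (t j) * v 1) + C (t j - t i) * v 1 := by
      rw [C_sub]; ring
    have hd : (C (t j - t i) * v 1).degree = (v 1).degree := by
      rw [degree_mul, degree_C hne, zero_add]
    rw [e, degree_add_eq_right_of_degree_lt, hd]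
    rw [hd]; exact hv
  apply Monoid.CoprodI.lift_injective_of_ping_pong f _ Y
  · intro i
    refine ⟨![C (t i), 1], ?_⟩
    simp [Y]
  · intro i j hij
    change Disjoint (Y i) (Y j)
    rw [Set.disjoint_left]
    intro v hi hj
    have := hdeg i j hij v hj
    have hi' : (v 0 - C (t i) * v 1).degree < (v 1).degree := hi
    rw [this] at hi'
    exact lt_irrefl _ hi'
  · intro i j hij
    refine FreeGroup.freeGroupUnitEquivInt.forall_congr_left.mpr ?_
    intro n hne1
    change FreeGroup.lift (fun _ => a i) (FreeGroup.of () ^ n) • Y j ⊆ Y i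
    simp only [map_zpow, FreeGroup.lift_apply_of]
    have hnne0 : n ≠ 0 := by
      rintro rfl
      apply hne1
      simp [H, FreeGroup.freeGroupUnitEquivInt]
    rintro _ ⟨v, hv, rfl⟩
    have h1 := hdeg i j hij v hv
    have hv1 : v 1 ≠ 0 := by
      intro h
      have hv' : (v 0 - C (t j) * v 1).degree < (v 1).degree := hv
      rw [h, degree_zero] at hv'
      exact not_lt_bot hv'
    change ((a i ^ n • v) 0 - C (t i) * (a i ^ n • v) 1).degree < ((a i ^ n • v) 1).degree
    simp only [ha, par_zpow]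
    obtain ⟨e0, e1⟩ := par_smul (C (t i)) ((n : D[X]) * X) v
    rw [e0, e1]
    have e : v 0 + (n : D[X]) * X * C (t i) * (v 0 - C (t i) * v 1) -
        C (t i) * (v 1 + (n : D[X]) * X * (v 0 - C (t i) * v 1)) = v 0 - C (t i) * v 1 := by ring
    rw [e, h1]
    have hn : ((n : D[X]) * X * (v 0 - C (t i) * v 1)).degree = 1 + (v 1).degree := by
      have : (n : D[X]) = C (n : D) := by simp
      rw [degree_mul, degree_mul, this, degree_C (by exact_mod_cast hnne0), degree_X, h1, zero_add]
    have hlt : (v 1).degree < 1 + (v 1).degree := by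
      rw [degree_eq_natDegree hv1]
      exact_mod_cast Nat.lt_one_add_iff.mpr le_rfl
    rw [degree_add_eq_right_of_degree_lt, hn]
    · exact hlt
    · rw [hn]; exact hlt
  · right
    obtain ⟨i, -⟩ := exists_pair_ne V
    refine ⟨i, ?_⟩
    have : #(H i) = ℵ₀ := by
      rw [Cardinal.mk_congr FreeGroup.freeGroupUnitEquivInt]
      simp
    rw [this]
    exact_mod_cast (Cardinal.natCast_lt_aleph0 (n := 3)).le

theorem exists_indep (W : Type) (hW : #W ≤ continuum) :
    ∃ x : W → ℝ, AlgebraicIndependent ℚ x := by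
  obtain ⟨s, hs⟩ := exists_isTranscendenceBasis ℚ ℝ
  have h1 : #ℝ ≤ max #(Algebra.adjoin ℚ (Set.range ((↑) : s → ℝ))) ℵ₀ := by
    have := hs.isAlgebraic
    exact Algebra.IsAlgebraic.cardinalMk_le_max _ ℝ
  rw [← Cardinal.mk_congr hs.1.aevalEquiv.toEquiv] at h1
  have h2 : #(MvPolynomial s ℚ) ≤ max (max #ℚ #s) ℵ₀ := MvPolynomial.cardinalMk_le_max
  have h3 : continuum ≤ #s := by
    by_contra h
    push Not at h
    have : max #(MvPolynomial s ℚ) ℵ₀ < continuum := by
      refine max_lt (lt_of_le_of_lt h2 (max_lt (max_lt ?_ h) aleph0_lt_continuum))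
        aleph0_lt_continuum
      simp [aleph0_lt_continuum]
    rw [Cardinal.mk_real] at h1
    exact absurd h1 (not_le.mpr this)
  obtain ⟨e⟩ : Nonempty (W ↪ s) := (Cardinal.le_def _ _).mp (hW.trans h3)
  exact ⟨fun w => (e w : ℝ), hs.1.comp e e.injective⟩

theorem exists_free (V : Type) [Nontrivial V] (hV : #V ≤ continuum) :
    ∃ ρ : FreeGroup V →* SL(2, ℝ), Function.Injective ρ ∧
      ∀ v : V, ∃ t c : ℝ, c ≠ 0 ∧ ρ (FreeGroup.of v) = par t c := by
  have hW : #(Option V) ≤ continuum := by
    rw [Cardinal.mk_option]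
    calc #V + 1 ≤ continuum + continuum :=
          add_le_add hV (le_trans Cardinal.one_le_aleph0 aleph0_le_continuum)
      _ = continuum := Cardinal.add_eq_self aleph0_le_continuum
  obtain ⟨x, hx⟩ := exists_indep (Option V) hW
  let φ : (MvPolynomial V ℚ)[X] →+* ℝ :=
    (MvPolynomial.aeval x : MvPolynomial (Option V) ℚ →ₐ[ℚ] ℝ).toRingHom.comp
      (MvPolynomial.optionEquivLeft ℚ V).symm.toRingEquiv.toRingHom
  have hφ : Function.Injective φ := by
    have h1 : Function.Injective (MvPolynomial.aeval x : MvPolynomial (Option V) ℚ →ₐ[ℚ] ℝ) := hx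
    exact h1.comp (MvPolynomial.optionEquivLeft ℚ V).symm.injective
  have hinj := injective_poly (D := MvPolynomial V ℚ) (fun v : V => MvPolynomial.X v)
    (MvPolynomial.X_injective)
  refine ⟨(SpecialLinearGroup.map φ).comp (FreeGroup.lift fun v : V =>
    (par (C (MvPolynomial.X v)) (X : (MvPolynomial V ℚ)[X]) : SL(2, (MvPolynomial V ℚ)[X]))),
    ?_, ?_⟩
  · rw [MonoidHom.coe_comp]
    refine Function.Injective.comp ?_ hinj
    intro g h hgh
    apply Subtype.ext
    refine Matrix.ext fun i j => hφ ?_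
    exact congrArg (fun m : SL(2, ℝ) => m.1 i j) hgh
  · intro v
    refine ⟨φ (C (MvPolynomial.X v)), φ X, ?_, ?_⟩
    · intro h
      have : (X : (MvPolynomial V ℚ)[X]) = 0 := hφ (by rw [h, map_zero])
      exact X_ne_zero this
    · simp [par_map]

open UpperHalfPlane in
lemma fix_eq (g : SL(2, ℝ)) (z : ℍ) (h : g • z = z) :
    g 1 1 = g 0 0 - 2 * g 1 0 * z.re ∧ g 0 1 = -(g 1 0 * (z.re ^ 2 + z.im ^ 2)) := by
  have h1 := coe_specialLinearGroup_apply g z
  rw [h] at h1
  have hd : ((g 1 0 : ℝ) : ℂ) * z + ((g 1 1 : ℝ) : ℂ) ≠ 0 := by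
    intro h0
    simp only [Algebra.algebraMap_self, RingHom.id_apply] at h1
    rw [h0, div_zero] at h1
    exact z.ne_zero h1
  simp only [Algebra.algebraMap_self, RingHom.id_apply] at h1
  rw [eq_div_iff hd] at h1
  have hre := congrArg Complex.re h1
  have him := congrArg Complex.im h1
  simp at hre him
  have hy := z.im_pos
  have e1 : g 1 1 = g 0 0 - 2 * g 1 0 * z.re := by
    have : z.im * (g 1 1 - (g 0 0 - 2 * g 1 0 * z.re)) = 0 := by linarith
    rcases mul_eq_zero.mp this with h | h
    · exact absurd h hy.ne'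
    · linarith
  refine ⟨e1, ?_⟩
  rw [e1] at hre
  linarith

open UpperHalfPlane in
lemma comm_of_fix (g h : SL(2, ℝ)) (z : ℍ) (hg : g • z = z) (hh : h • z = z) :
    g * h = h * g := by
  obtain ⟨a1, a2⟩ := fix_eq g z hg
  obtain ⟨b1, b2⟩ := fix_eq h z hh
  apply Subtype.ext
  change g.1 * h.1 = h.1 * g.1
  ext i j
  fin_cases i <;> fin_cases j <;> simp [Matrix.mul_apply, Fin.sum_univ_two] <;>
    simp only [a1, a2, b1, b2] <;> ring

open UpperHalfPlane in
lemma par_no_fix (t c : ℝ) (hc : c ≠ 0) (z : ℍ) : par t c • z ≠ z := by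
  intro h
  obtain ⟨a1, a2⟩ := fix_eq _ z h
  simp [par] at a1 a2
  have hy := z.im_pos
  have e1 : z.re = t := by
    have : c * (z.re - t) = 0 := by linarith
    rcases mul_eq_zero.mp this with h | h
    · exact absurd h hc
    · linarith
  rcases a2 with a2 | a2
  · rw [e1] at a2
    nlinarith
  · exact hc a2

end Pool.Agent.H355Z.FreeSL2
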