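import Pool.Agent.H355Z.UZTree

set_option autoImplicit false

namespace Pool.Agent.H355Z.UZ

open Filter Topology Set

def Concl (g : ℝ → ℝ) : Prop :=
  ∃ f : ℝ → ℝ, Differentiable ℝ f ∧ Differentiable ℝ (deriv f) ∧
    ¬ Set.Countable {x : ℝ | f x = g x}

def Cvx (g g' : ℝ → ℝ) (l p q : ℝ) : Prop :=
  ∀ w ∈ Icc p q, ∀ t ∈ Icc p q, g w + g' w * (t - w) + l * (t - w) ^ 2 / 2 ≤ g t

def Ccv (g g' : ℝ → ℝ) (l p q : ℝ) : Prop :=
  ∀ w ∈ Icc p q, ∀ t ∈ Icc p q, g t ≤ g w + g' w * (t - w) + l * (t - w) ^ 2 / 2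

/-- the tangent line at `x` supports the graph from below near `x` -/
def LS (h h' : ℝ → ℝ) (x : ℝ) : Prop :=
  ∃ η, 0 < η ∧ ∀ t, |t - x| < η → h x + h' x * (t - x) ≤ h t

lemma ls_of_min {h h' : ℝ → ℝ} (hd : ∀ t, HasDerivAt h (h' t) t) {a b u m : ℝ} (ha : a < u)
    (hb : u < b) (hm : ∀ t ∈ Icc a b, h u - m * u ≤ h t - m * t) : h' u = m ∧ LS h h' u := by
  have hloc : IsLocalMin (fun t => h t - m * t) u := by
    filter_upwards [Icc_mem_nhds ha hb] with t ht using hm t ht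
  have hder : HasDerivAt (fun t => h t - m * t) (h' u - m * 1) u :=
    (hd u).sub ((hasDerivAt_id u).const_mul m)
  have e : h' u = m := by have := hloc.hasDerivAt_eq_zero hder; linarith
  refine ⟨e, min (u - a) (b - u), lt_min (by linarith) (by linarith), fun t ht => ?_⟩
  rw [lt_min_iff, abs_lt, abs_lt] at ht
  have := hm t ⟨by linarith [ht.1.1], by linarith [ht.2.2]⟩
  rw [e]; linarith

lemma small_slope {h h' : ℝ → ℝ} (hd : ∀ t, HasDerivAt h (h' t) t) (x : ℝ) {m d : ℝ}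
    (hm : h' x < m) (hd0 : 0 < d) : ∃ t, x < t ∧ t < x + d ∧ h t - h x < m * (t - x) := by
  have h1 := (hasDerivAt_iff_tendsto_slope_left_right.1 (hd x)).2
  have h2 : ∀ᶠ t in 𝓝[>] x, slope h x t < m := h1.eventually (gt_mem_nhds hm)
  have h3 : ∀ᶠ t in 𝓝[>] x, t ∈ Ioo x (x + d) := Ioo_mem_nhdsGT (by linarith)
  obtain ⟨t, ht1, ht2⟩ := (h2.and h3).exists
  refine ⟨t, ht2.1, ht2.2, ?_⟩
  rw [slope_def_field, div_lt_iff₀ (by linarith [ht2.1])] at ht1
  exact ht1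

lemma bitangent {h h' : ℝ → ℝ} (hd : ∀ t, HasDerivAt h (h' t) t) {x q0 : ℝ} (hx : x < q0)
    (hls : LS h h' x) (hnc : ∀ p q, x ≤ p → p < q → q ≤ q0 → ¬ Cvx h h' 0 p q) {δ ε : ℝ}
    (hδ : 0 < δ) (hε : 0 < ε) :
    ∃ u v m, x < u ∧ u < v ∧ v < x + δ ∧ v < q0 ∧ h' u = m ∧ h' v = m ∧
      h v = h u + m * (v - u) ∧ LS h h' u ∧ LS h h' v ∧ |m - h' x| ≤ ε ∧
      |h u + m * (x - u) - h x| ≤ ε * δ := by
  obtain ⟨η, hη, hs⟩ := hls
  have hc : Continuous h := continuous_iff_continuousAt.2 fun t => (hd t).continuousAt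
  obtain ⟨D, hD0, hD1, hD2, hD3⟩ : ∃ D, 0 < D ∧ D ≤ δ ∧ D ≤ η ∧ D ≤ q0 - x :=
    ⟨min δ (min η (q0 - x)), lt_min hδ (lt_min hη (by linarith)), min_le_left _ _,
      (min_le_right _ _).trans (min_le_left _ _), (min_le_right _ _).trans (min_le_right _ _)⟩
  have hk : ∀ t, x ≤ t → t < x + D → h x + h' x * (t - x) ≤ h t := fun t h1 h2 =>
    hs t (by rw [abs_lt]; constructor <;> linarith)
  have fin : ∀ d m u v, d < D → h' x ≤ m → m ≤ h' x + ε → x < u → u < v → v < x + d →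
      (∀ t ∈ Icc x (x + d), h u - m * u ≤ h t - m * t) → h v - m * v = h u - m * u →
      ∃ u v m, x < u ∧ u < v ∧ v < x + δ ∧ v < q0 ∧ h' u = m ∧ h' v = m ∧
      h v = h u + m * (v - u) ∧ LS h h' u ∧ LS h h' v ∧ |m - h' x| ≤ ε ∧
      |h u + m * (x - u) - h x| ≤ ε * δ := by
    intro d m u v hdD m1 m2 xu uv vd hmin e
    have a1 := ls_of_min hd xu (by linarith : u < x + d) hmin
    have a2 := ls_of_min hd (by linarith : x < v) vd (m := m) (fun t ht => e ▸ hmin t ht)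
    refine ⟨u, v, m, xu, uv, by linarith, by linarith, a1.1, a2.1, by linarith, a1.2, a2.2,
      by rw [abs_le]; constructor <;> linarith, ?_⟩
    have b1 := hmin x ⟨le_rfl, by linarith⟩
    have b2 := hk u xu.le (by linarith)
    have b3 : (m - h' x) * (u - x) ≤ ε * δ :=
      mul_le_mul (by linarith) (by linarith) (by linarith) hε.le
    have b4 : 0 ≤ ε * δ := by positivity
    rw [abs_le]; constructor <;> nlinarith
  by_cases hA : ∃ u v, x < u ∧ u < v ∧ v < x + D ∧ h u = h x + h' x * (u - x) ∧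
      h v = h x + h' x * (v - x)
  · obtain ⟨u, v, xu, uv, vD, e1, e2⟩ := hA
    refine fin ((v - x + D) / 2) (h' x) u v (by linarith) le_rfl (by linarith) xu uv
      (by linarith) (fun t ht => ?_) (by rw [e1, e2]; ring)
    have := hk t ht.1 (by linarith [ht.2])
    rw [e1]; linarith
  obtain ⟨d, hd0, hdD, hpos⟩ : ∃ d, 0 < d ∧ d < D ∧
      ∀ t, x < t → t ≤ x + d → h x + h' x * (t - x) < h t := by
    by_cases hz : ∃ z, x < z ∧ z < x + D ∧ h z = h x + h' x * (z - x)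
    · obtain ⟨z, z1, z2, z3⟩ := hz
      refine ⟨(z - x) / 2, by linarith, by linarith, fun t t1 t2 => ?_⟩
      refine lt_of_le_of_ne (hk t t1.le (by linarith)) fun e => hA ?_
      exact ⟨t, z, t1, by linarith, z2, e.symm, z3⟩
    · refine ⟨D / 2, by linarith, by linarith, fun t t1 t2 => ?_⟩
      refine lt_of_le_of_ne (hk t t1.le (by linarith)) fun e => hz ?_
      exact ⟨t, t1, by linarith, e.symm⟩
  obtain ⟨m1, m1a, m1b, m1c⟩ : ∃ m1, 0 < m1 ∧ m1 ≤ ε ∧
      h x + (h' x + m1) * d < h (x + d) := by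
    have := hpos (x + d) (by linarith) le_rfl
    have hp : 0 < (h (x + d) - h x - h' x * d) / (2 * d) :=
      div_pos (by nlinarith) (by linarith)
    refine ⟨min ε ((h (x + d) - h x - h' x * d) / (2 * d)), lt_min hε hp, min_le_left _ _, ?_⟩
    have h2 : min ε ((h (x + d) - h x - h' x * d) / (2 * d)) * d ≤
        (h (x + d) - h x - h' x * d) / (2 * d) * d :=
      mul_le_mul_of_nonneg_right (min_le_right _ _) hd0.le
    have h3 : (h (x + d) - h x - h' x * d) / (2 * d) * d = (h (x + d) - h x - h' x * d) / 2 := by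
      field_simp
    nlinarith
  obtain ⟨t0, t0a, t0b, t0c⟩ := small_slope hd x (m := h' x + m1 / 2) (by linarith) hd0
  have hn := hnc (x + (t0 - x) / 4) (x + (t0 - x) / 2) (by linarith) (by linarith) (by linarith)
  unfold Cvx at hn
  push Not at hn
  obtain ⟨w, hw, t1, ht1, hwt⟩ := hn
  have xw : x < w := by linarith [hw.1]
  have wd : w < x + d := by linarith [hw.2]
  have nw : ∀ m, ¬ ∀ t ∈ Icc x (x + d), h w - m * w ≤ h t - m * t := by
    intro m hm
    have a1 := (ls_of_min hd xw wd hm).1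
    have a2 := hm t1 ⟨by linarith [ht1.1], by linarith [ht1.2]⟩
    rw [a1] at hwt
    nlinarith
  have hφ : Continuous (fun z : ℝ × ℝ => h z.2 - z.1 * z.2) := by fun_prop
  have c1 : Continuous fun m : ℝ => sInf ((fun t => h t - m * t) '' Icc x w) :=
    IsCompact.continuous_sInf (f := fun (m t : ℝ) => h t - m * t) isCompact_Icc hφ
  have c2 : Continuous fun m : ℝ => sInf ((fun t => h t - m * t) '' Icc w (x + d)) :=
    IsCompact.continuous_sInf (f := fun (m t : ℝ) => h t - m * t) isCompact_Icc hφ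
  have g1 : ∀ m, ∃ u ∈ Icc x w, sInf ((fun t => h t - m * t) '' Icc x w) = h u - m * u ∧
      ∀ t ∈ Icc x w, h u - m * u ≤ h t - m * t := fun m =>
    isCompact_Icc.exists_sInf_image_eq_and_le (nonempty_Icc.2 xw.le) (by fun_prop)
  have g2 : ∀ m, ∃ u ∈ Icc w (x + d),
      sInf ((fun t => h t - m * t) '' Icc w (x + d)) = h u - m * u ∧
      ∀ t ∈ Icc w (x + d), h u - m * u ≤ h t - m * t := fun m =>
    isCompact_Icc.exists_sInf_image_eq_and_le (nonempty_Icc.2 wd.le) (by fun_prop)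
  have v0 : sInf ((fun t => h t - h' x * t) '' Icc x w) -
      sInf ((fun t => h t - h' x * t) '' Icc w (x + d)) < 0 := by
    obtain ⟨u, -, e1, hu⟩ := g1 (h' x)
    obtain ⟨v, hv, e2, -⟩ := g2 (h' x)
    rw [e1, e2]
    have a1 := hu x ⟨le_rfl, xw.le⟩
    have a2 := hpos v (by linarith [hv.1]) hv.2
    nlinarith
  have v1 : 0 < sInf ((fun t => h t - (h' x + m1) * t) '' Icc x w) -
      sInf ((fun t => h t - (h' x + m1) * t) '' Icc w (x + d)) := by
    obtain ⟨u, hu, e1, -⟩ := g1 (h' x + m1)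
    obtain ⟨v, -, e2, hv⟩ := g2 (h' x + m1)
    rw [e1, e2]
    have a1 := hv t0 ⟨by linarith [hw.2], t0b.le⟩
    have a2 := hk u hu.1 (by linarith [hu.2])
    have a3 : m1 * (u - x) ≤ m1 * ((t0 - x) / 2) :=
      mul_le_mul_of_nonneg_left (by linarith [hu.2, hw.2]) m1a.le
    nlinarith
  obtain ⟨m, hm, hm0⟩ := intermediate_value_Icc (a := h' x) (b := h' x + m1) (by linarith)
    (c1.sub c2).continuousOn ⟨v0.le, v1.le⟩
  have hm0' : sInf ((fun t => h t - m * t) '' Icc x w) -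
      sInf ((fun t => h t - m * t) '' Icc w (x + d)) = 0 := hm0
  have hmx : h' x < m := lt_of_le_of_ne hm.1 fun e => by rw [← e] at hm0'; linarith
  obtain ⟨u, hu, e1, hu'⟩ := g1 m
  obtain ⟨v, hv, e2, hv'⟩ := g2 m
  rw [e1, e2] at hm0'
  have hmin : ∀ t ∈ Icc x (x + d), h u - m * u ≤ h t - m * t := by
    intro t ht
    rcases le_total t w with a | a
    · exact hu' t ⟨ht.1, a⟩
    · have := hv' t ⟨a, ht.2⟩; linarith
  have uw : u < w := lt_of_le_of_ne hu.2 fun e => nw m (e ▸ hmin)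
  have wv : w < v := lt_of_le_of_ne hv.1 fun e => nw m fun t ht => by
    have := hmin t ht; rw [e]; linarith
  have xu : x < u := lt_of_le_of_ne hu.1 fun e => by
    obtain ⟨t, a1, a2, a3⟩ := small_slope hd x hmx hd0
    have := hmin t ⟨a1.le, a2.le⟩
    rw [← e] at this
    nlinarith
  have vd : v < x + d := lt_of_le_of_ne hv.2 fun e => by
    have a1 := hmin x ⟨le_rfl, by linarith⟩
    have a2 : m * d ≤ (h' x + m1) * d := mul_le_mul_of_nonneg_right hm.2 hd0.le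
    rw [e] at hm0'
    nlinarith
  exact fin d m u v hdD hm.1 (by linarith [hm.2]) xu (by linarith) vd hmin (by linarith)

lemma caseA {h h' : ℝ → ℝ} (hd : ∀ t, HasDerivAt h (h' t) t) {x q0 : ℝ} (hx : x < q0)
    (hls : LS h h' x) (hnc : ∀ p q, x ≤ p → p < q → q ≤ q0 → ¬ Cvx h h' 0 p q) : Concl h := by
  have hc : Continuous h := continuous_iff_continuousAt.2 fun t => (hd t).continuousAt
  let P : St → Prop := fun s => s.c = 0 ∧ 0 < s.r ∧ s.r ≤ 1 ∧ 0 < s.e ∧ ∃ u v,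
    s.x - s.r < u ∧ u < v ∧ v < s.x + s.r ∧ x ≤ u ∧ v < q0 ∧ LS h h' u ∧ LS h h' v ∧
      s.Q u = h u ∧ s.Q v = h v ∧ h' u = s.b ∧ h' v = s.b
  have mk : ∀ z R e, x ≤ z → z < q0 → LS h h' z → 0 < R → R ≤ 1 → 0 < e →
      ∃ s, P s ∧ s.x = z ∧ s.r = R / 2 ∧ s.e = e / 4 ∧ s.c = 0 ∧ |s.a - h z| ≤ e * R ^ 2 ∧
        |s.b - h' z| ≤ e * R := by
    intro z R e z1 z2 z3 hR hR1 he
    obtain ⟨u, v, m, a1, a2, a3, a4, a5, a6, a7, a8, a9, a10, a11⟩ :=
      bitangent hd z2 z3 (fun p q hp => hnc p q (z1.trans hp)) (δ := R / 2) (ε := e * R)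
        (by linarith) (by positivity)
    refine ⟨⟨z, R / 2, h u + m * (z - u), m, 0, e / 4⟩,
      ⟨rfl, by simp only; linarith, by simp only; linarith, by simp only; linarith, u, v,
        by simp only; linarith, a2, a3, by linarith, a4, a8, a9, ?_, ?_, a5, a6⟩,
      rfl, rfl, rfl, rfl, ?_, a10⟩
    · simp only [St.Q]; ring
    · simp only [St.Q]; rw [a7]; ring
    · refine a11.trans ?_
      have : 0 ≤ e * R ^ 2 := by positivity
      nlinarith
  obtain ⟨s₀, h₀, -⟩ := mk x 1 1 le_rfl hx hls one_pos le_rfl one_pos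
  refine tree h hc P s₀ h₀ ?_
  rintro s ⟨c0, r0, r1, e0, u, v, a1, a2, a3, a4, a5, a6, a7, a8, a9, a10, a11⟩
  refine ⟨r0.le, r1, e0.le, ⟨u, by rw [abs_le]; constructor <;> linarith, a8⟩, ?_⟩
  obtain ⟨R, R0, R1, R2, R3⟩ : ∃ R, 0 < R ∧ R ≤ (v - u) / 3 ∧ R ≤ u - (s.x - s.r) ∧
      R ≤ s.x + s.r - v :=
    ⟨min ((v - u) / 3) (min (u - (s.x - s.r)) (s.x + s.r - v)),
      lt_min (by linarith) (lt_min (by linarith) (by linarith)), min_le_left _ _,
      (min_le_right _ _).trans (min_le_left _ _), (min_le_right _ _).trans (min_le_right _ _)⟩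
  have R4 : R ≤ 1 := by linarith
  obtain ⟨s0, p0, b1, b2, b3, b4, b5, b6⟩ := mk u R s.e a4 (by linarith) a6 R0 R4 e0
  obtain ⟨s1, p1, d1, d2, d3, d4, d5, d6⟩ := mk v R s.e (by linarith) a5 a7 R0 R4 e0
  refine ⟨s0, s1, R, R, p0, p1, ⟨R0, by linarith, by linarith, by linarith, by linarith, ?_, ?_, ?_⟩,
    ⟨R0, by linarith, by linarith, by linarith, by linarith, ?_, ?_, ?_⟩, by linarith⟩
  · rw [b1, a8]; exact b5
  · rw [c0, zero_mul, add_zero, ← a10]; exact b6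
  · rw [c0, b4, sub_zero, abs_zero]; exact e0.le
  · rw [d1, a9]; exact d5
  · rw [c0, zero_mul, add_zero, ← a11]; exact d6
  · rw [c0, d4, sub_zero, abs_zero]; exact e0.le

lemma concl_quad {g : ℝ → ℝ} (σ l : ℝ) (hσ : σ * σ = 1)
    (H : Concl (fun t => σ * (g t - l * t ^ 2 / 2))) : Concl g := by
  obtain ⟨f, f1, f2, f3⟩ := H
  have e : deriv (fun t => σ * f t + l * t ^ 2 / 2) = fun t => σ * deriv f t + l * t := by
    funext t
    have := ((f1 t).hasDerivAt.const_mul σ).add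
      ((((hasDerivAt_id t).pow 2).const_mul l).div_const 2)
    exact (this.congr_deriv (by simp; ring)).deriv
  refine ⟨fun t => σ * f t + l * t ^ 2 / 2, by fun_prop, ?_, fun hc => f3 (hc.mono ?_)⟩
  · rw [e]; fun_prop
  · intro t ht
    simp only [Set.mem_ofPred_eq] at ht ⊢
    rw [ht, ← mul_assoc, hσ]; ring

lemma start {h h' : ℝ → ℝ} (hd : ∀ t, HasDerivAt h (h' t) t) {p q : ℝ}
    (H : ¬ Ccv h h' 0 p q) : ∃ x, p < x ∧ x < q ∧ LS h h' x := by
  have hc : Continuous h := continuous_iff_continuousAt.2 fun t => (hd t).continuousAt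
  unfold Ccv at H
  push Not at H
  obtain ⟨w, hw, t, ht, hwt⟩ := H
  have gen : ∀ a b m z, p ≤ a → b ≤ q → z ∈ Icc a b → h z - m * z < h a - m * a →
      h z - m * z < h b - m * b → ∃ x, p < x ∧ x < q ∧ LS h h' x := by
    intro a b m z ha hb hz h1 h2
    obtain ⟨x, hx, hmin⟩ := (isCompact_Icc (a := a) (b := b)).exists_isMinOn ⟨z, hz⟩
      (f := fun t => h t - m * t) (by fun_prop)
    have hm : ∀ t ∈ Icc a b, h x - m * x ≤ h t - m * t := fun t ht => hmin ht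
    have ax : a < x := lt_of_le_of_ne hx.1 fun e => by
      have := hm z hz; rw [← e] at this; linarith
    have xb : x < b := lt_of_le_of_ne hx.2 fun e => by
      have := hm z hz; rw [e] at this; linarith
    exact ⟨x, by linarith, by linarith, (ls_of_min hd ax xb hm).2⟩
  rcases lt_trichotomy w t with a | a | a
  · have hm : h' w < (h t - h w) / (t - w) := by rw [lt_div_iff₀ (by linarith)]; linarith
    obtain ⟨z, z1, z2, z3⟩ := small_slope hd w hm (d := t - w) (by linarith)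
    have e : (h t - h w) / (t - w) * (t - w) = h t - h w := by
      field_simp [(sub_pos.2 a).ne']
    exact gen w t ((h t - h w) / (t - w)) z hw.1 ht.2 ⟨z1.le, by linarith⟩ (by linarith)
      (by linarith)
  · subst a; simp at hwt
  · have hd' : ∀ s, HasDerivAt (fun s => h (-s)) (-h' (-s)) s := fun s => by
      have := (hd (-s)).comp s (hasDerivAt_neg s)
      exact this.congr_deriv (by ring)
    have hm : (fun s => -h' (-s)) (-w) < (h t - h w) / (w - t) := by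
      simp only [neg_neg]
      rw [lt_div_iff₀ (by linarith)]; linarith
    obtain ⟨z, z1, z2, z3⟩ := small_slope (h' := fun s => -h' (-s)) hd' (-w) hm (d := w - t)
      (by linarith)
    have e : (h t - h w) / (w - t) * (w - t) = h t - h w := by
      field_simp [(sub_pos.2 a).ne']
    simp only [neg_neg] at z3
    exact gen t w (-((h t - h w) / (w - t))) (-z) ht.1 hw.2 ⟨by linarith, by linarith⟩
      (by linarith) (by linarith)

lemma le_of_cvx_ccv {g g' : ℝ → ℝ} {l k p q : ℝ} (hpq : p < q) (h1 : Cvx g g' l p q)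
    (h2 : Ccv g g' k p q) : l ≤ k := by
  have a := h1 p ⟨le_rfl, hpq.le⟩ q ⟨hpq.le, le_rfl⟩
  have b := h2 p ⟨le_rfl, hpq.le⟩ q ⟨hpq.le, le_rfl⟩
  have c : 0 < (q - p) ^ 2 := pow_pos (by linarith) 2
  by_contra hh
  push Not at hh
  nlinarith

lemma Cvx.sub {g g' : ℝ → ℝ} {l p q p' q' : ℝ} (h : Cvx g g' l p q) (h1 : p ≤ p')
    (h2 : q' ≤ q) : Cvx g g' l p' q' := fun w hw t ht =>
  h w ⟨h1.trans hw.1, hw.2.trans h2⟩ t ⟨h1.trans ht.1, ht.2.trans h2⟩

lemma Ccv.sub {g g' : ℝ → ℝ} {l p q p' q' : ℝ} (h : Ccv g g' l p q) (h1 : p ≤ p')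
    (h2 : q' ≤ q) : Ccv g g' l p' q' := fun w hw t ht =>
  h w ⟨h1.trans hw.1, hw.2.trans h2⟩ t ⟨h1.trans ht.1, ht.2.trans h2⟩

lemma caseB {g g' : ℝ → ℝ} (hd : ∀ t, HasDerivAt g (g' t) t)
    (H : ∀ p q ε, p < q → 0 < ε → ∃ p' q' l, p ≤ p' ∧ p' < q' ∧ q' ≤ q ∧ Cvx g g' l p' q' ∧
      Ccv g g' (l + ε) p' q') : Concl g := by
  have hc : Continuous g := continuous_iff_continuousAt.2 fun t => (hd t).continuousAt
  let P : St → Prop := fun s => 0 < s.r ∧ s.r ≤ 1 ∧ 0 < s.e ∧ s.a = g s.x ∧ s.b = g' s.x ∧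
    Cvx g g' s.c (s.x - s.r) (s.x + s.r) ∧ Ccv g g' (s.c + s.e / 4) (s.x - s.r) (s.x + s.r)
  have mk : ∀ p q e, p < q → q ≤ p + 1 → 0 < e →
      ∃ s, P s ∧ p ≤ s.x - s.r ∧ s.x + s.r ≤ q ∧ s.e = e := by
    intro p q e hpq hq he
    obtain ⟨p', q', l, a1, a2, a3, a4, a5⟩ := H p q (e / 4) hpq (by linarith)
    have e1 : (p' + q') / 2 - (q' - p') / 2 = p' := by ring
    have e2 : (p' + q') / 2 + (q' - p') / 2 = q' := by ring
    refine ⟨⟨(p' + q') / 2, (q' - p') / 2, g ((p' + q') / 2), g' ((p' + q') / 2), l, e⟩,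
      ⟨by simp only; linarith, by simp only; linarith, he, rfl, rfl, ?_, ?_⟩, ?_, ?_, rfl⟩
    · simp only [e1, e2]; exact a4
    · simp only [e1, e2]; exact a5
    · simp only [e1]; exact a1
    · simp only [e2]; exact a3
  obtain ⟨s₀, h₀, -⟩ := mk 0 1 1 one_pos (by norm_num) one_pos
  refine tree g hc P s₀ h₀ ?_
  rintro s ⟨r0, r1, e0, ha, hb, cv, cc⟩
  refine ⟨r0.le, r1, e0.le, ⟨s.x, by simp [r0.le], by simp [St.Q, ha]⟩, ?_⟩
  have chd : ∀ s' : St, P s' → s'.e = s.e / 4 → s'.r ≤ s.r / 8 →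
      s.x - 5 * s.r / 8 ≤ s'.x - s'.r → s'.x + s'.r ≤ s.x + 5 * s.r / 8 → s'.x ≠ s.x →
      Child s s' (s.r / 4) := by
    rintro s' ⟨r0', -, -, ha', hb', cv', cc'⟩ he hr h1 h2 hne
    have m0 : s.x ∈ Icc (s.x - s.r) (s.x + s.r) := ⟨by linarith, by linarith⟩
    have m1 : s'.x ∈ Icc (s.x - s.r) (s.x + s.r) := ⟨by linarith, by linarith⟩
    have i1 := cv _ m0 _ m1
    have i2 := cv _ m1 _ m0
    have i3 := cc _ m0 _ m1
    have i4 := cc _ m1 _ m0
    have ab : |s'.x - s.x| ≤ 5 * s.r / 8 := by rw [abs_le]; constructor <;> linarith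
    have hsq : (s'.x - s.x) ^ 2 ≤ (5 * s.r / 8) ^ 2 := by
      rw [← sq_abs]; exact pow_le_pow_left₀ (abs_nonneg _) ab 2
    refine ⟨by linarith, by linarith, by linarith, by linarith, he.le, ?_, ?_, ?_⟩
    · simp only [St.Q, ha, hb, ha']
      have := mul_le_mul_of_nonneg_left hsq e0.le
      have h5 : 0 ≤ s.e * s.r ^ 2 := by positivity
      rw [abs_le]; constructor <;> nlinarith
    · rw [hb', hb]
      have hpos : 0 < |s'.x - s.x| := abs_pos.2 (sub_ne_zero.2 hne)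
      have k1 : |(g' s'.x - (g' s.x + s.c * (s'.x - s.x))) * (s'.x - s.x)| ≤
          s.e / 4 * (s'.x - s.x) ^ 2 := by
        have : 0 ≤ s.e / 4 * (s'.x - s.x) ^ 2 := by positivity
        rw [abs_le]; constructor <;> nlinarith
      rw [abs_mul, ← sq_abs, sq, ← mul_assoc] at k1
      have k2 := le_of_mul_le_mul_right k1 hpos
      have k3 := mul_le_mul_of_nonneg_left ab e0.le
      have k4 : 0 ≤ s.e * s.r := by positivity
      nlinarith
    · have lt : s'.x - s'.r < s'.x + s'.r := by linarith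
      have j1 := le_of_cvx_ccv lt cv' (cc.sub (by linarith) (by linarith))
      have j2 := le_of_cvx_ccv lt (cv.sub (by linarith) (by linarith)) cc'
      rw [abs_le]; constructor <;> linarith
  obtain ⟨s0, p0, b1, b2, b3⟩ := mk (s.x - 5 * s.r / 8) (s.x - 3 * s.r / 8) (s.e / 4)
    (by linarith) (by linarith) (by linarith)
  obtain ⟨s1, p1, d1, d2, d3⟩ := mk (s.x + 3 * s.r / 8) (s.x + 5 * s.r / 8) (s.e / 4)
    (by linarith) (by linarith) (by linarith)
  have q0 := p0.1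
  have q1 := p1.1
  refine ⟨s0, s1, s.r / 4, s.r / 4, p0, p1,
    chd s0 p0 b3 (by linarith) b1 (by linarith) (ne_of_lt (by linarith)),
    chd s1 p1 d3 (by linarith) (by linarith) d2 (ne_of_gt (by linarith)), by linarith⟩

theorem uz (g : ℝ → ℝ) (hg : Differentiable ℝ g) : Concl g := by
  set g' := deriv g
  have hd : ∀ t, HasDerivAt g (g' t) t := fun t => (hg t).hasDerivAt
  have hq : ∀ σ l t, HasDerivAt (fun t => σ * (g t - l * t ^ 2 / 2)) (σ * (g' t - l * t)) t := by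
    intro σ l t
    have := ((hd t).sub ((((hasDerivAt_id t).pow 2).const_mul l).div_const 2)).const_mul σ
    exact this.congr_deriv (by simp; ring_nf; simp)
  by_cases A : ∃ l p0 q0, (∀ p q, p0 ≤ p → p < q → q ≤ q0 → ¬ Cvx g g' l p q) ∧
      ¬ Ccv g g' l p0 q0
  · obtain ⟨l, p0, q0, a1, a2⟩ := A
    apply concl_quad 1 l (by norm_num)
    obtain ⟨x, x1, x2, x3⟩ := start (hq 1 l) (p := p0) (q := q0) (fun h => a2 fun w hw t ht => by
      have := h w hw t ht; nlinarith)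
    refine caseA (hq 1 l) x2 x3 fun p q h1 h2 h3 h => a1 p q (by linarith) h2 h3 ?_
    intro w hw t ht
    have := h w hw t ht; nlinarith
  by_cases B : ∃ l p0 q0, (∀ p q, p0 ≤ p → p < q → q ≤ q0 → ¬ Ccv g g' l p q) ∧
      ¬ Cvx g g' l p0 q0
  · obtain ⟨l, p0, q0, a1, a2⟩ := B
    apply concl_quad (-1) l (by norm_num)
    obtain ⟨x, x1, x2, x3⟩ := start (hq (-1) l) (p := p0) (q := q0)
      (fun h => a2 fun w hw t ht => by have := h w hw t ht; nlinarith)
    refine caseA (hq (-1) l) x2 x3 fun p q h1 h2 h3 h => a1 p q (by linarith) h2 h3 ?_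
    intro w hw t ht
    have := h w hw t ht; nlinarith
  have A' : ∀ l p0 q0, ¬ Ccv g g' l p0 q0 →
      ∃ p q, p0 ≤ p ∧ p < q ∧ q ≤ q0 ∧ Cvx g g' l p q := by
    intro l p0 q0 h
    by_contra hh
    exact A ⟨l, p0, q0, fun p q a b c d => hh ⟨p, q, a, b, c, d⟩, h⟩
  have B' : ∀ l p0 q0, ¬ Cvx g g' l p0 q0 →
      ∃ p q, p0 ≤ p ∧ p < q ∧ q ≤ q0 ∧ Ccv g g' l p q := by
    intro l p0 q0 h
    by_contra hh
    exact B ⟨l, p0, q0, fun p q a b c d => hh ⟨p, q, a, b, c, d⟩, h⟩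
  apply caseB hd
  intro p0 q0 ε hpq hε
  have quad : ∀ p q, p < q → ∃ l, g p + g' p * (q - p) + l * (q - p) ^ 2 / 2 = g q := by
    intro p q h
    have : (q - p) ≠ 0 := (sub_pos.2 h).ne'
    exact ⟨2 * (g q - g p - g' p * (q - p)) / (q - p) ^ 2, by field_simp; ring⟩
  obtain ⟨l0, hl0⟩ := quad p0 q0 hpq
  obtain ⟨p1, q1, a1, a2, a3, a4⟩ := A' (l0 - 1) p0 q0 (fun h => by
    have := h p0 ⟨le_rfl, hpq.le⟩ q0 ⟨hpq.le, le_rfl⟩
    have c : 0 < (q0 - p0) ^ 2 := pow_pos (by linarith) 2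
    nlinarith)
  obtain ⟨l1, hl1⟩ := quad p1 q1 a2
  obtain ⟨p2, q2, b1, b2, b3, b4⟩ := B' (l1 + 1) p1 q1 (fun h => by
    have := h p1 ⟨le_rfl, a2.le⟩ q1 ⟨a2.le, le_rfl⟩
    have c : 0 < (q1 - p1) ^ 2 := pow_pos (by linarith) 2
    nlinarith)
  have hex : ∃ k : ℕ, Ccv g g' (l0 - 1 + ((k : ℝ) + 1) * ε) p2 q2 := by
    obtain ⟨k, hk⟩ := exists_nat_ge ((l1 + 1 - (l0 - 1)) / ε)
    rw [div_le_iff₀ hε] at hk
    refine ⟨k, fun w hw t ht => ?_⟩
    have := b4 w hw t ht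
    have c : 0 ≤ (t - w) ^ 2 := sq_nonneg _
    have d : l1 + 1 ≤ l0 - 1 + ((k : ℝ) + 1) * ε := by nlinarith
    nlinarith
  classical
  have hk := Nat.find_spec hex
  rcases hkk : Nat.find hex with _ | k
  · rw [hkk] at hk
    refine ⟨p2, q2, l0 - 1, by linarith, b2, by linarith, a4.sub b1 b3, ?_⟩
    simpa using hk
  · have hn := Nat.find_min hex (m := k) (by omega)
    obtain ⟨p3, q3, c1, c2, c3, c4⟩ := A' _ _ _ hn
    rw [hkk] at hk
    refine ⟨p3, q3, _, by linarith, c2, by linarith, c4, ?_⟩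
    have := hk.sub c1 c3
    push_cast at this
    rw [show l0 - 1 + ((k : ℝ) + 1) * ε + ε = l0 - 1 + ((k : ℝ) + 1 + 1) * ε by ring]
    exact this

end Pool.Agent.H355Z.UZ
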