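import Mathlib

set_option autoImplicit false

namespace Pool.Agent.H355Z.UZ

open Filter Topology

/-- two derivatives exist everywhere and the function and both derivatives are bounded by `M` -/
def Bd (h : ℝ → ℝ) (M : ℝ) : Prop :=
  ∃ h1 h2 : ℝ → ℝ, (∀ t, HasDerivAt h (h1 t) t) ∧ (∀ t, HasDerivAt h1 (h2 t) t) ∧
    ∀ t, |h t| ≤ M ∧ |h1 t| ≤ M ∧ |h2 t| ≤ M

lemma Bd.mono {h : ℝ → ℝ} {M N : ℝ} (H : Bd h M) (hMN : M ≤ N) : Bd h N := by
  obtain ⟨h1, h2, a, b, c⟩ := H
  exact ⟨h1, h2, a, b, fun t => ⟨(c t).1.trans hMN, (c t).2.1.trans hMN, (c t).2.2.trans hMN⟩⟩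

lemma Bd.add {h k : ℝ → ℝ} {M N : ℝ} (H : Bd h M) (K : Bd k N) :
    Bd (fun t => h t + k t) (M + N) := by
  obtain ⟨h1, h2, a, b, c⟩ := H
  obtain ⟨k1, k2, a', b', c'⟩ := K
  refine ⟨fun t => h1 t + k1 t, fun t => h2 t + k2 t, fun t => (a t).add (a' t),
    fun t => (b t).add (b' t), fun t => ⟨?_, ?_, ?_⟩⟩
  · exact (abs_add_le _ _).trans (add_le_add (c t).1 (c' t).1)
  · exact (abs_add_le _ _).trans (add_le_add (c t).2.1 (c' t).2.1)
  · exact (abs_add_le _ _).trans (add_le_add (c t).2.2 (c' t).2.2)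

lemma Bd.cmul {h : ℝ → ℝ} {M α e : ℝ} (H : Bd h M) (hα : |α| ≤ e) :
    Bd (fun t => α * h t) (e * M) := by
  obtain ⟨h1, h2, a, b, c⟩ := H
  have he : 0 ≤ e := (abs_nonneg _).trans hα
  refine ⟨fun t => α * h1 t, fun t => α * h2 t, fun t => (a t).const_mul α,
    fun t => (b t).const_mul α, fun t => ⟨?_, ?_, ?_⟩⟩
  · rw [abs_mul]; exact mul_le_mul hα (c t).1 (abs_nonneg _) he
  · rw [abs_mul]; exact mul_le_mul hα (c t).2.1 (abs_nonneg _) he
  · rw [abs_mul]; exact mul_le_mul hα (c t).2.2 (abs_nonneg _) he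

lemma Bd.scale {h : ℝ → ℝ} {M R : ℝ} (x : ℝ) (H : Bd h M) (hR : 0 < R) (hR1 : R ≤ 1) :
    Bd (fun t => R ^ 2 * h ((t - x) / R)) M := by
  obtain ⟨h1, h2, a, b, c⟩ := H
  have hM : 0 ≤ M := (abs_nonneg _).trans (c 0).1
  have hd : ∀ t, HasDerivAt (fun t => (t - x) / R) (1 / R) t := fun t =>
    ((hasDerivAt_id t).sub_const x).div_const R
  refine ⟨fun t => R * h1 ((t - x) / R), fun t => h2 ((t - x) / R), fun t => ?_, fun t => ?_,
    fun t => ⟨?_, ?_, (c _).2.2⟩⟩
  · have := ((a ((t - x) / R)).comp t (hd t)).const_mul (R ^ 2)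
    exact this.congr_deriv (by field_simp)
  · have := ((b ((t - x) / R)).comp t (hd t)).const_mul R
    exact this.congr_deriv (by field_simp)
  · rw [abs_mul, abs_of_nonneg (sq_nonneg R)]
    have : R ^ 2 ≤ 1 := by nlinarith
    calc R ^ 2 * |h ((t - x) / R)| ≤ 1 * M :=
          mul_le_mul this (c _).1 (abs_nonneg _) zero_le_one
      _ = M := one_mul M
  · rw [abs_mul, abs_of_nonneg hR.le]
    calc R * |h1 ((t - x) / R)| ≤ 1 * M :=
          mul_le_mul hR1 (c _).2.1 (abs_nonneg _) zero_le_one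
      _ = M := one_mul M

lemma bd_of_smooth {h : ℝ → ℝ} (hs : ContDiff ℝ 2 h) (hc : HasCompactSupport h) :
    ∃ M, 0 ≤ M ∧ Bd h M := by
  have h1 : ContDiff ℝ 1 (deriv h) := by
    have : ContDiff ℝ (1 + 1) h := by norm_num; exact hs
    exact this.deriv'
  have h2 : Continuous (deriv (deriv h)) := h1.continuous_deriv le_rfl
  obtain ⟨A, hA⟩ := hs.continuous.bounded_above_of_compact_support hc
  obtain ⟨B, hB⟩ := h1.continuous.bounded_above_of_compact_support hc.deriv
  obtain ⟨C, hC⟩ := h2.bounded_above_of_compact_support hc.deriv.deriv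
  have hA0 : 0 ≤ A := (norm_nonneg _).trans (hA 0)
  have hB0 : 0 ≤ B := (norm_nonneg _).trans (hB 0)
  have hC0 : 0 ≤ C := (norm_nonneg _).trans (hC 0)
  refine ⟨A + B + C, by positivity, deriv h, deriv (deriv h),
    fun t => (hs.differentiable (by norm_num) t).hasDerivAt,
    fun t => (h1.differentiable (by norm_num) t).hasDerivAt, fun t => ⟨?_, ?_, ?_⟩⟩
  · have := hA t; rw [Real.norm_eq_abs] at this; linarith
  · have := hB t; rw [Real.norm_eq_abs] at this; linarith
  · have := hC t; rw [Real.norm_eq_abs] at this; linarith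

noncomputable def bump : ContDiffBump (0 : ℝ) := ⟨1 / 2, 1, by norm_num, by norm_num⟩

noncomputable def chi (t : ℝ) : ℝ := bump t

lemma chi_one {t : ℝ} (h : |t| ≤ 1 / 2) : chi t = 1 :=
  bump.one_of_mem_closedBall (by simpa [bump, Real.dist_eq] using h)

lemma chi_zero {t : ℝ} (h : 1 ≤ |t|) : chi t = 0 :=
  bump.zero_of_le_dist (by simpa [bump, Real.dist_eq] using h)

lemma exists_K : ∃ K, 0 ≤ K ∧ Bd chi K ∧ Bd (fun t => t * chi t) K ∧
    Bd (fun t => t ^ 2 / 2 * chi t) K := by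
  have hs : ContDiff ℝ 2 chi := bump.contDiff
  have hc : HasCompactSupport chi := bump.hasCompactSupport
  obtain ⟨A, hA0, hA⟩ := bd_of_smooth hs hc
  obtain ⟨B, hB0, hB⟩ := bd_of_smooth (h := fun t => t * chi t) (contDiff_id.mul hs)
    (HasCompactSupport.mul_left (f := fun t : ℝ => t) hc)
  obtain ⟨C, hC0, hC⟩ := bd_of_smooth (h := fun t => t ^ 2 / 2 * chi t)
    (((contDiff_id.pow 2).div_const 2).mul hs)
    (HasCompactSupport.mul_left (f := fun t : ℝ => t ^ 2 / 2) hc)
  exact ⟨A + B + C, by positivity, hA.mono (by linarith), hB.mono (by linarith),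
    hC.mono (by linarith)⟩

/-- a node: centre, radius, three coefficients of a quadratic, error budget -/
structure St where
  x : ℝ
  r : ℝ
  a : ℝ
  b : ℝ
  c : ℝ
  e : ℝ

noncomputable def St.Q (s : St) (t : ℝ) : ℝ := s.a + s.b * (t - s.x) + s.c * (t - s.x) ^ 2 / 2

def Child (s s' : St) (R : ℝ) : Prop :=
  0 < R ∧ 2 * s'.r ≤ R ∧ s.x - s.r ≤ s'.x - R ∧ s'.x + R ≤ s.x + s.r ∧ s'.e ≤ s.e / 4 ∧
    |s'.a - s.Q s'.x| ≤ s.e * R ^ 2 ∧ |s'.b - (s.b + s.c * (s'.x - s.x))| ≤ s.e * R ∧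
    |s'.c - s.c| ≤ s.e

noncomputable def term (s s' : St) (R : ℝ) (t : ℝ) : ℝ := (s'.Q t - s.Q t) * chi ((t - s'.x) / R)

lemma term_bd {K : ℝ} (k0 : Bd chi K) (k1 : Bd (fun t => t * chi t) K)
    (k2 : Bd (fun t => t ^ 2 / 2 * chi t) K) {s s' : St} {R : ℝ} (h : Child s s' R)
    (hr : s.r ≤ 1) : Bd (term s s' R) (3 * (s.e * K)) := by
  obtain ⟨hR, -, h1, h2, -, ha, hb, hc⟩ := h
  have hR1 : R ≤ 1 := by linarith
  have ha' : |(s'.a - s.Q s'.x) / R ^ 2| ≤ s.e := by
    rw [abs_div, abs_of_pos (pow_pos hR 2), div_le_iff₀ (pow_pos hR 2)]; exact ha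
  have hb' : |(s'.b - (s.b + s.c * (s'.x - s.x))) / R| ≤ s.e := by
    rw [abs_div, abs_of_pos hR, div_le_iff₀ hR]; exact hb
  have := (((k0.cmul ha').add (k1.cmul hb')).add (k2.cmul hc)).scale s'.x hR hR1
  convert this using 1
  · funext t
    simp only [term, St.Q]
    field_simp
    ring
  · ring

lemma term_zero {s s' : St} {R t : ℝ} (hR : 0 < R) (h : R ≤ |t - s'.x|) : term s s' R t = 0 := by
  unfold term
  rw [chi_zero, mul_zero]
  rw [abs_div, abs_of_pos hR, le_div_iff₀ hR]; linarith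

lemma term_eq {s s' : St} {R t : ℝ} (hR : 0 < R) (h : 2 * |t - s'.x| ≤ R) :
    term s s' R t = s'.Q t - s.Q t := by
  unfold term
  rw [chi_one, mul_one]
  rw [abs_div, abs_of_pos hR, div_le_iff₀ hR]; linarith

/-- an abstract binary scheme -/
structure Scheme (g : ℝ → ℝ) where
  S : Type
  st : S → St
  ch : Bool → S → S
  R : Bool → S → ℝ
  r0 : ∀ s, 0 ≤ (st s).r
  r1 : ∀ s, (st s).r ≤ 1
  e0 : ∀ s, 0 ≤ (st s).e
  hit : ∀ s, ∃ y, |y - (st s).x| ≤ (st s).r ∧ (st s).Q y = g y
  child : ∀ b s, Child (st s) (st (ch b s)) (R b s)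
  sep : ∀ s, (st (ch false s)).x + R false s < (st (ch true s)).x - R true s

namespace Scheme

variable {g : ℝ → ℝ} (Z : Scheme g)

noncomputable def G : ℕ → Z.S → ℝ → ℝ
  | 0, s, t => term (Z.st s) (Z.st (Z.ch false s)) (Z.R false s) t +
      term (Z.st s) (Z.st (Z.ch true s)) (Z.R true s) t
  | n + 1, s, t => G n (Z.ch false s) t + G n (Z.ch true s) t

lemma G_bd {K : ℝ} (hK : 0 ≤ K) (k0 : Bd chi K) (k1 : Bd (fun t => t * chi t) K)
    (k2 : Bd (fun t => t ^ 2 / 2 * chi t) K) (n : ℕ) : ∀ s : Z.S,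
    Bd (Z.G n s) (6 * ((Z.st s).e * K) * (1 / 2) ^ n) := by
  induction n with
  | zero =>
    intro s
    have := (term_bd k0 k1 k2 (Z.child false s) (Z.r1 s)).add
      (term_bd k0 k1 k2 (Z.child true s) (Z.r1 s))
    refine Bd.mono this (le_of_eq (by ring))
  | succ n ih =>
    intro s
    have := (ih (Z.ch false s)).add (ih (Z.ch true s))
    refine Bd.mono this ?_
    have h1 := (Z.child false s).2.2.2.2.1
    have h2 := (Z.child true s).2.2.2.2.1
    have h3 : (0 : ℝ) ≤ K * (1 / 2) ^ n := by positivity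
    have h4 := mul_le_mul_of_nonneg_right (add_le_add h1 h2) h3
    rw [pow_succ]
    nlinarith

lemma far {s : Z.S} {t : ℝ} (b : Bool) (h : (Z.st s).r ≤ |t - (Z.st s).x|) :
    Z.R b s ≤ |t - (Z.st (Z.ch b s)).x| := by
  obtain ⟨hR, -, h1, h2, -⟩ := Z.child b s
  rcases le_abs'.1 h with h | h
  · exact le_abs'.2 (Or.inl (by linarith))
  · exact le_abs'.2 (Or.inr (by linarith))

lemma G_zero (n : ℕ) : ∀ (s : Z.S) (t : ℝ), (Z.st s).r ≤ |t - (Z.st s).x| → Z.G n s t = 0 := by
  induction n with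
  | zero =>
    intro s t h
    simp only [G]
    rw [term_zero (Z.child false s).1 (Z.far false h),
      term_zero (Z.child true s).1 (Z.far true h), add_zero]
  | succ n ih =>
    intro s t h
    simp only [G]
    have k : ∀ b, (Z.st (Z.ch b s)).r ≤ |t - (Z.st (Z.ch b s)).x| := fun b => by
      have := Z.far b h
      have h2 := (Z.child b s).2.1
      have h3 := Z.r0 (Z.ch b s)
      linarith
    rw [ih _ _ (k false), ih _ _ (k true), add_zero]

def path : ℕ → (ℕ → Bool) → Z.S → Z.S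
  | 0, _, s => s
  | n + 1, σ, s => path n (fun i => σ (i + 1)) (Z.ch (σ 0) s)

lemma path_succ (n : ℕ) : ∀ (σ : ℕ → Bool) (s : Z.S),
    Z.path (n + 1) σ s = Z.ch (σ n) (Z.path n σ s) := by
  induction n with
  | zero => intro σ s; rfl
  | succ n ih =>
    intro σ s
    have := ih (fun i => σ (i + 1)) (Z.ch (σ 0) s)
    simpa only [path] using this

/-- membership in the closed interval of a node -/
def In (s : Z.S) (t : ℝ) : Prop := |t - (Z.st s).x| ≤ (Z.st s).r

lemma in_of_ch {s : Z.S} {b : Bool} {t : ℝ} (h : Z.In (Z.ch b s) t) : Z.In s t := by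
  obtain ⟨hR, h0, h1, h2, -⟩ := Z.child b s
  unfold In at *
  have h3 := Z.r0 (Z.ch b s)
  rw [abs_le] at *
  constructor <;> linarith [h.1, h.2]

lemma in_of_path (n : ℕ) {σ : ℕ → Bool} {s : Z.S} {t : ℝ} (h : Z.In (Z.path n σ s) t) :
    Z.In s t := by
  induction n with
  | zero => exact h
  | succ n ih => rw [path_succ] at h; exact ih (Z.in_of_ch h)

lemma in_mono {n m : ℕ} (hnm : n ≤ m) {σ : ℕ → Bool} {s : Z.S} {t : ℝ}
    (h : Z.In (Z.path m σ s) t) : Z.In (Z.path n σ s) t := by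
  induction m, hnm using Nat.le_induction with
  | base => exact h
  | succ m _ ih => rw [path_succ] at h; exact ih (Z.in_of_ch h)

lemma other {s : Z.S} {b : Bool} {t : ℝ} (h : Z.In (Z.ch b s) t) :
    Z.R (!b) s < |t - (Z.st (Z.ch (!b) s)).x| := by
  have hs := Z.sep s
  have h0 := (Z.child b s).2.1
  have h3 := Z.r0 (Z.ch b s)
  unfold In at h
  rw [abs_le] at h
  cases b
  · exact lt_abs.2 (Or.inr (by simp only [Bool.not_false]; linarith [h.2]))
  · exact lt_abs.2 (Or.inl (by simp only [Bool.not_true]; linarith [h.1]))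

lemma G_eq (n : ℕ) : ∀ (σ : ℕ → Bool) (s : Z.S) (t : ℝ), Z.In (Z.path (n + 1) σ s) t →
    Z.G n s t = (Z.st (Z.path (n + 1) σ s)).Q t - (Z.st (Z.path n σ s)).Q t := by
  induction n with
  | zero =>
    intro σ s t h
    have h' : Z.In (Z.ch (σ 0) s) t := h
    have h1 := term_zero (s := Z.st s) (Z.child (!σ 0) s).1 (Z.other h').le
    have h2 : term (Z.st s) (Z.st (Z.ch (σ 0) s)) (Z.R (σ 0) s) t = _ :=
      term_eq (Z.child (σ 0) s).1 (by
        have := (Z.child (σ 0) s).2.1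
        unfold In at h'; linarith)
    simp only [G, path]
    cases hb : σ 0 <;> rw [hb] at h1 h2
    · rw [h2]; simp only [Bool.not_false] at h1; rw [h1, add_zero]
    · rw [h2]; simp only [Bool.not_true] at h1; rw [h1, zero_add]
  | succ n ih =>
    intro σ s t h
    have h' : Z.In (Z.ch (σ 0) s) t := Z.in_of_path (n + 1) (σ := fun i => σ (i + 1)) h
    have h1 : Z.G n (Z.ch (!σ 0) s) t = 0 := Z.G_zero n _ _ (by
      have := Z.other h'
      have h2 := (Z.child (!σ 0) s).2.1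
      have h3 := Z.r0 (Z.ch (!σ 0) s)
      linarith)
    have h2 := ih (fun i => σ (i + 1)) (Z.ch (σ 0) s) t h
    have e1 : Z.path (n + 1 + 1) σ s = Z.path (n + 1) (fun i => σ (i + 1)) (Z.ch (σ 0) s) := rfl
    have e2 : Z.path (n + 1) σ s = Z.path n (fun i => σ (i + 1)) (Z.ch (σ 0) s) := rfl
    rw [e1, e2, ← h2]
    simp only [G]
    cases hb : σ 0 <;> rw [hb] at h1
    · simp only [Bool.not_false] at h1; rw [h1, add_zero]
    · simp only [Bool.not_true] at h1; rw [h1, zero_add]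

lemma r_le (n : ℕ) (σ : ℕ → Bool) (s : Z.S) : (Z.st (Z.path n σ s)).r ≤ (1 / 2) ^ n := by
  induction n with
  | zero => simpa [path] using Z.r1 s
  | succ n ih =>
    rw [path_succ, pow_succ]
    obtain ⟨hR, h0, h1, h2, -⟩ := Z.child (σ n) (Z.path n σ s)
    linarith

lemma exists_pt (σ : ℕ → Bool) (s : Z.S) : ∃ p, ∀ n, Z.In (Z.path n σ s) p := by
  have := IsCompact.nonempty_iInter_of_sequence_nonempty_isCompact_isClosed
    (fun n => Metric.closedBall (Z.st (Z.path n σ s)).x (Z.st (Z.path n σ s)).r)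
    (fun n t ht => by
      have : Z.In (Z.path (n + 1) σ s) t := by simpa [In, Real.dist_eq] using ht
      simpa [In, Real.dist_eq] using Z.in_mono (Nat.le_succ n) this)
    (fun n => Metric.nonempty_closedBall.2 (Z.r0 _)) (isCompact_closedBall _ _)
    (fun n => Metric.isClosed_closedBall)
  obtain ⟨p, hp⟩ := this
  refine ⟨p, fun n => ?_⟩
  simpa [In, Real.dist_eq] using Set.mem_iInter.1 hp n

lemma path_congr (n : ℕ) {σ τ : ℕ → Bool} (s : Z.S) (h : ∀ i < n, σ i = τ i) :
    Z.path n σ s = Z.path n τ s := by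
  induction n with
  | zero => rfl
  | succ n ih =>
    rw [path_succ, path_succ, ih (fun i hi => h i (by omega)), h n (by omega)]

lemma pt_inj {σ τ : ℕ → Bool} (s : Z.S) {p : ℝ} (h1 : ∀ n, Z.In (Z.path n σ s) p)
    (h2 : ∀ n, Z.In (Z.path n τ s) p) : σ = τ := by
  by_contra hne
  have hex : ∃ n, σ n ≠ τ n := by
    by_contra hh; push Not at hh; exact hne (funext hh)
  classical
  have hn := Nat.find_spec hex
  have hlt : ∀ i < Nat.find hex, σ i = τ i := fun i hi => by
    have := Nat.find_min hex hi; push Not at this; exact this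
  set n := Nat.find hex
  have a := h1 (n + 1)
  have b := h2 (n + 1)
  rw [path_succ] at a b
  rw [← Z.path_congr n s hlt] at b
  have e : τ n = !σ n := by
    cases h : σ n <;> cases h' : τ n <;> simp_all
  rw [e] at b
  have c := Z.other a
  have d := (Z.child (!σ n) (Z.path n σ s)).2.1
  have d0 := Z.r0 (Z.ch (!σ n) (Z.path n σ s))
  unfold In at b
  linarith

theorem main (hg : Continuous g) (s : Z.S) :
    ∃ f : ℝ → ℝ, Differentiable ℝ f ∧ Differentiable ℝ (deriv f) ∧
      ¬ Set.Countable {x : ℝ | f x = g x} := by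
  obtain ⟨K, hK, k0, k1, k2⟩ := exists_K
  set M := 6 * ((Z.st s).e * K) with hM
  have hb := fun n => Z.G_bd hK k0 k1 k2 n s
  choose G1 G2 d1 d2 bd using hb
  have hu : Summable fun n : ℕ => M * (1 / 2 : ℝ) ^ n := summable_geometric_two.mul_left M
  have s0 : ∀ t, Summable fun n => Z.G n s t := fun t =>
    Summable.of_norm_bounded hu (fun n => (bd n t).1)
  have s1 : ∀ t, Summable fun n => G1 n t := fun t =>
    Summable.of_norm_bounded hu (fun n => (bd n t).2.1)
  have D1 : ∀ t, HasDerivAt (fun z => ∑' n, Z.G n s z) (∑' n, G1 n t) t := fun t =>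
    hasDerivAt_tsum hu d1 (fun n y => (bd n y).2.1) (s0 0) t
  have D2 : ∀ t, HasDerivAt (fun z => ∑' n, G1 n z) (∑' n, G2 n t) t := fun t =>
    hasDerivAt_tsum hu d2 (fun n y => (bd n y).2.2) (s1 0) t
  have Q1 : ∀ t, HasDerivAt (Z.st s).Q ((Z.st s).b + (Z.st s).c * (t - (Z.st s).x)) t := by
    intro t
    have h := (hasDerivAt_id t).sub_const (Z.st s).x
    have := ((h.const_mul (Z.st s).b).const_add (Z.st s).a).add
      (((h.pow 2).const_mul (Z.st s).c).div_const 2)
    exact this.congr_deriv (by simp; ring)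
  set f : ℝ → ℝ := fun z => (Z.st s).Q z + ∑' n, Z.G n s z with hf
  have F1 : ∀ t, HasDerivAt f ((Z.st s).b + (Z.st s).c * (t - (Z.st s).x) + ∑' n, G1 n t) t :=
    fun t => (Q1 t).add (D1 t)
  have hdf : Differentiable ℝ f := fun t => (F1 t).differentiableAt
  have e1 : deriv f = fun t => (Z.st s).b + (Z.st s).c * (t - (Z.st s).x) + ∑' n, G1 n t :=
    funext fun t => (F1 t).deriv
  refine ⟨f, hdf, ?_, ?_⟩
  · rw [e1]
    intro t
    exact DifferentiableAt.add (by fun_prop) (D2 t).differentiableAt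
  · choose p hp using fun σ => Z.exists_pt σ s
    have key : ∀ σ, f (p σ) = g (p σ) := by
      intro σ
      choose y hy1 hy2 using fun n => Z.hit (Z.path n σ s)
      have tel : ∀ N n, n ≤ N → (Z.st s).Q (y N) + ∑ i ∈ Finset.range n, Z.G i s (y N) =
          (Z.st (Z.path n σ s)).Q (y N) := by
        intro N n
        induction n with
        | zero => intro _; simp [path]
        | succ n ih =>
          intro hn
          rw [Finset.sum_range_succ, ← add_assoc, ih (by omega),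
            Z.G_eq n σ s (y N) (Z.in_mono hn (hy1 N))]
          ring
      have est : ∀ N, ‖f (y N) - g (y N)‖ ≤ 2 * M * (1 / 2) ^ N := by
        intro N
        have h1 := (s0 (y N)).sum_add_tsum_nat_add N
        have h2 : f (y N) - g (y N) = ∑' i, Z.G (i + N) s (y N) := by
          rw [← hy2 N, ← tel N N le_rfl]
          simp only [hf]
          rw [← h1]; ring
        rw [h2]
        have h3 : HasSum (fun i : ℕ => M * (1 / 2 : ℝ) ^ (i + N)) (2 * M * (1 / 2) ^ N) := by
          have := hasSum_geometric_two.mul_left (M * (1 / 2 : ℝ) ^ N)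
          rw [show (fun i : ℕ => M * (1 / 2 : ℝ) ^ (i + N)) =
            fun i : ℕ => M * (1 / 2 : ℝ) ^ N * (1 / 2) ^ i from
              funext fun i => by rw [pow_add]; ring,
            show 2 * M * (1 / 2 : ℝ) ^ N = M * (1 / 2) ^ N * 2 by ring]
          exact this
        exact tsum_of_norm_bounded h3 (fun i => (bd (i + N) (y N)).1)
      have hh : Tendsto (fun N : ℕ => (1 / 2 : ℝ) ^ N) atTop (𝓝 0) :=
        tendsto_pow_atTop_nhds_zero_of_lt_one (by norm_num) (by norm_num)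
      have ty : Tendsto y atTop (𝓝 (p σ)) := by
        rw [tendsto_iff_norm_sub_tendsto_zero]
        refine squeeze_zero (fun N => norm_nonneg _) (fun N => ?_)
          (by simpa using hh.const_mul 2)
        have a := hy1 N
        have b := hp σ N
        have c := Z.r_le N σ s
        unfold In at b
        rw [Real.norm_eq_abs]
        have := abs_sub_le (y N) (Z.st (Z.path N σ s)).x (p σ)
        rw [abs_sub_comm (Z.st (Z.path N σ s)).x (p σ)] at this
        simp only [one_div, inv_pow] at c ⊢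
        linarith
      have t1 : Tendsto (fun N => f (y N) - g (y N)) atTop (𝓝 (f (p σ) - g (p σ))) :=
        ((hdf.continuous.sub hg).tendsto _).comp ty
      have t2 : Tendsto (fun N => f (y N) - g (y N)) atTop (𝓝 0) :=
        squeeze_zero_norm est (by simpa using hh.const_mul (2 * M))
      exact sub_eq_zero.1 (tendsto_nhds_unique t1 t2)
    intro hc
    have hinj : Function.Injective (fun σ => (⟨p σ, key σ⟩ : {x : ℝ | f x = g x})) := by
      intro σ τ h
      have h' : p σ = p τ := congrArg Subtype.val h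
      exact Z.pt_inj s (hp σ) (h' ▸ hp τ)
    have := hc.to_subtype
    have hcnt : Countable (ℕ → Bool) := hinj.countable
    obtain ⟨e, he⟩ := exists_surjective_nat (ℕ → Bool)
    obtain ⟨n, hn⟩ := he (fun i => !e i i)
    have := congrFun hn n
    simp at this

end Scheme

theorem tree (g : ℝ → ℝ) (hg : Continuous g) (P : St → Prop) (s₀ : St) (h₀ : P s₀)
    (hP : ∀ s, P s → 0 ≤ s.r ∧ s.r ≤ 1 ∧ 0 ≤ s.e ∧ (∃ y, |y - s.x| ≤ s.r ∧ s.Q y = g y) ∧
      ∃ (s0 s1 : St) (R0 R1 : ℝ), P s0 ∧ P s1 ∧ Child s s0 R0 ∧ Child s s1 R1 ∧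
        s0.x + R0 < s1.x - R1) :
    ∃ f : ℝ → ℝ, Differentiable ℝ f ∧ Differentiable ℝ (deriv f) ∧
      ¬ Set.Countable {x : ℝ | f x = g x} := by
  have h := fun s : {s // P s} => (hP s.1 s.2).2.2.2.2
  choose c0 c1 R0 R1 p0 p1 k0 k1 sp using h
  let Z : Scheme g :=
    { S := {s // P s}
      st := Subtype.val
      ch := fun b s => match b with
        | false => ⟨c0 s, p0 s⟩
        | true => ⟨c1 s, p1 s⟩
      R := fun b s => match b with
        | false => R0 s
        | true => R1 s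
      r0 := fun s => (hP s.1 s.2).1
      r1 := fun s => (hP s.1 s.2).2.1
      e0 := fun s => (hP s.1 s.2).2.2.1
      hit := fun s => (hP s.1 s.2).2.2.2.1
      child := fun b s => match b with
        | false => k0 s
        | true => k1 s
      sep := sp }
  exact Z.main hg ⟨s₀, h₀⟩

end Pool.Agent.H355Z.UZ
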